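import Mathlib

/-!
# Residue fields of finitely generated rings, and the characteristic of limits (MP_5dc868_al)
-/

namespace Pool.Agent.Lib.P5dcF

open PrimeSpectrum

/-- the integers are a Jacobson ring -/
instance instJacobsonInt : IsJacobsonRing ℤ := by
  rw [isJacobsonRing_iff_prime_eq]
  intro P hP
  by_cases hb : P = ⊥
  · subst hb
    rw [eq_bot_iff]
    intro x hx
    have h1 := (Ideal.mem_jacobson_bot.1 hx) x
    rw [Int.isUnit_iff] at h1
    have h2 : 0 ≤ x * x := mul_self_nonneg x
    have h3 : x * x = 0 := by omega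
    have h4 : x = 0 := by simpa using h3
    rw [h4]
    exact Submodule.zero_mem _
  · have : P.IsMaximal := hP.isMaximal hb
    exact Ideal.jacobson_eq_self_of_isMaximal

/-- a field which is a finitely generated ring is finite -/
theorem finite_field_of_finiteType (F : Type) [Field F] [Algebra.FiniteType ℤ F] : Finite F := by
  have h1 : Module.Finite ℤ F := finite_of_finite_type_of_isJacobsonRing ℤ F
  have hint : Algebra.IsIntegral ℤ F := Algebra.IsIntegral.of_finite ℤ F
  obtain ⟨p, hp⟩ := CharP.exists F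
  rcases Nat.eq_zero_or_pos p with rfl | hpos
  · exfalso
    have : CharZero F := CharP.charP_to_charZero F
    have hinj : Function.Injective (algebraMap ℤ F) := by
      simpa using (Int.cast_injective : Function.Injective (Int.cast : ℤ → F))
    exact Int.not_isField (isField_of_isIntegral_of_isField hinj (Field.toIsField F))
  · have hpr : Fact p.Prime := ⟨(CharP.char_is_prime_or_zero F p).resolve_right (by omega)⟩
    letI : Algebra (ZMod p) F := ZMod.algebra F p
    have h2 : Module.Finite (ZMod p) F := by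
      obtain ⟨s, hs⟩ := h1.fg_top
      refine ⟨⟨s, ?_⟩⟩
      rw [eq_top_iff]
      intro x _
      have hx : x ∈ Submodule.span ℤ (s : Set F) := by
        rw [hs]
        trivial
      refine Submodule.span_induction (p := fun x _ => x ∈ Submodule.span (ZMod p) (s : Set F))
        (fun y hy => Submodule.subset_span hy) (Submodule.zero_mem _)
        (fun y z _ _ hy hz => Submodule.add_mem _ hy hz) (fun a y _ hy => ?_) hx
      exact zsmul_mem hy a
    exact Module.finite_of_finite (ZMod p)

theorem finiteType_canon (R : Type) [CommRing R] (i : Algebra ℤ R)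
    (h : @Algebra.FiniteType ℤ R _ _ i) : Algebra.FiniteType ℤ R := by
  have h1 : i = Ring.toIntAlgebra R := Subsingleton.elim _ _
  subst h1
  exact h

theorem finite_of_surjective (R F : Type) [CommRing R] (hR : Algebra.FiniteType ℤ R)
    [Field F] (ψ : R →+* F) (h : Function.Surjective ψ) : Finite F := by
  have : Algebra.FiniteType ℤ F := hR.of_surjective ψ.toIntAlgHom h
  exact finite_field_of_finiteType F

/-- a residue field at a maximal ideal -/
theorem exists_residue (R : Type) [CommRing R] (hR : Algebra.FiniteType ℤ R)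
    (q : ℕ) (hq : q.Prime) (I : Ideal R) (hI : I ≠ ⊤) (hqI : (q : R) ∈ I) :
    ∃ (F : Type) (_ : Field F) (_ : Finite F) (_ : CharP F q), Nonempty (R →+* F) := by
  obtain ⟨J, hJ, hle⟩ := Ideal.exists_le_maximal I hI
  letI : Field (R ⧸ J) := Ideal.Quotient.field J
  have h2 : Finite (R ⧸ J) :=
    finite_of_surjective R (R ⧸ J) hR (Ideal.Quotient.mk J) Ideal.Quotient.mk_surjective
  have h3 : ((q : ℕ) : R ⧸ J) = 0 := by
    have h4 : (Ideal.Quotient.mk J) (q : R) = 0 := Ideal.Quotient.eq_zero_iff_mem.2 (hle hqI)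
    simpa using h4
  obtain ⟨r, hr⟩ := CharP.exists (R ⧸ J)
  have h4 : r = q := by
    have h5 := (CharP.cast_eq_zero_iff (R ⧸ J) r q).1 h3
    rcases (Nat.dvd_prime hq).1 h5 with h6 | h6
    · exact absurd h6 (CharP.char_ne_one (R ⧸ J) r)
    · exact h6
  subst h4
  exact ⟨R ⧸ J, inferInstance, h2, hr, ⟨Ideal.Quotient.mk J⟩⟩

/-- almost all primes are residue characteristics -/
theorem exists_ideal (R K : Type) [CommRing R] (hR : Algebra.FiniteType ℤ R)
    [Field K] [CharZero K] (φ : R →+* K) (hφ : Function.Injective φ) :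
    ∃ N : ℕ, ∀ q : ℕ, q.Prime → N < q → ∃ I : Ideal R, I ≠ ⊤ ∧ (q : R) ∈ I := by
  have hdom : IsDomain R := hφ.isDomain φ
  have hinj : Function.Injective (algebraMap ℤ R) := by
    have h1 : Function.Injective (algebraMap ℤ K) := by
      simpa using (Int.cast_injective : Function.Injective (Int.cast : ℤ → K))
    have h2 : φ.comp (algebraMap ℤ R) = algebraMap ℤ K := RingHom.ext_int _ _
    rw [← h2] at h1
    exact Function.Injective.of_comp h1
  have htf : Module.IsTorsionFree ℤ R := by
    refine Module.IsTorsionFree.of_smul_eq_zero fun n x hx => ?_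
    rw [Algebra.smul_def] at hx
    rcases mul_eq_zero.1 hx with h1 | h1
    · left
      exact hinj (by rw [h1, map_zero])
    · exact Or.inr h1
  have hflat : Module.Flat ℤ R := inferInstance
  have hfp : Algebra.FinitePresentation ℤ R := Algebra.FinitePresentation.of_finiteType.1 hR
  have hopen : IsOpenMap (comap (algebraMap ℤ R)) :=
    isOpenMap_comap_of_hasGoingDown_of_finitePresentation
  have hr := hopen.isOpen_range
  let x₀ : PrimeSpectrum ℤ := comap (algebraMap ℤ R) ⟨⊥, Ideal.isPrime_bot⟩
  obtain ⟨_, ⟨f, rfl⟩, hf0, hf⟩ := isTopologicalBasis_basic_opens.exists_subset_of_mem_open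
    (show x₀ ∈ Set.range (comap (algebraMap ℤ R)) from ⟨_, rfl⟩) hr
  have hf0' : f ≠ 0 := by
    rintro rfl
    have h1 := (mem_basicOpen (0 : ℤ) x₀).1 hf0
    exact h1 (Submodule.zero_mem _)
  refine ⟨f.natAbs, fun q hq hNq => ?_⟩
  have hqZ : Prime (q : ℤ) := Nat.prime_iff_prime_int.1 hq
  let y : PrimeSpectrum ℤ := ⟨Ideal.span {(q : ℤ)},
    (Ideal.span_singleton_prime hqZ.ne_zero).2 hqZ⟩
  have hy : y ∈ (basicOpen f : Set (PrimeSpectrum ℤ)) := by
    show f ∉ Ideal.span {(q : ℤ)}
    rw [Ideal.mem_span_singleton]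
    intro hd
    have h1 : q ∣ f.natAbs := Int.natCast_dvd.1 hd
    have h2 := Nat.le_of_dvd (Int.natAbs_pos.2 hf0') h1
    omega
  obtain ⟨P, hP⟩ := hf hy
  refine ⟨P.asIdeal, P.isPrime.ne_top, ?_⟩
  have h1 : (q : ℤ) ∈ (comap (algebraMap ℤ R) P).asIdeal := by
    rw [hP]
    exact Ideal.mem_span_singleton_self _
  have h2 : algebraMap ℤ R (q : ℤ) ∈ P.asIdeal := h1
  simpa using h2

/-- `q` is `r`, or `r = 0` and `q` is large -/
def Near (r N q : ℕ) : Prop := q = r ∨ (r = 0 ∧ N < q)

/-- finite residue fields of a finitely generated subring of a field of characteristic `r` -/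
theorem exists_finite_residue (R K : Type) [CommRing R] (hR : Algebra.FiniteType ℤ R)
    [Field K] (r : ℕ) [CharP K r] (φ : R →+* K) (hφ : Function.Injective φ) :
    ∃ N : ℕ, ∀ q : ℕ, q.Prime → Near r N q →
      ∃ (F : Type) (_ : Field F) (_ : Finite F) (_ : CharP F q), Nonempty (R →+* F) := by
  rcases Nat.eq_zero_or_pos r with rfl | hr
  · have : CharZero K := CharP.charP_to_charZero K
    obtain ⟨N, hN⟩ := exists_ideal R K hR φ hφ
    refine ⟨N, fun q hq hn => ?_⟩
    have hNq : N < q := by
      rcases hn with h | h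
      · exact absurd h hq.ne_zero
      · exact h.2
    obtain ⟨I, hI, hqI⟩ := hN q hq hNq
    exact exists_residue R hR q hq I hI hqI
  · refine ⟨0, fun q hq hn => ?_⟩
    have hqr : q = r := by
      rcases hn with h | h
      · exact h
      · omega
    subst hqr
    have hnt : Nontrivial R := ⟨0, 1, fun h => zero_ne_one (by
      have := congrArg φ h
      rwa [map_zero, map_one] at this : (0 : K) = 1)⟩
    have h1 : (q : R) = 0 := hφ (by rw [map_natCast, map_zero, CharP.cast_eq_zero])
    exact exists_residue R hR q hq ⊥ bot_ne_top (by rw [h1]; exact Submodule.zero_mem _)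

/-- the characteristic of a limit -/
theorem near_limit {K : ℕ → Type} [∀ n, Field (K n)] (q : ℕ → ℕ) [∀ n, CharP (K n) (q n)]
    {L : Type} [Field L] (r : ℕ) [CharP L r] (φ : (∀ n, K n) →+* L)
    (hφ : ∀ (x : ∀ n, K n) (N : ℕ), (∀ n, N < n → x n = 0) → φ x = 0) (N : ℕ) :
    ∃ n, N < n ∧ Near r N (q n) := by
  by_contra hcon
  push Not at hcon
  rcases Nat.eq_zero_or_pos r with rfl | hr
  · have h1 : ∀ n, N < n → ((N.factorial : ℕ) : K n) = 0 := by
      intro n hn
      have h2 := hcon n hn
      have h3 : q n ≠ 0 := fun h => h2 (Or.inl h)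
      have h4 : q n ≤ N := by
        by_contra h
        exact h2 (Or.inr ⟨rfl, by omega⟩)
      rw [CharP.cast_eq_zero_iff (K n) (q n)]
      exact Nat.dvd_factorial (Nat.pos_of_ne_zero h3) h4
    have h2 : φ ((N.factorial : ℕ) : ∀ n, K n) = 0 := hφ _ N h1
    rw [map_natCast, CharP.cast_eq_zero_iff L 0, zero_dvd_iff] at h2
    exact N.factorial_ne_zero h2
  · have hrp : r.Prime := (CharP.char_is_prime_or_zero L r).resolve_right (by omega)
    have h1 : ∀ n, N < n → ((r : ℕ) : K n) ≠ 0 := by
      intro n hn h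
      rw [CharP.cast_eq_zero_iff (K n) (q n)] at h
      rcases (Nat.dvd_prime hrp).1 h with h6 | h6
      · exact CharP.char_ne_one (K n) (q n) h6
      · exact hcon n hn (Or.inl h6)
    let x : ∀ n, K n := fun n => ((r : ℕ) : K n)⁻¹
    have h2 : φ (((r : ℕ) : ∀ n, K n) * x - 1) = 0 := by
      refine hφ _ N fun n hn => ?_
      show ((r : ℕ) : K n) * ((r : ℕ) : K n)⁻¹ - 1 = 0
      rw [mul_inv_cancel₀ (h1 n hn), sub_self]
    rw [map_sub, map_mul, map_natCast, CharP.cast_eq_zero, zero_mul, map_one, zero_sub,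
      neg_eq_zero] at h2
    exact one_ne_zero h2

end Pool.Agent.Lib.P5dcF
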