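import Mathlib

/-!
# Structure constants and matrices (MP_5dc868_al)
-/

namespace Pool.Agent.Lib.P5dcF

open Matrix

/-- structure constants of an algebra with basis `e 0 = 1, …, e m` -/
abbrev SC (m : ℕ) (R : Type) : Type := Fin (m + 1) → Fin (m + 1) → Fin (m + 1) → R

/-- the matrices of the basis elements on a module with basis `J` -/
abbrev RP (m : ℕ) (J R : Type) : Type := Fin (m + 1) → Matrix J J R

section defs
variable {m : ℕ} {R : Type} [CommRing R] {J J' : Type} [Fintype J] [DecidableEq J] [Fintype J']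
  [DecidableEq J']

/-- the axioms of an associative algebra with unit `e 0` -/
def IsAlg (c : SC m R) : Prop :=
  (∀ l r, c 0 l r = if l = r then 1 else 0) ∧ (∀ l r, c l 0 r = if l = r then 1 else 0) ∧
    ∀ i j k s, ∑ r, c i j r * c r k s = ∑ r, c j k r * c i r s

/-- the axioms of a module -/
def IsRep (c : SC m R) (ρ : RP m J R) : Prop :=
  ρ 0 = 1 ∧ ∀ k l, ρ k * ρ l = ∑ r, c k l r • ρ r

/-- the left regular module -/
def lam (c : SC m R) : RP m (Fin (m + 1)) R := fun k => Matrix.of fun r l => c k l r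

/-- the dual of the right regular module -/
def dua (c : SC m R) : RP m (Fin (m + 1)) R := fun k => Matrix.of fun j s => c j k s

/-- the first syzygy -/
def om (c : SC m R) (ρ : RP m J R) : RP m (Fin m × J) R := fun k =>
  Matrix.of fun x y => (if x.2 = y.2 then c k y.1.succ x.1.succ else 0) -
    (if k = x.1.succ then ρ y.1.succ x.2 y.2 else 0)

/-- the canonical derivation with values in the maps to the first syzygy -/
def del (m : ℕ) (J R : Type) [CommRing R] [DecidableEq J] : Fin (m + 1) × (Fin m × J) × J → R :=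
  fun x => if x.1 = x.2.1.1.succ ∧ x.2.1.2 = x.2.2 then 1 else 0

/-- commutators -/
def M1 (ρ : RP m J R) (σ : RP m J' R) : Matrix (Fin (m + 1) × J' × J) (J' × J) R :=
  Matrix.of fun x y => (if y.2 = x.2.2 then σ x.1 x.2.1 y.1 else 0) -
    (if x.2.1 = y.1 then ρ x.1 y.2 x.2.2 else 0)

/-- the defect of a derivation -/
def M2 (c : SC m R) (ρ : RP m J R) (σ : RP m J' R) :
    Matrix (Fin (m + 1) × Fin (m + 1) × J' × J) (Fin (m + 1) × J' × J) R :=
  Matrix.of fun x y => (if y.1 = x.2.1 ∧ y.2.2 = x.2.2.2 then σ x.1 x.2.2.1 y.2.1 else 0) +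
    (if y.1 = x.1 ∧ y.2.1 = x.2.2.1 then ρ x.2.1 y.2.2 x.2.2.2 else 0) -
    (if y.2.1 = x.2.2.1 ∧ y.2.2 = x.2.2.2 then c x.1 x.2.1 y.1 else 0)

/-- all derivations are inner, with certificates -/
def Ex (c : SC m R) (ρ : RP m J R) (σ : RP m J' R) : Prop :=
  ∃ (H : Matrix (J' × J) (Fin (m + 1) × J' × J) R)
    (H' : Matrix (Fin (m + 1) × J' × J) (Fin (m + 1) × Fin (m + 1) × J' × J) R),
    M1 ρ σ * H + H' * M2 c ρ σ = 1

/-- the module is not projective, with a certificate -/
def NP (c : SC m R) (ρ : RP m J R) : Prop :=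
  ∃ ξ : Fin (m + 1) × (Fin m × J) × J → R, ξ ᵥ* M1 ρ (om c ρ) = 0 ∧ ξ ⬝ᵥ del m J R = 1

end defs

/-- the index types of the syzygies -/
def Jt (m : ℕ) (J : Type) : ℕ → Type
  | 0 => J
  | i + 1 => Fin m × Jt m J i

instance instFintypeJt (m : ℕ) (J : Type) [h : Fintype J] : ∀ i, Fintype (Jt m J i)
  | 0 => h
  | i + 1 => by
    have := instFintypeJt m J i
    exact inferInstanceAs (Fintype (Fin m × Jt m J i))

instance instDecJt (m : ℕ) (J : Type) [h : DecidableEq J] : ∀ i, DecidableEq (Jt m J i)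
  | 0 => h
  | i + 1 => by
    have := instDecJt m J i
    exact inferInstanceAs (DecidableEq (Fin m × Jt m J i))

/-- the syzygies -/
def omI {m : ℕ} {R : Type} [CommRing R] {J : Type} [DecidableEq J] (c : SC m R)
    (ρ : RP m J R) : ∀ i, RP m (Jt m J i) R
  | 0 => ρ
  | i + 1 => om c (omI c ρ i)

section map
variable {m : ℕ} {R S : Type} [CommRing R] [CommRing S] (φ : R →+* S) {J J' : Type} [Fintype J]
  [DecidableEq J] [Fintype J'] [DecidableEq J']

/-- base change of structure constants -/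
def mapC (c : SC m R) : SC m S := fun k l r => φ (c k l r)

/-- base change of matrices -/
def mapR (ρ : RP m J R) : RP m J S := fun k => (ρ k).map φ

omit [Fintype J] [DecidableEq J] [Fintype J'] [DecidableEq J'] in
theorem lam_map (c : SC m R) : lam (mapC φ c) = mapR φ (lam c) := rfl

omit [Fintype J] [DecidableEq J] [Fintype J'] [DecidableEq J'] in
theorem dua_map (c : SC m R) : dua (mapC φ c) = mapR φ (dua c) := rfl

omit [Fintype J] in
theorem om_map (c : SC m R) (ρ : RP m J R) : om (mapC φ c) (mapR φ ρ) = mapR φ (om c ρ) := by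
  funext k
  ext x y
  simp only [om, mapR, mapC, Matrix.of_apply, Matrix.map_apply, map_sub]
  split_ifs <;> simp

omit [Fintype J] in
theorem omI_map (c : SC m R) (ρ : RP m J R) (i : ℕ) :
    omI (mapC φ c) (mapR φ ρ) i = mapR φ (omI c ρ i) := by
  induction i with
  | zero => rfl
  | succ i ih =>
    show om (mapC φ c) (omI (mapC φ c) (mapR φ ρ) i) = mapR φ (om c (omI c ρ i))
    rw [ih, om_map]

omit [Fintype J] [Fintype J'] in
theorem M1_map (ρ : RP m J R) (σ : RP m J' R) :
    M1 (mapR φ ρ) (mapR φ σ) = (M1 ρ σ).map φ := by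
  ext x y
  simp only [M1, mapR, Matrix.of_apply, Matrix.map_apply, map_sub]
  split_ifs <;> simp

omit [Fintype J] [Fintype J'] in
theorem M2_map (c : SC m R) (ρ : RP m J R) (σ : RP m J' R) :
    M2 (mapC φ c) (mapR φ ρ) (mapR φ σ) = (M2 c ρ σ).map φ := by
  ext x y
  simp only [M2, mapR, mapC, Matrix.of_apply, Matrix.map_apply, map_sub, map_add]
  split_ifs <;> simp

omit [Fintype J] in
theorem del_map : del m J S = fun x => φ (del m J R x) := by
  funext x
  simp only [del]
  split_ifs <;> simp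

theorem IsAlg.map {c : SC m R} (h : IsAlg c) : IsAlg (mapC φ c) := by
  refine ⟨fun l r => ?_, fun l r => ?_, fun i j k s => ?_⟩
  · simp only [mapC, h.1]
    split_ifs <;> simp
  · simp only [mapC, h.2.1]
    split_ifs <;> simp
  · have h1 := congrArg φ (h.2.2 i j k s)
    simpa [mapC, map_sum] using h1

theorem IsAlg.of_map {c : SC m R} (hφ : Function.Injective φ) (h : IsAlg (mapC φ c)) :
    IsAlg c := by
  refine ⟨fun l r => hφ ?_, fun l r => hφ ?_, fun i j k s => hφ ?_⟩
  · have := h.1 l r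
    simp only [mapC] at this
    rw [this]
    split_ifs <;> simp
  · have := h.2.1 l r
    simp only [mapC] at this
    rw [this]
    split_ifs <;> simp
  · have := h.2.2 i j k s
    simpa [mapC, map_sum] using this

theorem IsRep.map {c : SC m R} {ρ : RP m J R} (h : IsRep c ρ) :
    IsRep (mapC φ c) (mapR φ ρ) := by
  refine ⟨?_, fun k l => ?_⟩
  · show (ρ 0).map φ = 1
    rw [h.1]
    exact Matrix.map_one φ (map_zero φ) (map_one φ)
  · show (ρ k).map φ * (ρ l).map φ = _
    rw [← Matrix.map_mul, h.2]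
    ext x y
    simp [mapC, mapR, Matrix.sum_apply]

theorem Ex.map {c : SC m R} {ρ : RP m J R} {σ : RP m J' R} (h : Ex c ρ σ) :
    Ex (mapC φ c) (mapR φ ρ) (mapR φ σ) := by
  obtain ⟨H, H', h⟩ := h
  refine ⟨H.map φ, H'.map φ, ?_⟩
  rw [M1_map, M2_map, ← Matrix.map_mul, ← Matrix.map_mul, ← Matrix.map_add _ (map_add φ), h]
  exact Matrix.map_one φ (map_zero φ) (map_one φ)

theorem NP.map {c : SC m R} {ρ : RP m J R} (h : NP c ρ) : NP (mapC φ c) (mapR φ ρ) := by
  obtain ⟨ξ, h1, h2⟩ := h
  refine ⟨fun x => φ (ξ x), ?_, ?_⟩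
  · rw [om_map, M1_map]
    funext y
    have h3 := congrArg φ (congrFun h1 y)
    simpa [Matrix.vecMul, dotProduct, map_sum] using h3
  · rw [del_map φ]
    have h3 := congrArg φ h2
    simpa [dotProduct, map_sum] using h3

end map

end Pool.Agent.Lib.P5dcF
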