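import Mathlib

/-!
# Homomorphisms to prime fields (MP_5dc868_al)
-/

namespace Pool.Agent.Lib.P5dcF

open Polynomial

/-- a nonconstant integer polynomial has roots modulo arbitrarily large primes (Schur) -/
theorem exists_root_mod (f : ℤ[X]) (hf : 0 < f.natDegree) (N : ℕ) :
    ∃ (p : ℕ) (a : ℤ), p.Prime ∧ N < p ∧ (p : ℤ) ∣ f.eval a := by
  obtain ⟨p₀, hp₀, hpr₀⟩ := Nat.exists_infinite_primes (N + 1)
  by_cases hc : f.eval 0 = 0
  · exact ⟨p₀, 0, hpr₀, hp₀, by rw [hc]; exact dvd_zero _⟩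
  set c := f.eval 0 with hcdef
  have hM0 : (N.factorial : ℤ) ≠ 0 := by exact_mod_cast N.factorial_ne_zero
  set M : ℤ := (N.factorial : ℤ) with hM
  have hne : ∀ e : ℤ, f - C e ≠ 0 := by
    intro e he
    have h1 : f = C e := sub_eq_zero.1 he
    rw [h1, natDegree_C] at hf
    exact lt_irrefl _ hf
  have hfin : ({y : ℤ | f.eval y = c ∨ f.eval y = -c}).Finite := by
    refine (((f - C c).roots.toFinset ∪ (f - C (-c)).roots.toFinset).finite_toSet).subset ?_
    rintro y (hy | hy)
    · simp only [Finset.coe_union, Set.mem_union, Finset.mem_coe, Multiset.mem_toFinset]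
      left
      rw [mem_roots (hne c)]
      simp [IsRoot, hy]
    · simp only [Finset.coe_union, Set.mem_union, Finset.mem_coe, Multiset.mem_toFinset]
      right
      rw [mem_roots (hne (-c))]
      simp [IsRoot, hy]
  have hinj : Function.Injective (fun x : ℤ => c * M * x) := fun x y h =>
    mul_left_cancel₀ (mul_ne_zero hc hM0) h
  obtain ⟨x, hx⟩ : ∃ x : ℤ, c * M * x ∉ {y : ℤ | f.eval y = c ∨ f.eval y = -c} := by
    by_contra h
    push Not at h
    exact Set.infinite_univ (hfin.preimage hinj.injOn |>.subset fun x _ => h x)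
  have hdvd := sub_dvd_eval_sub (c * M * x) 0 f
  rw [sub_zero, ← hcdef] at hdvd
  obtain ⟨t, ht⟩ := hdvd
  have hg : f.eval (c * M * x) = c * (1 + M * x * t) := by linear_combination ht
  by_cases hg0 : 1 + M * x * t = 0
  · exact ⟨p₀, c * M * x, hpr₀, hp₀, by rw [hg, hg0, mul_zero]; exact dvd_zero _⟩
  have hg1 : (1 + M * x * t).natAbs ≠ 1 := by
    intro h
    rcases Int.natAbs_eq (1 + M * x * t) with h2 | h2
    · rw [h] at h2
      exact hx (Or.inl (by rw [hg, h2]; simp))
    · rw [h] at h2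
      exact hx (Or.inr (by rw [hg, h2]; simp))
  obtain ⟨p, hp, hpd⟩ := Nat.exists_prime_and_dvd hg1
  have hpd' : (p : ℤ) ∣ 1 + M * x * t := Int.natCast_dvd.2 hpd
  refine ⟨p, c * M * x, hp, ?_, by rw [hg]; exact Dvd.dvd.mul_left hpd' c⟩
  by_contra hle
  have h1 : p ∣ N.factorial := (hp.dvd_factorial).2 (by omega)
  have h2 : (p : ℤ) ∣ M := Int.natCast_dvd_natCast.2 h1
  have h3 : (p : ℤ) ∣ 1 := by
    have h4 : (p : ℤ) ∣ M * x * t := Dvd.dvd.mul_right (Dvd.dvd.mul_right h2 x) t
    have h5 := dvd_sub hpd' h4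
    simpa using h5
  have h4 : p ∣ 1 := by exact_mod_cast h3
  exact hp.one_lt.ne' (Nat.dvd_one.1 h4)

/-- a finitely generated ring which maps to a field of characteristic zero maps to a number
field -/
theorem exists_number_field (R K : Type) [CommRing R] (hR : Algebra.FiniteType ℤ R) [Field K]
    [CharZero K] (φ : R →+* K) :
    ∃ (L : Type) (_ : Field L) (_ : Algebra ℚ L) (_ : FiniteDimensional ℚ L),
      Nonempty (R →+* L) := by
  classical
  obtain ⟨s, hs⟩ := hR.out
  let B : Subalgebra ℚ K := Algebra.adjoin ℚ (φ '' (s : Set R))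
  have hB : Algebra.FiniteType ℚ B :=
    (Subalgebra.fg_iff_finiteType _).1 ⟨s.image φ, by simp [B]⟩
  have hmem : ∀ x, φ x ∈ B := by
    let T : Subalgebra ℤ R := (B.restrictScalars ℤ).comap φ.toIntAlgHom
    have hT : Algebra.adjoin ℤ (s : Set R) ≤ T := Algebra.adjoin_le fun x hx =>
      Algebra.subset_adjoin ⟨x, hx, rfl⟩
    intro x
    have hx : x ∈ Algebra.adjoin ℤ (s : Set R) := by rw [hs]; exact Algebra.mem_top
    exact hT hx
  obtain ⟨J, hJ⟩ := Ideal.exists_maximal B
  letI : Field (B ⧸ J) := Ideal.Quotient.field J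
  have h1 : Algebra.FiniteType ℚ (B ⧸ J) :=
    hB.of_surjective (Ideal.Quotient.mkₐ ℚ J) Ideal.Quotient.mk_surjective
  have h2 : FiniteDimensional ℚ (B ⧸ J) := finite_of_finite_type_of_isJacobsonRing ℚ (B ⧸ J)
  exact ⟨B ⧸ J, inferInstance, inferInstance, h2,
    ⟨(Ideal.Quotient.mk J).comp (φ.codRestrict B hmem)⟩⟩

/-- the numerators and denominators in a number field -/
theorem exists_order (L : Type) [Field L] [Algebra ℚ L] [FiniteDimensional ℚ L] :
    ∃ β : L, IsIntegral ℤ β ∧ ∀ z : L, ∃ n : ℤ, n ≠ 0 ∧ n • z ∈ Algebra.adjoin ℤ {β} := by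
  obtain ⟨α, hα⟩ := Field.exists_primitive_element ℚ L
  have halg : IsAlgebraic ℚ α := Algebra.IsAlgebraic.isAlgebraic α
  have halgZ : IsAlgebraic ℤ α := (IsFractionRing.isAlgebraic_iff ℤ ℚ L).2 halg
  obtain ⟨y, hy, hint⟩ := halgZ.exists_integral_multiple
  refine ⟨y • α, hint, fun z => ?_⟩
  have hz : z ∈ Algebra.adjoin ℚ {α} := by
    have h1 : (IntermediateField.adjoin ℚ {α}).toSubalgebra = Algebra.adjoin ℚ {α} :=
      IntermediateField.adjoin_simple_toSubalgebra_of_isAlgebraic halg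
    rw [← h1, hα]
    exact Algebra.mem_top
  have hcast : ∀ (n : ℤ) (w : L), n • w = (n : L) * w := fun n w => zsmul_eq_mul w n
  induction hz using Algebra.adjoin_induction with
  | mem x hx =>
    rw [Set.mem_singleton_iff] at hx
    subst hx
    exact ⟨y, hy, Algebra.subset_adjoin rfl⟩
  | algebraMap r =>
    refine ⟨(r.den : ℤ), by exact_mod_cast r.den_ne_zero, ?_⟩
    have h1 : (r.den : ℤ) • (algebraMap ℚ L r) = algebraMap ℤ L r.num := by
      rw [hcast]
      have h2 := congrArg (algebraMap ℚ L) (Rat.den_mul_eq_num r)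
      rw [map_mul, map_natCast, map_intCast] at h2
      simpa using h2
    rw [h1]
    exact Subalgebra.algebraMap_mem _ _
  | add x w _ _ hx hw =>
    obtain ⟨n, hn, h1⟩ := hx
    obtain ⟨k, hk, h2⟩ := hw
    refine ⟨n * k, mul_ne_zero hn hk, ?_⟩
    have h3 : (n * k) • (x + w) = k • (n • x) + n • (k • w) := by
      rw [smul_add, mul_comm n k, mul_smul, mul_comm k n, mul_smul]
    rw [h3]
    exact add_mem (zsmul_mem h1 k) (zsmul_mem h2 n)
  | mul x w _ _ hx hw =>
    obtain ⟨n, hn, h1⟩ := hx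
    obtain ⟨k, hk, h2⟩ := hw
    refine ⟨n * k, mul_ne_zero hn hk, ?_⟩
    have h3 : (n * k) • (x * w) = (n • x) * (k • w) := by
      rw [hcast, hcast, hcast]
      push_cast
      ring
    rw [h3]
    exact mul_mem h1 h2

/-- a finitely generated ring which maps to a field of characteristic zero maps to `ZMod p` for
arbitrarily large primes `p` -/
theorem exists_split (R K : Type) [CommRing R] (hR : Algebra.FiniteType ℤ R) [Field K]
    [CharZero K] (φ : R →+* K) (N : ℕ) :
    ∃ p : ℕ, p.Prime ∧ N < p ∧ Nonempty (R →+* ZMod p) := by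
  classical
  obtain ⟨L, _, _, _, ⟨ψ⟩⟩ := exists_number_field R K hR φ
  obtain ⟨β, hβ, hden⟩ := exists_order L
  have hcz : CharZero L := algebraRat.charZero L
  obtain ⟨s, hs⟩ := hR.out
  let A := Algebra.adjoin ℤ {β}
  choose den hden0 hdenA using hden
  let n : ℤ := ∏ g ∈ s, den (ψ g)
  have hn0 : n ≠ 0 := Finset.prod_ne_zero_iff.2 fun g _ => hden0 _
  have hnA : ∀ g ∈ s, n • ψ g ∈ A := by
    intro g hg
    have h1 : n = (∏ g' ∈ s.erase g, den (ψ g')) * den (ψ g) := by
      rw [Finset.prod_erase_mul _ _ hg]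
    rw [h1, mul_smul]
    exact zsmul_mem (hdenA _) _
  obtain ⟨p, a, hp, hpN, hpa⟩ := exists_root_mod (minpoly ℤ β) (minpoly.natDegree_pos hβ)
    (max N n.natAbs)
  have hfact : Fact p.Prime := ⟨hp⟩
  refine ⟨p, hp, (le_max_left _ _).trans_lt hpN, ?_⟩
  have hroot : (minpoly ℤ β).eval₂ (Int.castRingHom (ZMod p)) (a : ZMod p) = 0 := by
    have h1 : (minpoly ℤ β).eval₂ (Int.castRingHom (ZMod p)) (Int.castRingHom (ZMod p) a) =
        Int.castRingHom (ZMod p) ((minpoly ℤ β).eval a) := Polynomial.eval₂_at_apply _ _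
    have h2 : (Int.castRingHom (ZMod p)) ((minpoly ℤ β).eval a) = 0 :=
      (ZMod.intCast_zmod_eq_zero_iff_dvd _ _).2 hpa
    rw [h2] at h1
    exact h1
  let χ : A →+* ZMod p := (AdjoinRoot.lift (Int.castRingHom (ZMod p)) (a : ZMod p) hroot).comp
    (minpoly.equivAdjoin hβ).symm.toRingEquiv.toRingHom
  have hχn : χ (n : A) ≠ 0 := by
    rw [map_intCast]
    intro h
    have h1 := (ZMod.intCast_zmod_eq_zero_iff_dvd _ _).1 h
    have h2 : p ∣ n.natAbs := Int.natCast_dvd.1 h1
    have h3 := Nat.le_of_dvd (Int.natAbs_pos.2 hn0) h2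
    exact absurd ((le_max_right N n.natAbs).trans_lt hpN) (by omega)
  let S := Localization.Away (n : A)
  have hAinj : Function.Injective (A.val.toRingHom) := Subtype.val_injective
  have hnu : IsUnit (A.val.toRingHom (n : A)) := by
    rw [map_intCast]
    exact isUnit_iff_ne_zero.2 (by exact_mod_cast hn0)
  have hu : ∀ y : Submonoid.powers (n : A), IsUnit (A.val.toRingHom y) := by
    rintro ⟨_, k, rfl⟩
    show IsUnit (A.val.toRingHom ((n : A) ^ k))
    rw [map_pow]
    exact hnu.pow k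
  let j : S →+* L := IsLocalization.lift (M := Submonoid.powers (n : A)) hu
  let χ' : S →+* ZMod p := IsLocalization.Away.lift (n : A) (isUnit_iff_ne_zero.2 hχn)
  have hj : Function.Injective j := by
    have h1 : Function.Injective (algebraMap A S) := by
      refine IsLocalization.injective (M := Submonoid.powers (n : A)) S ?_
      refine powers_le_nonZeroDivisors_of_noZeroDivisors ?_
      intro h
      rw [h, map_zero] at hnu
      exact not_isUnit_zero hnu
    refine (IsLocalization.lift_injective_iff (M := Submonoid.powers (n : A)) hu).2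
      fun x y => ?_
    exact ⟨fun h => by rw [h1 h], fun h => by rw [hAinj h]⟩
  have hmem : ∀ x, ψ x ∈ j.range := by
    let T : Subalgebra ℤ R := subalgebraOfSubring (j.range.comap ψ)
    have hT : Algebra.adjoin ℤ (s : Set R) ≤ T := by
      refine Algebra.adjoin_le fun g hg => ?_
      show ψ g ∈ j.range
      let u : A := ⟨n • ψ g, hnA g hg⟩
      refine ⟨IsLocalization.mk' S u (⟨(n : A), Submonoid.mem_powers _⟩ :
        Submonoid.powers (n : A)), ?_⟩
      refine (IsLocalization.lift_mk'_spec (M := Submonoid.powers (n : A)) hu _ _ _).2 ?_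
      show n • ψ g = ((n : A) : L) * ψ g
      rw [zsmul_eq_mul]
      simp
    intro x
    have hx : x ∈ Algebra.adjoin ℤ (s : Set R) := by rw [hs]; exact Algebra.mem_top
    exact hT hx
  let e : S ≃+* j.range := RingEquiv.ofBijective j.rangeRestrict
    ⟨fun x y h => hj (congrArg Subtype.val h), j.rangeRestrict_surjective⟩
  exact ⟨χ'.comp ((e.symm : j.range →+* S).comp (ψ.codRestrict j.range hmem))⟩

end Pool.Agent.Lib.P5dcF
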