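import Mathlib
import Pool.Agent.Lib.P5dcF.Mat
import Pool.Agent.Lib.P5dcF.Chr
import Pool.Agent.Lib.P5dcF.Split

/-!
# Transfer to finite fields, and limits (MP_5dc868_al)
-/

namespace Pool.Agent.Lib.P5dcF

open Matrix

/-- a finitely generated subring which contains given elements -/
theorem exists_subring (K : Type) [Field K] (S : Set K) (hS : S.Finite) :
    ∃ (R : Type) (_ : CommRing R) (φ : R →+* K), Algebra.FiniteType ℤ R ∧
      Function.Injective φ ∧ ∀ s ∈ S, ∃ r, φ r = s := by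
  let R := Algebra.adjoin ℤ S
  have hR : Algebra.FiniteType ℤ R :=
    (Subalgebra.fg_iff_finiteType _).1 ⟨hS.toFinset, by simp [R]⟩
  exact ⟨R, inferInstance, R.val.toRingHom, finiteType_canon R _ hR,
    Subtype.val_injective, fun s hs => ⟨⟨s, Algebra.subset_adjoin hs⟩, rfl⟩⟩

section pull
variable {m : ℕ} {R K : Type} [CommRing R] [CommRing K] {φ : R →+* K} {J J' : Type} [Fintype J]
  [DecidableEq J] [Fintype J'] [DecidableEq J']

omit [Fintype J] [DecidableEq J] [Fintype J'] [DecidableEq J'] in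
theorem exists_mat (H : Matrix J J' K) (h : ∀ x y, ∃ r, φ r = H x y) :
    ∃ G : Matrix J J' R, G.map φ = H := by
  choose g hg using h
  exact ⟨Matrix.of g, by
    ext x y
    exact hg x y⟩

theorem Ex.of_map (hφ : Function.Injective φ) {c : SC m R} {ρ : RP m J R} {σ : RP m J' R}
    (H : Matrix (J' × J) (Fin (m + 1) × J' × J) R)
    (H' : Matrix (Fin (m + 1) × J' × J) (Fin (m + 1) × Fin (m + 1) × J' × J) R)
    (h : M1 (mapR φ ρ) (mapR φ σ) * H.map φ +
      H'.map φ * M2 (mapC φ c) (mapR φ ρ) (mapR φ σ) = 1) : Ex c ρ σ := by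
  refine ⟨H, H', ?_⟩
  rw [M1_map, M2_map, ← Matrix.map_mul, ← Matrix.map_mul, ← Matrix.map_add _ (map_add φ)] at h
  apply Matrix.map_injective hφ
  show (M1 ρ σ * H + H' * M2 c ρ σ).map φ = (1 : Matrix _ _ R).map φ
  rw [h]
  exact (Matrix.map_one φ (map_zero φ) (map_one φ)).symm

theorem IsRep.of_map (φ : R →+* K) (hφ : Function.Injective φ) {c : SC m R} {ρ : RP m J R}
    (h : IsRep (mapC φ c) (mapR φ ρ)) : IsRep c ρ := by
  refine ⟨?_, fun k l => ?_⟩
  · ext x y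
    apply hφ
    have := congrFun (congrFun h.1 x) y
    rw [← Matrix.map_one φ (map_zero _) (map_one _)] at this
    exact this
  · ext x y
    apply hφ
    have := congrFun (congrFun (h.2 k l) x) y
    simpa [mapC, mapR, Matrix.mul_apply, Matrix.sum_apply, map_sum] using this

theorem NP.of_map (hφ : Function.Injective φ) {c : SC m R} {ρ : RP m J R}
    (ξ : Fin (m + 1) × (Fin m × J) × J → R)
    (h1 : (fun x => φ (ξ x)) ᵥ* M1 (mapR φ ρ) (om (mapC φ c) (mapR φ ρ)) = 0)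
    (h2 : (fun x => φ (ξ x)) ⬝ᵥ del m J K = 1) : NP c ρ := by
  refine ⟨ξ, ?_, hφ ?_⟩
  · rw [om_map, M1_map] at h1
    funext y
    apply hφ
    have h3 := congrFun h1 y
    simpa [Matrix.vecMul, dotProduct, map_sum] using h3
  · rw [del_map φ] at h2
    simpa [dotProduct, map_sum] using h2

end pull

/-- a construction of a module from the structure constants -/
def Natural {m : ℕ} {J : Type} (g : ∀ (S : Type) [CommRing S], SC m S → RP m J S) : Prop :=
  ∀ (S S' : Type) [CommRing S] [CommRing S'] (φ : S →+* S') (c : SC m S),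
    g S' (mapC φ c) = mapR φ (g S c)

/-- from an arbitrary field to the fields which receive a finitely generated ring -/
theorem spread_ring {K : Type} [Field K] {m : ℕ} {J : Type} [Fintype J] [DecidableEq J]
    (c : SC m K) (ρ : RP m J K) (h : IsAlg c) (hR : IsRep c ρ) (N : ℕ)
    (hE₀ : ∀ i, i < N → Ex c (omI c ρ i) ρ) (hE : ∀ i, i < N → Ex c (omI c ρ i) (lam c))
    (hN : NP c ρ) :
    ∃ (R : Type) (_ : CommRing R) (φ : R →+* K), Algebra.FiniteType ℤ R ∧
      Function.Injective φ ∧ ∀ (F : Type) [Field F] (_ : R →+* F),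
      ∃ (c' : SC m F) (ρ' : RP m J F),
        IsAlg c' ∧ IsRep c' ρ' ∧ (∀ i, i < N → Ex c' (omI c' ρ' i) ρ') ∧
        (∀ i, i < N → Ex c' (omI c' ρ' i) (lam c')) ∧ NP c' ρ' ∧
        ∀ (g : ∀ (S : Type) [CommRing S], SC m S → RP m J S), Natural g → ρ = g K c →
          ρ' = g F c' := by
  classical
  choose H₀ H₀' hH₀ using hE₀
  choose H H' hH using hE
  obtain ⟨ξ, hξ1, hξ2⟩ := hN
  let S : Set K := Set.range (fun x : Fin (m + 1) × Fin (m + 1) × Fin (m + 1) => c x.1 x.2.1 x.2.2) ∪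
    Set.range (fun x : Fin (m + 1) × J × J => ρ x.1 x.2.1 x.2.2) ∪
    Set.range ξ ∪ ((⋃ i : Fin N, (Set.range fun x : (Fin (m + 1) × Jt m J i) ×
        (Fin (m + 1) × Fin (m + 1) × Jt m J i) => H i i.2 x.1 x.2) ∪
      Set.range fun x : (Fin (m + 1) × Fin (m + 1) × Jt m J i) ×
        (Fin (m + 1) × Fin (m + 1) × Fin (m + 1) × Jt m J i) => H' i i.2 x.1 x.2) ∪
      ⋃ i : Fin N, (Set.range fun x : (J × Jt m J i) ×
        (Fin (m + 1) × J × Jt m J i) => H₀ i i.2 x.1 x.2) ∪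
      Set.range fun x : (Fin (m + 1) × J × Jt m J i) ×
        (Fin (m + 1) × Fin (m + 1) × J × Jt m J i) => H₀' i i.2 x.1 x.2)
  have hS : S.Finite := by
    refine (((Set.finite_range _).union (Set.finite_range _)).union (Set.finite_range _)).union ?_
    exact (Set.finite_iUnion fun i => (Set.finite_range _).union (Set.finite_range _)).union
      (Set.finite_iUnion fun i => (Set.finite_range _).union (Set.finite_range _))
  obtain ⟨R, _, φ, hfin, hφ, hr⟩ := exists_subring K S hS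
  refine ⟨R, inferInstance, φ, hfin, hφ, fun F _ ψ => ?_⟩
  have hc : ∀ k l r, ∃ x, φ x = c k l r := fun k l r =>
    hr _ (Or.inl (Or.inl (Or.inl ⟨(k, l, r), rfl⟩)))
  choose cR hcR using hc
  have hcR' : mapC φ cR = c := by
    funext k l r
    exact hcR k l r
  subst hcR'
  have hρ : ∀ k, ∃ G : Matrix J J R, G.map φ = ρ k := fun k =>
    exists_mat (φ := φ) (ρ k) fun x y => hr _ (Or.inl (Or.inl (Or.inr ⟨(k, x, y), rfl⟩)))
  choose ρR hρR using hρ
  have hρR' : mapR φ ρR = ρ := funext hρR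
  subst hρR'
  have hA : IsAlg cR := IsAlg.of_map φ hφ h
  have hB : IsRep cR ρR := IsRep.of_map φ hφ hR
  have hξ : ∀ x, ∃ r, φ r = ξ x := fun x => hr _ (Or.inl (Or.inr ⟨x, rfl⟩))
  choose ξR hξR using hξ
  have hξR' : (fun x => φ (ξR x)) = ξ := funext hξR
  refine ⟨mapC ψ cR, mapR ψ ρR, hA.map ψ, hB.map ψ, fun i hi => ?_,
    fun i hi => ?_, ?_, fun g hg hρg => ?_⟩
  · obtain ⟨G, hG⟩ := exists_mat (φ := φ) (H₀ i hi) fun x y => hr _ (Or.inr (Or.inr
      (Set.mem_iUnion.2 ⟨⟨i, hi⟩, Or.inl ⟨(x, y), rfl⟩⟩)))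
    obtain ⟨G', hG'⟩ := exists_mat (φ := φ) (H₀' i hi) fun x y => hr _ (Or.inr (Or.inr
      (Set.mem_iUnion.2 ⟨⟨i, hi⟩, Or.inr ⟨(x, y), rfl⟩⟩)))
    have h1 : Ex cR (omI cR ρR i) ρR := by
      refine Ex.of_map hφ G G' ?_
      rw [hG, hG', ← omI_map]
      exact hH₀ i hi
    have h2 := h1.map ψ
    rwa [← omI_map] at h2
  · obtain ⟨G, hG⟩ := exists_mat (φ := φ) (H i hi) fun x y => hr _ (Or.inr (Or.inl
      (Set.mem_iUnion.2 ⟨⟨i, hi⟩, Or.inl ⟨(x, y), rfl⟩⟩)))
    obtain ⟨G', hG'⟩ := exists_mat (φ := φ) (H' i hi) fun x y => hr _ (Or.inr (Or.inl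
      (Set.mem_iUnion.2 ⟨⟨i, hi⟩, Or.inr ⟨(x, y), rfl⟩⟩)))
    have h1 : Ex cR (omI cR ρR i) (lam cR) := by
      refine Ex.of_map hφ G G' ?_
      rw [hG, hG', ← omI_map]
      exact hH i hi
    have h2 := h1.map ψ
    rwa [← omI_map] at h2
  · have h1 : NP cR ρR := by
      refine NP.of_map hφ ξR ?_ ?_
      · rw [hξR']
        exact hξ1
      · rw [hξR']
        exact hξ2
    exact h1.map ψ
  · have h1 : ρR = g R cR := by
      rw [hg R K φ cR] at hρg
      funext k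
      exact Matrix.map_injective hφ (congrFun hρg k)
    rw [h1, hg R F ψ cR]

/-- from an arbitrary field to a finite field -/
theorem spread {K : Type} [Field K] (r : ℕ) [CharP K r] {m : ℕ} {J : Type} [Fintype J]
    [DecidableEq J] (c : SC m K)
    (ρ : RP m J K) (h : IsAlg c) (hR : IsRep c ρ) (N : ℕ)
    (hE₀ : ∀ i, i < N → Ex c (omI c ρ i) ρ) (hE : ∀ i, i < N → Ex c (omI c ρ i) (lam c))
    (hN : NP c ρ) :
    ∃ N' : ℕ, ∀ q : ℕ, q.Prime → Near r N' q →
      ∃ (F : Type) (_ : Field F) (_ : Finite F) (_ : CharP F q) (c' : SC m F) (ρ' : RP m J F),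
        IsAlg c' ∧ IsRep c' ρ' ∧ (∀ i, i < N → Ex c' (omI c' ρ' i) ρ') ∧
        (∀ i, i < N → Ex c' (omI c' ρ' i) (lam c')) ∧ NP c' ρ' ∧
        ∀ (g : ∀ (S : Type) [CommRing S], SC m S → RP m J S), Natural g → ρ = g K c →
          ρ' = g F c' := by
  obtain ⟨R, _, φ, hfin, hφ, hr⟩ := spread_ring c ρ h hR N hE₀ hE hN
  obtain ⟨N', hN'⟩ := exists_finite_residue R K hfin r φ hφ
  refine ⟨N', fun q hq hn => ?_⟩
  obtain ⟨F, _, hF, hFq, ⟨ψ⟩⟩ := hN' q hq hn
  obtain ⟨c', ρ', h1⟩ := hr F ψ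
  exact ⟨F, inferInstance, hF, hFq, c', ρ', h1⟩

/-- from a field of characteristic zero to a prime field -/
theorem spread_prime {K : Type} [Field K] [CharZero K] {m : ℕ} {J : Type} [Fintype J]
    [DecidableEq J] (c : SC m K)
    (ρ : RP m J K) (h : IsAlg c) (hR : IsRep c ρ) (N : ℕ)
    (hE₀ : ∀ i, i < N → Ex c (omI c ρ i) ρ) (hE : ∀ i, i < N → Ex c (omI c ρ i) (lam c))
    (hN : NP c ρ) (N' : ℕ) :
    ∃ (q : ℕ) (_ : Fact q.Prime), N' < q ∧ ∃ (c' : SC m (ZMod q)) (ρ' : RP m J (ZMod q)),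
        IsAlg c' ∧ IsRep c' ρ' ∧ (∀ i, i < N → Ex c' (omI c' ρ' i) ρ') ∧
        (∀ i, i < N → Ex c' (omI c' ρ' i) (lam c')) ∧ NP c' ρ' ∧
        ∀ (g : ∀ (S : Type) [CommRing S], SC m S → RP m J S), Natural g → ρ = g K c →
          ρ' = g (ZMod q) c' := by
  obtain ⟨R, _, φ, hfin, hφ, hr⟩ := spread_ring c ρ h hR N hE₀ hE hN
  obtain ⟨q, hq, hn, ⟨ψ⟩⟩ := exists_split R K hfin φ N'
  have hfact : Fact q.Prime := ⟨hq⟩
  exact ⟨q, hfact, hn, hr (ZMod q) ψ⟩

section joint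
variable {m : ℕ} {R : Type} [CommRing R] {ι : Type} {S : ι → Type} [∀ n, CommRing (S n)]
  (φ : ∀ n, R →+* S n) (hφ : ∀ x y : R, (∀ n, φ n x = φ n y) → x = y) {J : Type} [Fintype J]
  [DecidableEq J]

include hφ

theorem IsAlg.of_maps {c : SC m R} (h : ∀ n, IsAlg (mapC (φ n) c)) : IsAlg c := by
  refine ⟨fun l r => hφ _ _ fun n => ?_, fun l r => hφ _ _ fun n => ?_,
    fun i j k s => hφ _ _ fun n => ?_⟩
  · have := (h n).1 l r
    simp only [mapC] at this
    rw [this]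
    split_ifs <;> simp
  · have := (h n).2.1 l r
    simp only [mapC] at this
    rw [this]
    split_ifs <;> simp
  · have := (h n).2.2 i j k s
    simpa [mapC, map_sum] using this

theorem IsRep.of_maps {c : SC m R} {ρ : RP m J R}
    (h : ∀ n, IsRep (mapC (φ n) c) (mapR (φ n) ρ)) : IsRep c ρ := by
  refine ⟨?_, fun k l => ?_⟩
  · ext x y
    refine hφ _ _ fun n => ?_
    have := congrFun (congrFun (h n).1 x) y
    rw [← Matrix.map_one (φ n) (map_zero _) (map_one _)] at this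
    exact this
  · ext x y
    refine hφ _ _ fun n => ?_
    have := congrFun (congrFun ((h n).2 k l) x) y
    simpa [mapC, mapR, Matrix.mul_apply, Matrix.sum_apply, map_sum] using this

theorem NP.of_maps {c : SC m R} {ρ : RP m J R} (ξ : Fin (m + 1) × (Fin m × J) × J → R)
    (h1 : ∀ n, (fun x => φ n (ξ x)) ᵥ* M1 (mapR (φ n) ρ) (om (mapC (φ n) c) (mapR (φ n) ρ)) = 0)
    (h2 : ∀ n, (fun x => φ n (ξ x)) ⬝ᵥ del m J (S n) = 1) : NP c ρ := by
  refine ⟨ξ, ?_, hφ _ _ fun n => ?_⟩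
  · funext y
    refine hφ _ _ fun n => ?_
    have h3 := h1 n
    rw [om_map, M1_map] at h3
    have h4 := congrFun h3 y
    simpa [Matrix.vecMul, dotProduct, map_sum] using h4
  · have h3 := h2 n
    rw [del_map (φ n)] at h3
    simpa [dotProduct, map_sum] using h3

end joint

section limit
variable {m : ℕ} {J J' : Type} [Fintype J] [DecidableEq J] [Fintype J'] [DecidableEq J']

theorem exists_limit (K : ℕ → Type) [∀ n, Field (K n)] :
    ∃ (L : Type) (_ : Field L) (φ : (∀ n, K n) →+* L),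
      ∀ (x : ∀ n, K n) (N : ℕ), (∀ n, N < n → x n = 0) → φ x = 0 := by
  let R := ∀ n, K n
  let I₀ : Ideal R :=
    { carrier := {x | ∃ N, ∀ n, N < n → x n = 0}
      add_mem' := by
        rintro x y ⟨N, hx⟩ ⟨N', hy⟩
        exact ⟨max N N', fun n hn => by
          rw [Pi.add_apply, hx n (lt_of_le_of_lt (le_max_left _ _) hn),
            hy n (lt_of_le_of_lt (le_max_right _ _) hn), add_zero]⟩
      zero_mem' := ⟨0, fun n _ => rfl⟩
      smul_mem' := by
        rintro a x ⟨N, hx⟩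
        exact ⟨N, fun n hn => by
          show a n * x n = 0
          rw [hx n hn, mul_zero]⟩ }
  have hI₀ : I₀ ≠ ⊤ := by
    intro h
    have : (1 : R) ∈ I₀ := by
      rw [h]
      trivial
    obtain ⟨N, hN⟩ := this
    exact one_ne_zero (hN (N + 1) (Nat.lt_succ_self N))
  obtain ⟨I, hI, hle⟩ := Ideal.exists_le_maximal I₀ hI₀
  letI : Field (R ⧸ I) := Ideal.Quotient.field I
  exact ⟨R ⧸ I, inferInstance, Ideal.Quotient.mk I, fun x N h =>
    Ideal.Quotient.eq_zero_iff_mem.2 (hle ⟨N, h⟩)⟩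

theorem Ex.lim {K : ℕ → Type} [∀ n, Field (K n)] {L : Type} [Field L] (φ : (∀ n, K n) →+* L)
    (hφ : ∀ (x : ∀ n, K n) (N : ℕ), (∀ n, N < n → x n = 0) → φ x = 0) (c : SC m (∀ n, K n))
    (ρ : RP m J (∀ n, K n)) (σ : RP m J' (∀ n, K n)) (N : ℕ)
    (h : ∀ n, N < n → Ex (mapC (Pi.evalRingHom K n) c) (mapR (Pi.evalRingHom K n) ρ)
      (mapR (Pi.evalRingHom K n) σ)) :
    Ex (mapC φ c) (mapR φ ρ) (mapR φ σ) := by
  classical
  have h' : ∀ n, ∃ (H : Matrix (J' × J) (Fin (m + 1) × J' × J) (K n))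
      (H' : Matrix (Fin (m + 1) × J' × J) (Fin (m + 1) × Fin (m + 1) × J' × J) (K n)), N < n →
      M1 (mapR (Pi.evalRingHom K n) ρ) (mapR (Pi.evalRingHom K n) σ) * H +
        H' * M2 (mapC (Pi.evalRingHom K n) c) (mapR (Pi.evalRingHom K n) ρ)
          (mapR (Pi.evalRingHom K n) σ) = 1 := by
    intro n
    by_cases hn : N < n
    · obtain ⟨H, H', h⟩ := h n hn
      exact ⟨H, H', fun _ => h⟩
    · exact ⟨0, 0, fun h => absurd h hn⟩
  choose H H' hH using h'
  let HR : Matrix (J' × J) (Fin (m + 1) × J' × J) (∀ n, K n) := Matrix.of fun x y n => H n x y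
  let HR' : Matrix (Fin (m + 1) × J' × J) (Fin (m + 1) × Fin (m + 1) × J' × J) (∀ n, K n) :=
    Matrix.of fun x y n => H' n x y
  refine ⟨HR.map φ, HR'.map φ, ?_⟩
  rw [M1_map, M2_map, ← Matrix.map_mul, ← Matrix.map_mul, ← Matrix.map_add _ (map_add _),
    ← Matrix.map_one φ (map_zero _) (map_one _)]
  ext x y
  rw [Matrix.map_apply, Matrix.map_apply, ← sub_eq_zero, ← map_sub]
  refine hφ _ N fun n hn => ?_
  have h1 : (M1 ρ σ * HR + HR' * M2 c ρ σ).map (Pi.evalRingHom K n) = 1 := by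
    rw [Matrix.map_add _ (map_add _), Matrix.map_mul, Matrix.map_mul, ← M1_map, ← M2_map]
    exact hH n hn
  have h2 := congrFun (congrFun h1 x) y
  have h3 : (M1 ρ σ * HR + HR' * M2 c ρ σ) x y n = (1 : Matrix _ _ (K n)) x y := h2
  rw [Pi.sub_apply, h3]
  by_cases hxy : x = y
  · subst hxy
    simp
  · simp [Matrix.one_apply_ne hxy]

/-- a limit of algebras and modules -/
theorem limit (K : ℕ → Type) [∀ n, Field (K n)] {L : Type} [Field L] (φ : (∀ n, K n) →+* L)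
    (hφ : ∀ (x : ∀ n, K n) (N : ℕ), (∀ n, N < n → x n = 0) → φ x = 0) (c : ∀ n, SC m (K n)) (ρ : ∀ n, RP m J (K n))
    (hA : ∀ n, IsAlg (c n)) (hR : ∀ n, IsRep (c n) (ρ n))
    (hE : ∀ n i, i < n → Ex (c n) (omI (c n) (ρ n) i) (ρ n))
    (hE' : ∀ n i, i < n → Ex (c n) (omI (c n) (ρ n) i) (lam (c n)))
    (hN : ∀ n, NP (c n) (ρ n)) :
    ∃ (c' : SC m L) (ρ' : RP m J L), IsAlg c' ∧ IsRep c' ρ' ∧
      (∀ i, Ex c' (omI c' ρ' i) ρ') ∧ (∀ i, Ex c' (omI c' ρ' i) (lam c')) ∧ NP c' ρ' ∧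
      ∀ (g : ∀ (S : Type) [CommRing S], SC m S → RP m J S), Natural g →
        (∀ n, ρ n = g (K n) (c n)) → ρ' = g L c' := by
  classical
  let cR : SC m (∀ n, K n) := fun k l r n => c n k l r
  let ρR : RP m J (∀ n, K n) := fun k => Matrix.of fun x y n => ρ n k x y
  have hcn : ∀ n, mapC (Pi.evalRingHom K n) cR = c n := fun n => rfl
  have hρn : ∀ n, mapR (Pi.evalRingHom K n) ρR = ρ n := fun n => rfl
  have hlamn : ∀ n, mapR (Pi.evalRingHom K n) (lam cR) = lam (c n) := fun n => rfl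
  have homn : ∀ n i, mapR (Pi.evalRingHom K n) (omI cR ρR i) = omI (c n) (ρ n) i := fun n i => by
    rw [← omI_map]
    rfl
  have hev : ∀ x y : (∀ n, K n), (∀ n, Pi.evalRingHom K n x = Pi.evalRingHom K n y) → x = y :=
    fun x y h => funext h
  have hAR : IsAlg cR := IsAlg.of_maps (Pi.evalRingHom K) hev hA
  have hRR : IsRep cR ρR := IsRep.of_maps (Pi.evalRingHom K) hev hR
  have hNR : NP cR ρR := by
    choose ξ h1 h2 using hN
    exact NP.of_maps (Pi.evalRingHom K) hev (fun x n => ξ n x) h1 h2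
  refine ⟨mapC φ cR, mapR φ ρR,
    hAR.map _, hRR.map _, fun i => ?_, fun i => ?_, hNR.map _, fun g hg hρg => ?_⟩
  · rw [omI_map]
    refine Ex.lim φ hφ cR (omI cR ρR i) ρR i fun n hn => ?_
    rw [hcn, homn, hρn]
    exact hE n i hn
  · rw [omI_map, lam_map]
    refine Ex.lim φ hφ cR (omI cR ρR i) (lam cR) i fun n hn => ?_
    rw [hcn, homn, hlamn]
    exact hE' n i hn
  · have h1 : ρR = g (∀ n, K n) cR := by
      funext k
      ext x y n
      have h2 := hg (∀ n, K n) (K n) (Pi.evalRingHom K n) cR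
      rw [hcn, ← hρg] at h2
      exact congrFun (congrFun (congrFun h2 k) x) y
    rw [h1, hg]

end limit

end Pool.Agent.Lib.P5dcF
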