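import Mathlib

/-!
# Fields of infinite transcendence degree (MP_5dc868_al)
-/

namespace Pool.Agent.Lib.P5dcF

open Cardinal

/-- countable fields of the same characteristic embed in `Ω` -/
def Univ (Ω : Type) [Field Ω] : Prop :=
  ∀ (K₀ : Type) [Field K₀] [Countable K₀], ringChar K₀ = ringChar Ω → Nonempty (K₀ →+* Ω)

/-- homomorphisms of the prime field -/
theorem exists_prime_hom (F K₀ : Type) [Field F] [Field K₀] (h : ringChar K₀ = ringChar F) :
    Nonempty ((⊥ : Subfield F) →+* K₀) := by
  have aux : ∀ (P : Type) [Field P] [Algebra P F] (_ : P →+* K₀)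
      (_ : (⊥ : Subfield F) = (algebraMap P F).fieldRange),
      Nonempty ((⊥ : Subfield F) →+* K₀) := by
    intro P _ _ ψ hP
    have hb : Function.Bijective (algebraMap P F).rangeRestrictField :=
      ⟨(algebraMap P F).rangeRestrictField.injective, fun x => by
        obtain ⟨y, hy⟩ := x.2
        exact ⟨y, Subtype.ext hy⟩⟩
    let e := RingEquiv.ofBijective _ hb
    exact ⟨ψ.comp ((e.symm : _ →+* P).comp (Subfield.inclusion hP.le))⟩
  obtain hr | hr := CharP.char_is_prime_or_zero F (ringChar F)
  · have : Fact (ringChar F).Prime := ⟨hr⟩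
    letI : Algebra (ZMod (ringChar F)) F := ZMod.algebra F (ringChar F)
    have h1 : CharP K₀ (ringChar F) := by
      rw [← h]
      exact ringChar.charP K₀
    exact aux (ZMod (ringChar F)) (ZMod.castHom (dvd_refl _) K₀)
      (Subfield.bot_eq_of_zMod_algebra (ringChar F))
  · have h0 : CharP F 0 := by
      have := ringChar.charP F
      rwa [hr] at this
    have h0' : CharP K₀ 0 := by
      have := ringChar.charP K₀
      rwa [h, hr] at this
    have h1 : CharZero F := CharP.charP_to_charZero F
    have h2 : CharZero K₀ := CharP.charP_to_charZero K₀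
    exact aux ℚ (algebraMap ℚ K₀) Subfield.bot_eq_of_charZero

theorem exists_hom (P K₀ Ω : Type) [Field P] [Field K₀] [Field Ω] [Algebra P K₀] [Algebra P Ω]
    [Countable K₀] [IsAlgClosed Ω] (h : ℵ₀ ≤ Algebra.trdeg P Ω) : Nonempty (K₀ →+* Ω) := by
  obtain ⟨s, hs⟩ := exists_isTranscendenceBasis P K₀
  obtain ⟨t, ht⟩ := exists_isTranscendenceBasis P Ω
  have h1 : #s ≤ #t := by
    rw [ht.cardinalMk_eq_trdeg]
    exact (Cardinal.mk_le_aleph0).trans h
  obtain ⟨f⟩ := (Cardinal.le_def s t).1 h1
  have hx : AlgebraicIndependent P (fun i : s => (f i : Ω)) := ht.1.comp f f.injective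
  let E := IntermediateField.adjoin P (Set.range ((↑) : s → K₀))
  let χ : E →ₐ[P] Ω := (IntermediateField.adjoin P (Set.range fun i : s => (f i : Ω))).val.comp
    (hs.1.aevalEquivField.symm.trans hx.aevalEquivField).toAlgHom
  letI : Algebra E Ω := χ.toRingHom.toAlgebra
  haveI : Algebra.IsAlgebraic E K₀ := hs.isAlgebraic_field
  exact ⟨(IsAlgClosed.lift : K₀ →ₐ[E] Ω).toRingHom⟩

/-- algebraically closed extensions of a field of infinite transcendence degree -/
theorem univ_alg {F Ω : Type} [Field F] [Field Ω] [IsAlgClosed Ω] [Algebra F Ω]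
    (h : ¬ FinTrdeg (⊥ : Subfield F) F) : Univ Ω := by
  intro K₀ _ _ hK
  have hch : ringChar Ω = ringChar F := by
    have := charP_of_injective_ringHom (algebraMap F Ω).injective (ringChar F)
    exact ringChar.eq Ω (ringChar F)
  obtain ⟨ψ⟩ := exists_prime_hom F K₀ (hK.trans hch)
  letI : Algebra (⊥ : Subfield F) K₀ := ψ.toAlgebra
  letI : Algebra (⊥ : Subfield F) Ω := ((algebraMap F Ω).comp (⊥ : Subfield F).subtype).toAlgebra
  let g : F →ₐ[(⊥ : Subfield F)] Ω := { algebraMap F Ω with commutes' := fun _ => rfl }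
  refine exists_hom (⊥ : Subfield F) K₀ Ω ?_
  rw [finTrdeg_iff_trdeg, not_lt] at h
  exact h.trans (trdeg_le_of_injective g (algebraMap F Ω).injective)

theorem countable_bot (K : Type) [Field K] : Countable (⊥ : Subfield K) := by
  rw [← Cardinal.mk_le_aleph0_iff, ← Subfield.closure_empty]
  refine (Subfield.cardinalMk_closure_le_max ∅).trans (max_le ?_ le_rfl)
  simp

theorem not_finTrdeg (K : Type) [Field K] [Uncountable K] : ¬ FinTrdeg (⊥ : Subfield K) K := by
  intro h
  rw [finTrdeg_iff_trdeg] at h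
  obtain ⟨s, hs⟩ := exists_isTranscendenceBasis (⊥ : Subfield K) K
  rw [← hs.cardinalMk_eq_trdeg] at h
  have hc := countable_bot K
  let E := IntermediateField.adjoin (⊥ : Subfield K) (Set.range ((↑) : s → K))
  have h1 : #E ≤ ℵ₀ := by
    refine (IntermediateField.cardinalMk_adjoin_le _ _).trans (max_le (max_le ?_ ?_) le_rfl)
    · exact Cardinal.mk_le_aleph0_iff.2 hc
    · exact Cardinal.mk_range_le.trans h.le
  haveI : Algebra.IsAlgebraic E K := hs.isAlgebraic_field
  have h2 := (Algebra.IsAlgebraic.cardinalMk_le_max E K).trans (max_le h1 le_rfl)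
  exact not_countable (α := K) (Cardinal.mk_le_aleph0_iff.1 h2)

end Pool.Agent.Lib.P5dcF
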