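import Mathlib
import Pool.Agent.Lib.P5dcF.Tr
import Pool.Agent.Lib.P5dcF.Univ

/-!
# Descent of certificates and universal fields (MP_5dc868_al)
-/

namespace Pool.Agent.Lib.P5dcF

open Matrix Cardinal

section descend
variable {K₀ K : Type} [Field K₀] [Field K] (φ : K₀ →+* K)

theorem exists_retraction : ∃ l : K →+ K₀, ∀ a b, l (φ a * b) = a * l b ∧ l 1 = 1 := by
  letI := φ.toAlgebra
  have hinj : LinearMap.ker (Algebra.linearMap K₀ K) = ⊥ := by
    rw [LinearMap.ker_eq_bot]
    exact φ.injective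
  obtain ⟨l, hl⟩ := LinearMap.exists_leftInverse_of_injective _ hinj
  refine ⟨l.toAddMonoidHom, fun a b => ⟨?_, ?_⟩⟩
  · show l (φ a * b) = a * l b
    have h1 : φ a * b = a • b := rfl
    rw [h1, map_smul, smul_eq_mul]
  · have h1 := LinearMap.congr_fun hl 1
    have h2 : l (algebraMap K₀ K 1) = 1 := h1
    rw [map_one] at h2
    exact h2

variable {m : ℕ} {J J' : Type} [Fintype J] [DecidableEq J] [Fintype J'] [DecidableEq J']

theorem Ex.descend {c : SC m K₀} {ρ : RP m J K₀} {σ : RP m J' K₀}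
    (h : Ex (mapC φ c) (mapR φ ρ) (mapR φ σ)) : Ex c ρ σ := by
  obtain ⟨H, H', h⟩ := h
  obtain ⟨l, hl⟩ := exists_retraction φ
  have hl1 : ∀ a b, l (φ a * b) = a * l b := fun a b => (hl a b).1
  have hl2 : ∀ a b, l (b * φ a) = l b * a := fun a b => by rw [mul_comm, hl1, mul_comm]
  refine ⟨H.map l, H'.map l, ?_⟩
  rw [M1_map, M2_map] at h
  ext x y
  have h1 := congrArg l (congrFun (congrFun h x) y)
  rw [Matrix.add_apply, map_add, Matrix.mul_apply, Matrix.mul_apply, map_sum, map_sum] at h1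
  simp only [Matrix.map_apply, hl1, hl2] at h1
  rw [Matrix.add_apply, Matrix.mul_apply, Matrix.mul_apply]
  simp only [Matrix.map_apply]
  rw [h1]
  by_cases hxy : x = y
  · subst hxy
    simp [(hl 1 1).2]
  · simp [Matrix.one_apply_ne hxy]

theorem NP.descend {c : SC m K₀} {ρ : RP m J K₀} (h : NP (mapC φ c) (mapR φ ρ)) : NP c ρ := by
  obtain ⟨ξ, h1, h2⟩ := h
  obtain ⟨l, hl⟩ := exists_retraction φ
  have hl2 : ∀ a b, l (b * φ a) = l b * a := fun a b => by rw [mul_comm, (hl a b).1, mul_comm]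
  refine ⟨fun x => l (ξ x), ?_, ?_⟩
  · rw [om_map, M1_map] at h1
    funext y
    have h3 := congrArg l (congrFun h1 y)
    rw [Pi.zero_apply, map_zero] at h3
    rw [Pi.zero_apply, ← h3]
    show ∑ x, l (ξ x) * M1 ρ (om c ρ) x y = l (∑ x, ξ x * φ (M1 ρ (om c ρ) x y))
    rw [map_sum]
    exact Finset.sum_congr rfl fun x _ => (hl2 _ _).symm
  · rw [del_map φ] at h2
    have h3 := congrArg l h2
    rw [(hl 1 1).2] at h3
    rw [← h3]
    show ∑ x, l (ξ x) * del m J K₀ x = l (∑ x, ξ x * φ (del m J K₀ x))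
    rw [map_sum]
    exact Finset.sum_congr rfl fun x _ => (hl2 _ _).symm

end descend

theorem exists_countable (K : Type) [Field K] (S : Set K) (hS : S.Countable) :
    ∃ (K₀ : Type) (_ : Field K₀) (_ : Countable K₀) (φ : K₀ →+* K), ∀ s ∈ S, ∃ r, φ r = s := by
  have hcount : Countable (Subfield.closure S) := by
    rw [← Cardinal.mk_le_aleph0_iff]
    refine (Subfield.cardinalMk_closure_le_max S).trans (max_le ?_ le_rfl)
    exact Cardinal.mk_le_aleph0_iff.2 hS
  exact ⟨Subfield.closure S, inferInstance, hcount, (Subfield.closure S).subtype,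
    fun s hs => ⟨⟨s, Subfield.subset_closure hs⟩, rfl⟩⟩

/-- descent to a countable field and embedding in a universal field -/
theorem embed {K : Type} [Field K] {m : ℕ} {J : Type} [Fintype J] [DecidableEq J] (c : SC m K)
    (ρ : RP m J K) (h : IsAlg c) (hR : IsRep c ρ) (hE₀ : ∀ i, Ex c (omI c ρ i) ρ)
    (hE : ∀ i, Ex c (omI c ρ i) (lam c)) (hN : NP c ρ) (Ω : Type) [Field Ω] (hΩ : Univ Ω)
    (hch : ringChar K = ringChar Ω) :
    ∃ (c' : SC m Ω) (ρ' : RP m J Ω), IsAlg c' ∧ IsRep c' ρ' ∧ (∀ i, Ex c' (omI c' ρ' i) ρ') ∧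
      (∀ i, Ex c' (omI c' ρ' i) (lam c')) ∧ NP c' ρ' ∧
      ∀ (g : ∀ (S : Type) [CommRing S], SC m S → RP m J S), Natural g → ρ = g K c →
        ρ' = g Ω c' := by
  classical
  let S : Set K := Set.range (fun x : Fin (m + 1) × Fin (m + 1) × Fin (m + 1) => c x.1 x.2.1 x.2.2) ∪
    Set.range (fun x : Fin (m + 1) × J × J => ρ x.1 x.2.1 x.2.2)
  have hS : S.Countable := ((Set.finite_range _).union (Set.finite_range _)).countable
  obtain ⟨K₀, _, hcount, φ, hr⟩ := exists_countable K S hS
  have hφ : Function.Injective φ := φ.injective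
  have hc : ∀ k l r, ∃ x, φ x = c k l r := fun k l r => hr _ (Or.inl ⟨(k, l, r), rfl⟩)
  choose cR hcR using hc
  have hcR' : mapC φ cR = c := by
    funext k l r
    exact hcR k l r
  subst hcR'
  have hρ : ∀ k, ∃ G : Matrix J J K₀, G.map φ = ρ k := fun k =>
    exists_mat (φ := φ) (ρ k) fun x y => hr _ (Or.inr ⟨(k, x, y), rfl⟩)
  choose ρR hρR using hρ
  have hρR' : mapR φ ρR = ρ := funext hρR
  subst hρR'
  have hA : IsAlg cR := IsAlg.of_map φ hφ h
  have hB : IsRep cR ρR := IsRep.of_map φ hφ hR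
  have hC : ∀ i, Ex cR (omI cR ρR i) ρR := fun i => Ex.descend φ (by
    rw [← omI_map]
    exact hE₀ i)
  have hD : ∀ i, Ex cR (omI cR ρR i) (lam cR) := fun i => Ex.descend φ (by
    rw [← omI_map]
    exact hE i)
  have hF : NP cR ρR := NP.descend φ hN
  have hch₀ : ringChar K₀ = ringChar Ω := by
    rw [← hch]
    have := charP_of_injective_ringHom hφ (ringChar K₀)
    exact (ringChar.eq K (ringChar K₀)).symm
  obtain ⟨ψ⟩ := hΩ K₀ hch₀
  refine ⟨mapC ψ cR, mapR ψ ρR, hA.map ψ, hB.map ψ, fun i => ?_, fun i => ?_, hF.map ψ,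
    fun g hg hρg => ?_⟩
  · rw [omI_map]
    exact (hC i).map ψ
  · rw [omI_map]
    exact (hD i).map ψ
  · have h1 : ρR = g K₀ cR := by
      rw [hg K₀ K φ cR] at hρg
      funext k
      exact Matrix.map_injective hφ (congrFun hρg k)
    rw [h1, hg K₀ Ω ψ cR]

/-- there are uncountable algebraically closed fields in every characteristic -/
theorem exists_univ (r : ℕ) (hr : r = 0 ∨ r.Prime) :
    ∃ (K : Type) (_ : Field K), IsAlgClosed K ∧ Uncountable K ∧ ringChar K = r := by
  have hdom : IsDomain (ZMod r) := by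
    rcases hr with rfl | hr
    · exact inferInstanceAs (IsDomain ℤ)
    · have : Fact r.Prime := ⟨hr⟩
      infer_instance
  let T := FractionRing (MvPolynomial ℝ (ZMod r))
  let L := AlgebraicClosure T
  refine ⟨L, inferInstance, inferInstance, ?_, ?_⟩
  · have hinj : Function.Injective (fun x : ℝ => algebraMap T L
      (algebraMap (MvPolynomial ℝ (ZMod r)) T (MvPolynomial.X x))) := by
      intro x y hxy
      exact MvPolynomial.X_injective (IsFractionRing.injective (MvPolynomial ℝ (ZMod r)) T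
        ((algebraMap T L).injective hxy))
    exact hinj.uncountable
  · have h1 : CharP (MvPolynomial ℝ (ZMod r)) r := inferInstance
    have h2 : CharP T r :=
      charP_of_injective_ringHom (IsFractionRing.injective (MvPolynomial ℝ (ZMod r)) T) r
    have h3 : CharP L r := charP_of_injective_ringHom (algebraMap T L).injective r
    exact ringChar.eq L r

end Pool.Agent.Lib.P5dcF
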