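import Mathlib
import Pool.Agent.Lib.P5dc868.Defs

/-!
# Definitions for MP_5dc868_al: the conjectures at finite level

`K` is a field, `A` a finite-dimensional `K`-algebra, `C` and `S` are sets of characteristics.
-/

namespace Pool.Agent.Lib.P5dcF

open CategoryTheory Abelian Pool.Agent.Lib.P5dc868

/-- `A` is selfinjective: the left and the right regular module are injective. -/
def SelfInj (A : Type) [Ring A] : Prop :=
  Module.Injective A A ∧ Module.Injective Aᵐᵒᵖ A

/-- The Nakayama conjecture for `A`. -/
def NC (A : Type) [Ring A] : Prop :=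
  DomDimInf A → SelfInj A

/-- The first Tachikawa conjecture for the `K`-algebra `A`. -/
def TC1 (K A : Type) [Field K] [Ring A] [Algebra K A] : Prop :=
  ExtZero A (DL K A) A → SelfInj A

/-- Q1 for all finite-dimensional algebras over the field `K`. -/
def Q1 (K : Type) [Field K] : Prop :=
  ∀ (A : Type) [Ring A] [Algebra K A] [FiniteDimensional K A], NC A ∨ TC1 K A

/-- `Ext^i_R(M, Y) = 0` for `1 ≤ i ≤ n`. -/
def ExtUpTo (R : Type) [Ring R] (n : ℕ) (M Y : Type) [AddCommGroup M] [Module R M]
    [AddCommGroup Y] [Module R Y] : Prop :=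
  ∀ i : ℕ, 1 ≤ i → i ≤ n → Subsingleton (Ext (ModuleCat.of R M) (ModuleCat.of R Y) i)

/-- The dominant dimension of `A` is at least `n`: there is an exact sequence
`0 → A → J 0 → ⋯ → J (n - 1)` of left modules with all `J i` finitely generated, projective and
injective. -/
def DomDimGE (A : Type) [Ring A] (n : ℕ) : Prop :=
  ∃ (J : ℕ → Type) (_ : ∀ i, AddCommGroup (J i)) (_ : ∀ i, Module A (J i))
    (ε : A →ₗ[A] J 0) (d : ∀ i, J i →ₗ[A] J (i + 1)),
    (∀ i, i < n → Module.Finite A (J i) ∧ Module.Projective A (J i) ∧ Module.Injective A (J i)) ∧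
    (0 < n → Function.Injective ε) ∧ (1 < n → ∀ x : J 0, d 0 x = 0 ↔ ∃ a, ε a = x) ∧
    ∀ i, i + 2 < n → ∀ x : J (i + 1), d (i + 1) x = 0 ↔ ∃ y, d i y = x

/-- Q1 at level `n`, for the `K`-algebras of dimension at most `m`. -/
def Q1n (m n : ℕ) (K : Type) [Field K] : Prop :=
  ∀ (A : Type) [Ring A] [Algebra K A] [FiniteDimensional K A],
    Module.finrank K A ≤ m → DomDimGE A n → ExtUpTo A n (DL K A) A → SelfInj A

/-- The Nakayama conjecture at level `n`, for the `K`-algebras of dimension at most `m`. -/
def NCn (m n : ℕ) (K : Type) [Field K] : Prop :=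
  ∀ (A : Type) [Ring A] [Algebra K A] [FiniteDimensional K A],
    Module.finrank K A ≤ m → DomDimGE A n → SelfInj A

/-- The first Tachikawa conjecture for the `K`-algebras of dimension `m`. -/
def TC (m : ℕ) (K : Type) [Field K] : Prop :=
  ∀ (A : Type) [Ring A] [Algebra K A] [FiniteDimensional K A],
    Module.finrank K A = m → ExtZero A (DL K A) A → SelfInj A

/-- The first Tachikawa conjecture at level `n`, for the `K`-algebras of dimension `m`. -/
def TCn (m n : ℕ) (K : Type) [Field K] : Prop :=
  ∀ (A : Type) [Ring A] [Algebra K A] [FiniteDimensional K A],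
    Module.finrank K A = m → ExtUpTo A n (DL K A) A → SelfInj A

/-- The Auslander–Reiten conjecture for the modules of dimension `d` over the `K`-algebras of
dimension `m`. -/
def ARC (m d : ℕ) (K : Type) [Field K] : Prop :=
  ∀ (A M : Type) [Ring A] [Algebra K A] [FiniteDimensional K A] [AddCommGroup M]
    [Module K M] [Module A M] [IsScalarTower K A M] [FiniteDimensional K M],
    Module.finrank K A = m → Module.finrank K M = d → ExtZero A M M → ExtZero A M A →
      Module.Projective A M

/-- The Auslander–Reiten conjecture at level `n`, for the modules of dimension `d` over the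
`K`-algebras of dimension `m`. -/
def ARCn (m d n : ℕ) (K : Type) [Field K] : Prop :=
  ∀ (A M : Type) [Ring A] [Algebra K A] [FiniteDimensional K A] [AddCommGroup M]
    [Module K M] [Module A M] [IsScalarTower K A M] [FiniteDimensional K M],
    Module.finrank K A = m → Module.finrank K M = d → ExtUpTo A n M M → ExtUpTo A n M A →
      Module.Projective A M

/-- `S` is a closed set of characteristics: it consists of primes and possibly `0`, and it
contains `0` if it is infinite. -/
def IsCl (S : Set ℕ) : Prop :=
  (∀ q ∈ S, q = 0 ∨ q.Prime) ∧ (S.Infinite → 0 ∈ S)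

/-- `P K` holds for all fields `K` with characteristic in `S`. -/
def Over (S : Set ℕ) (P : ∀ (K : Type) [Field K], Prop) : Prop :=
  ∀ (K : Type) [Field K], ringChar K ∈ S → P K

/-- `K` has infinite transcendence degree over its prime field. -/
def InfTr (K : Type) [Field K] : Prop :=
  ¬ FinTrdeg (⊥ : Subfield K) K

/-- For each characteristic `r` in `S`, `P K` holds for one field `K` of characteristic `r` and
of infinite transcendence degree. -/
def OverOne (S : Set ℕ) (P : ∀ (K : Type) [Field K], Prop) : Prop :=
  ∀ r ∈ S, ∃ (K : Type) (_ : Field K), InfTr K ∧ ringChar K = r ∧ P K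

/-- For each characteristic `r` in `S`, `P K` holds for one algebraically closed field `K` of
characteristic `r` and of infinite transcendence degree. -/
def OverOneCl (S : Set ℕ) (P : ∀ (K : Type) [Field K], Prop) : Prop :=
  ∀ r ∈ S, ∃ (K : Type) (_ : Field K), IsAlgClosed K ∧ InfTr K ∧ ringChar K = r ∧ P K

/-- There is `n` such that `P n K` holds for all fields `K` whose characteristic is in `S` or, if
`0` is in `S`, greater than `n`. -/
def Uniform (S : Set ℕ) (P : ℕ → ∀ (K : Type) [Field K], Prop) : Prop :=
  ∃ n, ∀ (K : Type) [Field K], (ringChar K ∈ S ∨ (0 ∈ S ∧ n < ringChar K)) → P n K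

/-- There are `n` and a set `C` of primes, containing the primes in `S` and infinite if `0` is in
`S`, such that `P n K` holds for all finite fields `K` with characteristic in `C`. -/
def UniformFin (S : Set ℕ) (P : ℕ → ∀ (K : Type) [Field K], Prop) : Prop :=
  ∃ (n : ℕ) (C : Set ℕ), (∀ q ∈ C, q.Prime) ∧ (∀ q ∈ S, q ∈ C ∨ (q = 0 ∧ C.Infinite)) ∧
    ∀ (K : Type) [Field K] [Finite K], ringChar K ∈ C → P n K

/-- There is `n` such that `P n K` holds for all finite fields `K` with characteristic in `S` and,
if `0` is in `S`, for the prime fields `K` with more than `n` elements. -/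
def UniformPrime (S : Set ℕ) (P : ℕ → ∀ (K : Type) [Field K], Prop) : Prop :=
  ∃ n, (∀ (K : Type) [Field K] [Finite K], ringChar K ∈ S → P n K) ∧
    (0 ∈ S → ∀ (p : ℕ) [Fact p.Prime], n < p → P n (ZMod p))

end Pool.Agent.Lib.P5dcF
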