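import Mathlib
import Pool.Agent.Lib.P5dc868.CycRes
import Pool.Agent.Lib.P5dc868.T1
import Pool.Agent.Lib.P5dcG.ResG
import Pool.Agent.Lib.P5dcF.Stmt

/-!
# Resolutions and dominant dimension, finite level (MP_5dc868_al)
-/

namespace Pool.Agent.Lib.P5dcF

open CategoryTheory Abelian Pool.Agent.Lib.P5dc868 Pool.Agent.Lib.P5dcG

section res
variable {B : Type} [Ring B] [IsNoetherianRing B] {M : Type} [AddCommGroup M] [Module B M]
  {Y : Type} [AddCommGroup Y] [Module B Y]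

theorem seq_ext {k0 : ℕ} (ε : (Fin k0 → B) →ₗ[B] M) (hε : Function.Surjective ε) (n : ℕ) :
    ∀ j, Subsingleton (Ext (ModuleCat.of B M) (ModuleCat.of B Y) (n + j + 2)) →
      Subsingleton (Ext (ModuleCat.of B (ResAux.seq ⟨k0, LinearMap.ker ε⟩ n).S)
        (ModuleCat.of B Y) (j + 1)) := by
  induction n with
  | zero =>
    intro j hj
    refine Pool.Agent.Lib.P5dcG.ext_shift (ι := (LinearMap.ker ε).subtype) (π := ε)
      Subtype.val_injective hε (fun p => ?_) j (by rwa [zero_add] at hj)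
    exact ⟨fun h => ⟨⟨p, h⟩, rfl⟩, fun ⟨y, hy⟩ => hy ▸ y.2⟩
  | succ n ih =>
    intro j hj
    refine Pool.Agent.Lib.P5dcG.ext_shift
      (ι := (LinearMap.ker (ResAux.F (ResAux.seq ⟨k0, LinearMap.ker ε⟩ n))).subtype)
      (π := ResAux.F (ResAux.seq ⟨k0, LinearMap.ker ε⟩ n))
      Subtype.val_injective (ResAux.F_surj _) (fun p => ?_) j ?_
    · exact ⟨fun h => ⟨⟨p, h⟩, rfl⟩, fun ⟨y, hy⟩ => hy ▸ y.2⟩
    · exact ih (j + 1) (by rwa [show n + (j + 1) + 2 = n + 1 + j + 2 by omega])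

theorem seq_ext1 {k0 : ℕ} (ε : (Fin k0 → B) →ₗ[B] M) (hε : Function.Surjective ε) (n : ℕ)
    (h : Subsingleton (Ext (ModuleCat.of B M) (ModuleCat.of B Y) (n + 1))) :
    ResAux.Ext1 ⟨k0, LinearMap.ker ε⟩ n Y := by
  cases n with
  | zero => exact fun f => Ext1Zero.of_ext h _ ε hε f
  | succ n =>
    have h1 := seq_ext (Y := Y) ε hε n 0 (by rwa [show n + 0 + 2 = n + 1 + 1 by omega])
    exact fun f => Ext1Zero.of_ext h1 _ (ResAux.F (ResAux.seq ⟨k0, LinearMap.ker ε⟩ n))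
      (ResAux.F_surj _) f

end res

/-- free resolutions, finite level -/
theorem exists_resT (K : Type) [Field K] {B : Type} [Ring B] [Algebra K B] [FiniteDimensional K B]
    (M : Type) [AddCommGroup M] [Module B M] [Module.Finite B M] :
    ∃ (k : ℕ → ℕ) (ε : (Fin (k 0) → B) →ₗ[B] M)
      (d : ∀ n, (Fin (k (n + 1)) → B) →ₗ[B] (Fin (k n) → B)),
      Function.Surjective ε ∧ (∀ x, ε x = 0 ↔ ∃ y, d 0 y = x) ∧
      (∀ n x, d n x = 0 ↔ ∃ y, d (n + 1) y = x) ∧
      ∀ (Y : Type) [AddCommGroup Y] [Module B Y] (n : ℕ),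
        Subsingleton (Ext (ModuleCat.of B M) (ModuleCat.of B Y) (n + 1)) →
        ∀ (f : (Fin (k (n + 1)) → B) →ₗ[B] Y), (∀ y, f (d (n + 1) y) = 0) →
          ∃ g : (Fin (k n) → B) →ₗ[B] Y, ∀ x, g (d n x) = f x := by
  have hK : IsNoetherian K B := inferInstance
  have hB : IsNoetherianRing B := isNoetherian_of_tower K hK
  obtain ⟨k0, ε, hε⟩ := Module.Finite.exists_fin' B M
  let s : ResAux.St B := ⟨k0, LinearMap.ker ε⟩
  refine ⟨fun n => (ResAux.seq s n).k, ε, ResAux.dd s, hε, ?_, ?_, ?_⟩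
  · intro x
    exact ResAux.mem_iff s 0 x
  · intro n x
    exact (ResAux.dd_zero_iff s n x).trans (ResAux.mem_iff s (n + 1) x)
  · intro Y _ _ n hY f hf
    exact ResAux.factor s Y n (seq_ext1 ε hε n hY) f hf

open CycResAux in
/-- the resolution of the induced module, finite level -/
theorem exists_cycResT {K B : Type} [Field K] [Ring B] [Algebra K B] [FiniteDimensional K B]
    (M : Type) [AddCommGroup M] [Module B M] [Module.Finite B M] (N : ℕ)
    (hM : ExtUpTo B N M M) (hB : ExtUpTo B N M B) :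
    ∃ (k : ℕ → ℕ) (ε : Ind K B (Fin (k 0) → B) →ₗ[Cyc K B] Ind K B M)
      (d : ∀ n, Ind K B (Fin (k (n + 1)) → B) →ₗ[Cyc K B] Ind K B (Fin (k n) → B)),
      Function.Surjective ε ∧ (∀ x, ε x = 0 ↔ ∃ y, d 0 y = x) ∧
      (∀ n x, d n (d (n + 1) x) = 0) ∧
      (∀ n, n < N → ∀ (f : Ind K B (Fin (k (n + 1)) → B) →ₗ[Cyc K B] Cyc K B × Ind K B M),
        (∀ y, f (d (n + 1) y) = 0) →
        ∃ g : Ind K B (Fin (k n) → B) →ₗ[Cyc K B] Cyc K B × Ind K B M,
          ∀ x, g (d n x) = f x) := by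
  obtain ⟨k, ε, d, hε, h0, hd, hY⟩ := exists_resT K (B := B) M
  have hYM : ∀ n, n < N → _ := fun n hn => hY M n (hM (n + 1) (by omega) (by omega))
  have hYB : ∀ n, n < N → _ := fun n hn => hY B n (hB (n + 1) (by omega) (by omega))
  have hinj : Module.Injective (Cyc K B) (Cyc K B) := (Cyc.frob (K := K) (B := B)).left_injective
  refine ⟨k, Ind.map ε, fun n => Ind.map (d n), Ind.map_surjective ε hε, ?_, ?_, ?_⟩
  · intro x
    apply Ind.map_exact (d 0) ε h0
    intro f hf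
    exact factor ε hε f (fun x hx => by
      obtain ⟨y, rfl⟩ := (h0 x).mp hx
      exact hf y)
  · intro n x
    rw [Ind.map_comp]
    have h1 : d n ∘ₗ d (n + 1) = 0 := by
      ext1
      apply LinearMap.ext
      intro z
      exact (hd n _).2 ⟨_, rfl⟩
    rw [h1]
    refine Ind.ext' rfl (fun f => ?_)
    rw [Ind.map_snd_apply, LinearMap.comp_zero, map_zero]
    rfl
  · intro n hn f hf
    -- the component in `S`
    obtain ⟨gS, hgS⟩ := ext_inj hinj (Ind.map (K := K) (d n))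
      ((LinearMap.fst (Cyc K B) (Cyc K B) (Ind K B M)) ∘ₗ f) (fun x hx => by
        obtain ⟨y, rfl⟩ := (Ind.map_exact (K := K) (d (n + 1)) (d n) (hd n)
          (fun f hf => hYB n hn f hf) x).mp hx
        rw [LinearMap.comp_apply, hf y, map_zero])
    -- the component in `N`
    have hfM := Ind.eq_map ((LinearMap.snd (Cyc K B) (Cyc K B) (Ind K B M)) ∘ₗ f)
    set φ := Ind.res0 ((LinearMap.snd (Cyc K B) (Cyc K B) (Ind K B M)) ∘ₗ f) with hφ
    have hφ0 : ∀ y, φ (d (n + 1) y) = 0 := by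
      intro y
      have h1 : (Ind.map (K := K) (d (n + 1))) ⟨y, 0⟩ = ⟨d (n + 1) y, 0⟩ :=
        Ind.ext' rfl (fun f => rfl)
      have h2 := hf ⟨y, 0⟩
      rw [h1] at h2
      show (((LinearMap.snd (Cyc K B) (Cyc K B) (Ind K B M)) ∘ₗ f) ⟨d (n + 1) y, 0⟩).fst = 0
      rw [LinearMap.comp_apply, h2, map_zero]
      rfl
    obtain ⟨g0, hg0⟩ := hYM n hn φ hφ0
    refine ⟨gS.prod (Ind.map g0), fun x => ?_⟩
    have h3 : g0 ∘ₗ d n = φ := LinearMap.ext hg0
    apply Prod.ext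
    · exact hgS x
    · show Ind.map g0 (Ind.map (d n) x) = (f x).2
      rw [Ind.map_comp, h3, ← hfM]
      rfl

end Pool.Agent.Lib.P5dcF
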