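import Mathlib
import Pool.Agent.Lib.P5dc868.Dual
import Pool.Agent.Lib.P5dcF.ResT

/-!
# Müller's theorem and duality, finite level (MP_5dc868_al)
-/

namespace Pool.Agent.Lib.P5dcF

open CategoryTheory Abelian Pool.Agent.Lib.P5dc868

section deg
variable {R : Type} [Ring R]

open ExtBAux in
/-- `Ext^(i+1)(W, A) = 0` from an injective coresolution of `A` -/
theorem ext_of_cores {W : Type} [AddCommGroup W] [Module R W] : ∀ i : ℕ, ∀ (A : Type)
    (_ : AddCommGroup A) (_ : Module R A)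
    (J : ℕ → Type) (_ : ∀ n, AddCommGroup (J n)) (_ : ∀ n, Module R (J n))
    (_ : ∀ n, Module.Injective R (J n)) (ε : A →ₗ[R] J 0) (d : ∀ n, J n →ₗ[R] J (n + 1))
    (_ : Function.Injective ε) (_ : ∀ x : J 0, d 0 x = 0 ↔ ∃ a, ε a = x)
    (_ : ∀ n (x : J (n + 1)), d (n + 1) x = 0 ↔ ∃ y, d n y = x)
    (_ : ∀ (G : W →ₗ[R] J (i + 1)), (∀ w, d (i + 1) (G w) = 0) →
      ∃ G' : W →ₗ[R] J i, ∀ w, d i (G' w) = G w),
    Subsingleton (Ext (ModuleCat.of R W) (ModuleCat.of R A) (i + 1)) := by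
  intro i
  induction i with
  | zero =>
    intro A _ _ J _ _ hJ ε d hε h0 hd hW
    let π : J 0 →ₗ[R] LinearMap.ker (d 1) :=
      (d 0).codRestrict (LinearMap.ker (d 1)) fun x => (hd 0 (d 0 x)).2 ⟨x, rfl⟩
    have hπ : Function.Surjective π := by
      rintro ⟨x, hx⟩
      obtain ⟨y, hy⟩ := (hd 0 x).1 hx
      exact ⟨y, Subtype.ext hy⟩
    refine step1 (hJ 0) ε π hε hπ (fun x => ?_) fun G => ?_
    · rw [← h0]
      exact Subtype.ext_iff
    · obtain ⟨G', hG'⟩ := hW ((LinearMap.ker (d 1)).subtype ∘ₗ G) fun w => (G w).2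
      exact ⟨G', fun w => Subtype.ext (hG' w)⟩
  | succ i ih =>
    intro A _ _ J _ _ hJ ε d hε h0 hd hW
    let π : J 0 →ₗ[R] LinearMap.ker (d 1) :=
      (d 0).codRestrict (LinearMap.ker (d 1)) fun x => (hd 0 (d 0 x)).2 ⟨x, rfl⟩
    have hπ : Function.Surjective π := by
      rintro ⟨x, hx⟩
      obtain ⟨y, hy⟩ := (hd 0 x).1 hx
      exact ⟨y, Subtype.ext hy⟩
    refine step (hJ 0) ε π hε hπ (fun x => ?_) i ?_
    · rw [← h0]
      exact Subtype.ext_iff
    · refine ih (LinearMap.ker (d 1)) _ _ (fun n => J (n + 1)) _ _ (fun n => hJ (n + 1))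
        (LinearMap.ker (d 1)).subtype (fun n => d (n + 1)) Subtype.val_injective ?_
        (fun n => hd (n + 1)) hW
      intro x
      exact ⟨fun hx => ⟨⟨x, hx⟩, rfl⟩, fun ⟨a, ha⟩ => ha ▸ a.2⟩

/-- `Ext^(i+1)(M, Y) = 0` from a partial projective resolution -/
theorem ext_of_res {Y : Type} [AddCommGroup Y] [Module R Y] (i : ℕ) :
    ∀ {M : Type} [AddCommGroup M] [Module R M]
    (P : ℕ → Type) [∀ n, AddCommGroup (P n)] [∀ n, Module R (P n)]
    (_ : ∀ n, n ≤ i → Module.Projective R (P n)) (ε : P 0 →ₗ[R] M)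
    (d : ∀ n, P (n + 1) →ₗ[R] P n)
    (_ : Function.Surjective ε) (_ : ∀ x : P 0, ε x = 0 ↔ ∃ y, d 0 y = x)
    (_ : ∀ n, n < i → ∀ (x : P (n + 1)), d n x = 0 ↔ ∃ y, d (n + 1) y = x)
    (_ : ∀ y, d i (d (i + 1) y) = 0)
    (_ : ∀ (f : P (i + 1) →ₗ[R] Y), (∀ y, f (d (i + 1) y) = 0) →
      ∃ g : P i →ₗ[R] Y, ∀ x, g (d i x) = f x),
    Subsingleton (Ext (ModuleCat.of R M) (ModuleCat.of R Y) (i + 1)) := by
  induction i with
  | zero =>
    intro M _ _ P _ _ hP ε d hε h0 hd hc hY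
    have hS := LinearMap.shortExact_shortComplexKer hε
    refine subsingleton_of_forall_eq 0 fun x₃ => ?_
    have := hP 0 le_rfl
    obtain ⟨x₁, hx₁⟩ := Ext.contravariant_sequence_exact₃ hS (ModuleCat.of R Y) x₃
      (n₀ := 0) (Ext.eq_zero_of_projective _) (by omega)
    obtain ⟨f, rfl⟩ := (Ext.mk₀_bijective _ _).2 x₁
    let c : P 1 →ₗ[R] LinearMap.ker ε := (d 0).codRestrict (LinearMap.ker ε)
      (fun x => (h0 _).2 ⟨x, rfl⟩)
    obtain ⟨g, hg⟩ := hY (f.hom ∘ₗ c) (fun y => by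
      have : c (d 1 y) = 0 := Subtype.ext (hc y)
      simp [this])
    have hfg : f = ModuleCat.ofHom (LinearMap.ker ε).subtype ≫ ModuleCat.ofHom g := by
      ext x
      obtain ⟨y, hy⟩ := (h0 x.1).1 x.2
      have hx : x = c y := Subtype.ext hy.symm
      have h5 := hg y
      rw [hx]
      exact h5.symm
    rw [← hx₁, hfg, ← Ext.mk₀_comp_mk₀]
    exact hS.extClass_comp_assoc _
  | succ i ih =>
    intro M _ _ P _ _ hP ε d hε h0 hd hc hY
    have hS := LinearMap.shortExact_shortComplexKer hε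
    refine subsingleton_of_forall_eq 0 fun x₃ => ?_
    have := hP 0 (by omega)
    obtain ⟨x₁, hx₁⟩ := Ext.contravariant_sequence_exact₃ hS (ModuleCat.of R Y) x₃
      (n₀ := i + 1) (Ext.eq_zero_of_projective _) (by omega)
    let c : P 1 →ₗ[R] LinearMap.ker ε := (d 0).codRestrict (LinearMap.ker ε)
      (fun x => (h0 _).2 ⟨x, rfl⟩)
    have hsub : Subsingleton (Ext (ModuleCat.of R (LinearMap.ker ε)) (ModuleCat.of R Y)
        (i + 1)) := by
      refine ih (fun n => P (n + 1)) (fun n hn => hP (n + 1) (by omega)) c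
        (fun n => d (n + 1)) ?_ ?_ ?_ hc hY
      · intro x
        obtain ⟨y, hy⟩ := (h0 x.1).1 x.2
        exact ⟨y, Subtype.ext hy⟩
      · intro x
        rw [← hd 0 (by omega) x]
        exact ⟨fun h => congrArg Subtype.val h, fun h => Subtype.ext h⟩
      · exact fun n hn x => hd (n + 1) (by omega) x
    have h1 : x₁ = 0 := @Subsingleton.elim _ hsub _ _
    rw [← hx₁, h1, Ext.comp_zero]

section retr
variable {M Y Z : Type} [AddCommGroup M] [Module R M]
    [AddCommGroup Y] [Module R Y] [AddCommGroup Z] [Module R Z]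

theorem ext_retract_one {j : ℕ} (hsub : Subsingleton (Ext (ModuleCat.of R M) (ModuleCat.of R Y) j))
    (i : Z →ₗ[R] Y) (r : Y →ₗ[R] Z) (hr : ∀ z, r (i z) = z) :
    Subsingleton (Ext (ModuleCat.of R M) (ModuleCat.of R Z) j) := by
  refine subsingleton_of_forall_eq 0 fun x => ?_
  have h1 : ModuleCat.ofHom i ≫ ModuleCat.ofHom r = 𝟙 (ModuleCat.of R Z) := by
    ext z
    exact hr z
  have h2 : (x.comp (Ext.mk₀ (ModuleCat.ofHom i)) (add_zero j)) = 0 :=
    @Subsingleton.elim _ hsub _ _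
  rw [← Ext.comp_mk₀_id x, ← h1, ← Ext.mk₀_comp_mk₀, ← Ext.comp_assoc_of_second_deg_zero, h2,
    Ext.zero_comp]

open ExtBAux in
theorem ext_pow {j : ℕ}
    (h : Subsingleton (Ext (ModuleCat.of R M) (ModuleCat.of R Y) (j + 1))) (n : ℕ) :
    Subsingleton (Ext (ModuleCat.of R M) (ModuleCat.of R (Fin n → Y)) (j + 1)) := by
  induction n with
  | zero =>
    have hi : Module.Injective R (Fin 0 → Y) :=
      ⟨fun X Z _ _ _ _ f _ g => ⟨0, fun x => Subsingleton.elim _ _⟩⟩
    exact extZero_of_injective hi _ (by omega)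
  | succ n ih =>
    have hS := sc_exact (LinearMap.single R (fun _ : Fin (n + 1) => Y) 0)
      (LinearMap.funLeft R Y (Fin.succ : Fin n → Fin (n + 1)))
      (Pi.single_injective (M := fun _ : Fin (n + 1) => Y) 0)
      (fun x => ⟨Fin.cons 0 x, by ext i; simp [LinearMap.funLeft_apply]⟩)
      (fun x => by
        constructor
        · intro hx
          refine ⟨x 0, ?_⟩
          ext i
          refine Fin.cases ?_ (fun i => ?_) i
          · simp
          · have := congrFun hx i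
            simp only [LinearMap.funLeft_apply, Pi.zero_apply] at this
            simp [this]
        · rintro ⟨a, rfl⟩
          ext i
          simp [LinearMap.funLeft_apply])
    refine subsingleton_of_forall_eq 0 fun x => ?_
    obtain ⟨x₁, hx₁⟩ := Ext.covariant_sequence_exact₂ (ModuleCat.of R M) hS x
      (@Subsingleton.elim _ ih _ _)
    have h1 : x₁ = 0 := @Subsingleton.elim _ h _ _
    rw [← hx₁, h1, Ext.zero_comp]

theorem ExtUpTo.retract {N : ℕ} (h : ExtUpTo R N M Y) {n : ℕ}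
    (i : Z →ₗ[R] (Fin n → Y)) (r : (Fin n → Y) →ₗ[R] Z) (hr : ∀ z, r (i z) = z) :
    ExtUpTo R N M Z := by
  intro j hj hjN
  obtain ⟨k, rfl⟩ : ∃ k, j = k + 1 := ⟨j - 1, by omega⟩
  exact ext_retract_one (ext_pow (h _ hj hjN) n) i r hr

end retr

end deg

section dual
variable {K R : Type} [Field K] [Ring R] [Algebra K R] {M Y : Type} [AddCommGroup M] [Module K M]
  [Module R M] [IsScalarTower K R M] [AddCommGroup Y] [Module K Y] [Module R Y]
  [IsScalarTower K R Y]

theorem ExtUpTo.dual [FiniteDimensional K R] [FiniteDimensional K M] [FiniteDimensional K Y]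
    {N : ℕ} (h : ExtUpTo R N M Y) : ExtUpTo Rᵐᵒᵖ N (DR K Y) (DR K M) := by
  have : Module.Finite R M := Module.Finite.of_restrictScalars_finite K R M
  obtain ⟨k, ε, d, h1, h2, h3, h4⟩ := exists_resT K (B := R) M
  intro j hj hjN
  obtain ⟨i, rfl⟩ : ∃ k, j = k + 1 := ⟨j - 1, by omega⟩
  have h5 := h4 Y i (h _ hj hjN)
  refine ext_of_cores i _ _ _ (fun n => DR K (Fin (k n) → R)) _ _
    (fun n => DR.injective_of_projective inferInstance)
    (DualAux.tr ε) (fun n => DualAux.tr (d n)) ?_ ?_ ?_ ?_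
  · intro φ ψ hφψ
    apply DR.ext
    intro x
    obtain ⟨y, rfl⟩ := h1 x
    exact congrArg (fun t : DR K (Fin (k 0) → R) => t y) hφψ
  · intro φ
    exact DualAux.tr_exact (d 0) ε h2 φ
  · intro n φ
    exact DualAux.tr_exact (d (n + 1)) (d n) (h3 n) φ
  · intro G hG
    obtain ⟨t, ht⟩ := DualAux.exists_transpose G
    obtain ⟨g, hg⟩ := h5 t (fun y => by
      apply DualAux.sep (K := K)
      intro φ
      rw [ht]
      have := congrArg (fun s : DR K (Fin (k (i + 2)) → R) => s y) (hG φ)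
      exact this.trans (LinearMap.map_zero (show Y →ₗ[K] K from φ)).symm)
    refine ⟨DualAux.tr g, fun φ => DR.ext fun x => ?_⟩
    change φ (g (d i x)) = G φ x
    rw [hg, ht]

end dual

section muller
variable {A : Type} [Ring A]

/-- maps that vanish on the kernel of `u` extend along `u` to injective modules -/
theorem inj_ext {X Y Q : Type} [AddCommGroup X] [Module A X] [AddCommGroup Y] [Module A Y]
    [AddCommGroup Q] [Module A Q] (hQ : Module.Injective A Q) (u : X →ₗ[A] Y) (f : X →ₗ[A] Q)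
    (h : ∀ x, u x = 0 → f x = 0) : ∃ g : Y →ₗ[A] Q, ∀ x, g (u x) = f x := by
  let f' : (X ⧸ LinearMap.ker u) →ₗ[A] Q := (LinearMap.ker u).liftQ f fun x hx => h x hx
  let u' : (X ⧸ LinearMap.ker u) →ₗ[A] Y := (LinearMap.ker u).liftQ u le_rfl
  have hu : Function.Injective u' := by
    rw [← LinearMap.ker_eq_bot]
    exact Submodule.ker_liftQ_eq_bot _ _ _ le_rfl
  obtain ⟨g, hg⟩ := hQ.out u' hu f'
  refine ⟨g, fun x => ?_⟩
  have := hg (Submodule.Quotient.mk x)
  simpa [u', f'] using this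

/-- finitely generated modules that are projective and injective are retracts of `Q ^ m` -/
theorem retr {J Q : Type} [AddCommGroup J] [Module A J] [AddCommGroup Q] [Module A Q]
    (h1 : Module.Finite A J) (h2 : Module.Projective A J) (h3 : Module.Injective A J)
    (ε : A →ₗ[A] Q) (hε : Function.Injective ε) :
    ∃ (m : ℕ) (ι : J →ₗ[A] (Fin m → Q)) (ρ : (Fin m → Q) →ₗ[A] J), ∀ x, ρ (ι x) = x := by
  obtain ⟨m, π, hπ⟩ := Module.Finite.exists_fin' A J
  obtain ⟨s, hs⟩ := Module.projective_lifting_property π LinearMap.id hπ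
  have hs' : ∀ x, π (s x) = x := fun x => LinearMap.congr_fun hs x
  let ι : J →ₗ[A] (Fin m → Q) := LinearMap.pi fun k => ε ∘ₗ LinearMap.proj k ∘ₗ s
  have hι : Function.Injective ι := by
    intro x y hxy
    have h4 : s x = s y := by
      funext k
      exact hε (congrFun hxy k)
    rw [← hs' x, ← hs' y, h4]
  obtain ⟨ρ, hρ⟩ := h3.out ι hι LinearMap.id
  exact ⟨m, ι, ρ, fun x => hρ x⟩

section

variable {J Q : Type} [AddCommGroup J] [Module A J] [AddCommGroup Q] [Module A Q] {m : ℕ}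
  (ι : J →ₗ[A] (Fin m → Q)) (ρ : (Fin m → Q) →ₗ[A] J)

theorem decomp (h : ∀ x, ρ (ι x) = x) (f : J →ₗ[A] Q) :
    f = ∑ k, (show Module.End A Q from (f ∘ₗ ρ ∘ₗ LinearMap.single A (fun _ => Q) k)) •
      (LinearMap.proj k ∘ₗ ι : J →ₗ[A] Q) := by
  ext x
  rw [LinearMap.sum_apply]
  have h1 : ι x = ∑ k, (LinearMap.single A (fun _ => Q) k) (ι x k) := by
    funext j
    rw [Finset.sum_apply, Finset.sum_eq_single j]
    · simp
    · intro k _ hk
      simp [Ne.symm hk]
    · intro hj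
      exact absurd (Finset.mem_univ j) hj
  conv_lhs => rw [← h x, h1]
  rw [map_sum, map_sum]
  rfl

theorem proj_hom (h : ∀ x, ρ (ι x) = x) :
    Module.Projective (Module.End A Q) (J →ₗ[A] Q) := by
  let i : (J →ₗ[A] Q) →ₗ[Module.End A Q] (Fin m → Module.End A Q) :=
    { toFun := fun f k => f ∘ₗ ρ ∘ₗ LinearMap.single A (fun _ => Q) k
      map_add' := fun f g => by
        funext k
        ext x
        rfl
      map_smul' := fun b f => by
        funext k
        ext x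
        rfl }
  let s : (Fin m → Module.End A Q) →ₗ[Module.End A Q] (J →ₗ[A] Q) :=
    { toFun := fun b => ∑ k, b k • (LinearMap.proj k ∘ₗ ι : J →ₗ[A] Q)
      map_add' := fun b c => by
        simp only [Pi.add_apply, add_smul, Finset.sum_add_distrib]
      map_smul' := fun b c => by
        simp only [Pi.smul_apply, smul_eq_mul, mul_smul, Finset.smul_sum, RingHom.id_apply] }
  refine Module.Projective.of_split i s ?_
  ext f x
  have h1 := decomp ι ρ h f
  exact LinearMap.congr_fun h1.symm x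

theorem eval_hom (h : ∀ x, ρ (ι x) = x)
    (F : (J →ₗ[A] Q) →ₗ[Module.End A Q] Q) : ∃ y : J, ∀ f, F f = f y := by
  refine ⟨ρ (∑ k, LinearMap.single A (fun _ => Q) k (F (LinearMap.proj k ∘ₗ ι))), fun f => ?_⟩
  conv_lhs => rw [decomp ι ρ h f]
  rw [map_sum, map_sum, map_sum]
  refine Finset.sum_congr rfl fun k _ => ?_
  rw [map_smul]
  rfl

theorem sep (h : ∀ x, ρ (ι x) = x) (z : J) (hz : ∀ g : J →ₗ[A] Q, g z = 0) : z = 0 := by
  rw [← h z]
  have h1 : ι z = 0 := by
    funext k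
    exact hz (LinearMap.proj k ∘ₗ ι)
  rw [h1, map_zero]

end


/-- Müller's theorem, finite level: `B = End_A(Q)` -/
theorem muller {Q : Type} [AddCommGroup Q] [Module A Q] (hQ : Module.Injective A Q)
    (ε' : A →ₗ[A] Q) (hε' : Function.Injective ε') {N : ℕ} (hA : DomDimGE A (N + 2)) :
    ExtUpTo (Module.End A Q) N Q Q ∧
      ∀ F : Q →ₗ[Module.End A Q] Q, ∃ a : A, ∀ x, F x = a • x := by
  obtain ⟨J, iJ, mJ, ε, d, hJ, hε, h0, hd⟩ := hA
  replace hε := hε (by omega)
  replace h0 := h0 (by omega)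
  have hr : ∀ n, n < N + 2 → ∃ (m : ℕ) (ι : J n →ₗ[A] (Fin m → Q))
      (ρ : (Fin m → Q) →ₗ[A] J n), ∀ x, ρ (ι x) = x :=
    fun n hn => retr (hJ n hn).1 (hJ n hn).2.1 (hJ n hn).2.2 ε' hε'
  have hproj : ∀ n, n < N + 2 → Module.Projective (Module.End A Q) (J n →ₗ[A] Q) := by
    intro n hn
    obtain ⟨m, ι, ρ, h⟩ := hr n hn
    exact proj_hom ι ρ h
  have heval : ∀ n, n < N + 2 → ∀ (F : (J n →ₗ[A] Q) →ₗ[Module.End A Q] Q),
      ∃ y : J n, ∀ f, F f = f y := by
    intro n hn F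
    obtain ⟨m, ι, ρ, h⟩ := hr n hn
    exact eval_hom ι ρ h F
  have hsep : ∀ n, n < N + 2 → ∀ (z : J n), (∀ g : J n →ₗ[A] Q, g z = 0) → z = 0 := by
    intro n hn z hz
    obtain ⟨m, ι, ρ, h⟩ := hr n hn
    exact sep ι ρ h z hz
  have hdε : d 0 (ε 1) = 0 := (h0 _).2 ⟨1, rfl⟩
  have hdd : ∀ n, n < N → ∀ x, d (n + 1) (d n x) = 0 := fun n hn x =>
    (hd n (by omega) _).2 ⟨x, rfl⟩
  -- evaluation maps
  let ev : ∀ n, J n → ((J n →ₗ[A] Q) →ₗ[Module.End A Q] Q) := fun n y =>
    { toFun := fun f => f y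
      map_add' := fun f g => rfl
      map_smul' := fun b f => rfl }
  let D : ∀ n, (J (n + 1) →ₗ[A] Q) →ₗ[Module.End A Q] (J n →ₗ[A] Q) := fun n =>
    { toFun := fun f => f ∘ₗ d n
      map_add' := fun f g => by
        ext x
        rfl
      map_smul' := fun b f => by
        ext x
        rfl }
  have hsurj : ∀ x : Q, ∃ f : J 0 →ₗ[A] Q, f (ε 1) = x := by
    intro x
    obtain ⟨f, hf⟩ := hQ.out ε hε (LinearMap.toSpanSingleton A Q x)
    refine ⟨f, ?_⟩
    rw [hf 1]
    simp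
  refine ⟨?_, ?_⟩
  · intro j hj hjN
    obtain ⟨i, rfl⟩ : ∃ k, j = k + 1 := ⟨j - 1, by omega⟩
    refine ext_of_res i (fun n => J n →ₗ[A] Q) (fun n hn => hproj n (by omega)) (ev 0 (ε 1)) D
      hsurj ?_ ?_ ?_ ?_
    · intro f
      constructor
      · intro hf
        obtain ⟨g, hg⟩ := inj_ext hQ (d 0) f (fun x hx => by
          obtain ⟨a, rfl⟩ := (h0 x).1 hx
          have h1 : ε a = a • ε 1 := by rw [← map_smul, smul_eq_mul, mul_one]
          have h2 : f (ε 1) = 0 := hf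
          rw [h1, map_smul, h2, smul_zero])
        exact ⟨g, by ext x; exact hg x⟩
      · rintro ⟨g, rfl⟩
        change g (d 0 (ε 1)) = 0
        rw [hdε, map_zero]
    · intro n hn f
      constructor
      · intro hf
        obtain ⟨g, hg⟩ := inj_ext hQ (d (n + 1)) f (fun x hx => by
          obtain ⟨y, rfl⟩ := (hd n (by omega) x).1 hx
          exact LinearMap.congr_fun hf y)
        exact ⟨g, by ext x; exact hg x⟩
      · rintro ⟨g, rfl⟩
        ext x
        change g (d (n + 1) (d n x)) = 0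
        rw [hdd n (by omega), map_zero]
    · intro g
      ext x
      change g (d (i + 1) (d i x)) = 0
      rw [hdd i (by omega), map_zero]
    · intro F hF
      obtain ⟨y, hy⟩ := heval (i + 1) (by omega) F
      have h1 : d (i + 1) y = 0 := by
        refine hsep _ (by omega) _ fun g => ?_
        have h2 := hF g
        rw [hy] at h2
        exact h2
      obtain ⟨z, rfl⟩ := (hd i (by omega) y).1 h1
      exact ⟨ev i z, fun x => (hy x).symm⟩
  · intro F
    obtain ⟨y, hy⟩ := heval 0 (by omega) (F ∘ₗ ev 0 (ε 1))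
    have h1 : d 0 y = 0 := by
      refine hsep _ (by omega) _ fun g => ?_
      have h2 := hy (g ∘ₗ d 0)
      have h3 : (F ∘ₗ ev 0 (ε 1)) (g ∘ₗ d 0) = F (g (d 0 (ε 1))) := rfl
      rw [h3, hdε, map_zero, map_zero] at h2
      exact h2.symm
    obtain ⟨a, rfl⟩ := (h0 y).1 h1
    refine ⟨a, fun x => ?_⟩
    obtain ⟨g, hg⟩ := hsurj x
    have h2 := hy g
    have h3 : (F ∘ₗ ev 0 (ε 1)) g = F (g (ε 1)) := rfl
    have h4 : ε a = a • ε 1 := by rw [← map_smul, smul_eq_mul, mul_one]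
    rw [h3, hg, h4, map_smul, hg] at h2
    exact h2

end muller

end Pool.Agent.Lib.P5dcF
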