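import Mathlib
import Pool.Agent.Lib.P5dc868.Defs

/-!
# `D(A)` is projective if the right regular module is injective (MP_5dc868_al)
-/

namespace Pool.Agent.Lib.P5dcF

open Module Pool.Agent.Lib.P5dc868

variable {K A : Type} [Field K] [Ring A] [Algebra K A]

/-- a functional on `A` as a functional on the opposite algebra -/
def opF (ψ : A →ₗ[K] K) : DL K Aᵐᵒᵖ :=
  (ψ ∘ₗ (MulOpposite.opLinearEquiv K).symm.toLinearMap : Aᵐᵒᵖ →ₗ[K] K)

theorem opF_smul (ψ : A →ₗ[K] K) (z : Aᵐᵒᵖ) :
    z • opF ψ = opF (ψ ∘ₗ LinearMap.mulLeft K z.unop) := rfl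

theorem opF_add (ψ ψ' : A →ₗ[K] K) : opF (ψ + ψ') = opF ψ + opF ψ' := rfl

theorem opF_ksmul (t : K) (ψ : A →ₗ[K] K) : opF (t • ψ) = t • opF ψ := rfl

theorem projective_of_right_injective [FiniteDimensional K A] (h : Module.Injective Aᵐᵒᵖ A) :
    Module.Projective A (DL K A) := by
  let a := Module.finBasis K A
  let ι := Fin (Module.finrank K A)
  let j : A →ₗ[Aᵐᵒᵖ] (ι → DL K Aᵐᵒᵖ) :=
    { toFun := fun x i => opF (a.coord i ∘ₗ LinearMap.mulLeft K x)
      map_add' := fun x y => by
        funext i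
        rw [Pi.add_apply, ← opF_add]
        congr 1
        ext z
        show a.repr ((x + y) * z) i = a.repr (x * z) i + a.repr (y * z) i
        rw [add_mul, map_add]
        rfl
      map_smul' := fun z x => by
        funext i
        rw [RingHom.id_apply, Pi.smul_apply, opF_smul]
        congr 1
        ext y
        show a.repr ((x * z.unop) * y) i = a.repr (x * (z.unop * y)) i
        rw [mul_assoc] }
  have hj : Function.Injective j := by
    intro x y hxy
    apply a.repr.injective
    ext i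
    have h1 := congrFun hxy i
    have h2 : (opF (a.coord i ∘ₗ LinearMap.mulLeft K x)) (MulOpposite.op 1) =
        (opF (a.coord i ∘ₗ LinearMap.mulLeft K y)) (MulOpposite.op 1) :=
      congrArg (fun f : DL K Aᵐᵒᵖ => f (MulOpposite.op 1)) h1
    have h3 : a.repr (x * 1) i = a.repr (y * 1) i := h2
    rwa [mul_one, mul_one] at h3
  obtain ⟨r, hr⟩ := h.out j hj LinearMap.id
  have hr' : ∀ x, r (j x) = x := hr
  have hrK : ∀ (t : K) (z : ι → DL K Aᵐᵒᵖ), r (t • z) = t • r z := by
    intro t z
    rw [← algebraMap_smul Aᵐᵒᵖ t z, map_smul]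
    show r z * algebraMap K A t = t • r z
    rw [Algebra.algebraMap_eq_smul_one, mul_smul_comm, mul_one]
  let R : ι → (A →ₗ[K] K) →ₗ[K] A := fun i =>
    { toFun := fun ψ => r (Pi.single i (opF ψ))
      map_add' := fun ψ ψ' => by rw [opF_add, Pi.single_add, map_add]
      map_smul' := fun t ψ => by rw [opF_ksmul, Pi.single_smul, hrK, RingHom.id_apply] }
  have hR : ∀ i ψ (b : A), R i ψ * b = R i (ψ ∘ₗ LinearMap.mulLeft K b) := by
    intro i ψ b
    show MulOpposite.op b • r (Pi.single i (opF ψ)) = r (Pi.single i _)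
    rw [← map_smul, ← Pi.single_smul, opF_smul]
    rfl
  let ev : (φ : DL K A) → (i : ι) → A := fun φ i =>
    (Module.evalEquiv K A).symm ((show A →ₗ[K] K from φ) ∘ₗ R i)
  have hev : ∀ φ i (ψ : A →ₗ[K] K), ψ (ev φ i) = φ (R i ψ) := fun φ i ψ =>
    Module.apply_evalEquiv_symm_apply K A ψ _
  have hext : ∀ x y : A, (∀ ψ : A →ₗ[K] K, ψ x = ψ y) → x = y := fun x y h =>
    (Module.evalEquiv K A).injective (LinearMap.ext h)
  let s : DL K A →ₗ[A] (ι → A) :=
    { toFun := ev
      map_add' := fun φ φ' => by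
        funext i
        refine hext _ _ fun ψ => ?_
        rw [Pi.add_apply, map_add, hev, hev, hev]
        rfl
      map_smul' := fun b φ => by
        funext i
        refine hext _ _ fun ψ => ?_
        rw [RingHom.id_apply, Pi.smul_apply, hev, DL.smul_apply, hR, ← hev]
        rfl }
  let π : (ι → A) →ₗ[A] DL K A :=
    Fintype.linearCombination A fun i => (show DL K A from a.coord i)
  refine Module.Projective.of_split s π (LinearMap.ext fun φ => ?_)
  apply DL.ext
  intro x
  show (Fintype.linearCombination A (fun i => (show DL K A from a.coord i)) (ev φ)) x = φ x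
  rw [Fintype.linearCombination_apply]
  have key : ∀ (t : Finset ι) (F : ι → DL K A), (∑ i ∈ t, F i) x = ∑ i ∈ t, (F i) x := by
    intro t F
    classical
    induction t using Finset.induction_on with
    | empty => rfl
    | insert a t ha ih => rw [Finset.sum_insert ha, Finset.sum_insert ha, DL.add_apply, ih]
  rw [key]
  have h1 : ∀ i, (ev φ i • (show DL K A from a.coord i)) x =
      φ (R i (a.coord i ∘ₗ LinearMap.mulLeft K x)) := by
    intro i
    rw [← hev]
    rfl
  simp only [h1]
  have h2 : j x = ∑ i, Pi.single i (opF (a.coord i ∘ₗ LinearMap.mulLeft K x)) :=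
    (Finset.univ_sum_single (j x)).symm
  have h3 : x = ∑ i, R i (a.coord i ∘ₗ LinearMap.mulLeft K x) := by
    conv_lhs => rw [← hr' x, h2, map_sum]
    rfl
  conv_rhs => rw [h3]
  exact (map_sum (show A →ₗ[K] K from φ) _ _).symm

end Pool.Agent.Lib.P5dcF
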