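import Mathlib
import Pool.Agent.Lib.P5dc868.Dual
import Pool.Agent.Lib.P5dcF.Mul
import Pool.Agent.Lib.P5dcF.Proj

/-!
# Left-right symmetry, finite level (MP_5dc868_al)
-/

namespace Pool.Agent.Lib.P5dcF

open CategoryTheory Abelian Pool.Agent.Lib.P5dc868

section congr
variable {R : Type} [Ring R] {M M' Y Y' : Type} [AddCommGroup M] [Module R M]
    [AddCommGroup M'] [Module R M'] [AddCommGroup Y] [Module R Y] [AddCommGroup Y'] [Module R Y']

theorem ext_retract_left {j : ℕ}
    (hsub : Subsingleton (Ext (ModuleCat.of R M) (ModuleCat.of R Y) j)) (i : M' →ₗ[R] M)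
    (r : M →ₗ[R] M') (hr : ∀ z, r (i z) = z) :
    Subsingleton (Ext (ModuleCat.of R M') (ModuleCat.of R Y) j) := by
  refine subsingleton_of_forall_eq 0 fun x => ?_
  have h1 : ModuleCat.ofHom i ≫ ModuleCat.ofHom r = 𝟙 (ModuleCat.of R M') := by
    ext z
    exact hr z
  have h2 : ((Ext.mk₀ (ModuleCat.ofHom r)).comp x (zero_add j)) = 0 :=
    @Subsingleton.elim _ hsub _ _
  rw [← Ext.mk₀_id_comp x, ← h1, ← Ext.mk₀_comp_mk₀_assoc, h2, Ext.comp_zero]

theorem ExtUpTo.congr {n : ℕ} (e : M ≃ₗ[R] M') (f : Y ≃ₗ[R] Y') (h : ExtUpTo R n M Y) :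
    ExtUpTo R n M' Y' := fun i hi hin =>
  ext_retract_left (ext_retract_one (h i hi hin) f.symm.toLinearMap f.toLinearMap
    fun z => f.apply_symm_apply z) e.symm.toLinearMap e.toLinearMap fun z => e.apply_symm_apply z

end congr

variable {K A : Type} [Field K] [Ring A] [Algebra K A] [FiniteDimensional K A]

theorem ExtUpTo.op {n : ℕ} (h : ExtUpTo A n (DL K A) A) :
    ExtUpTo Aᵐᵒᵖ n (DL K Aᵐᵒᵖ) Aᵐᵒᵖ := by
  have h1 : ExtUpTo Aᵐᵒᵖ n (DR K A) (DR K (DL K A)) := ExtUpTo.dual (K := K) h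
  refine ExtUpTo.congr ?_ ?_ h1
  · exact
      { toFun := fun φ => (show A →ₗ[K] K from φ) ∘ₗ (MulOpposite.opLinearEquiv K).symm.toLinearMap
        invFun := fun φ => (show Aᵐᵒᵖ →ₗ[K] K from φ) ∘ₗ (MulOpposite.opLinearEquiv K).toLinearMap
        map_add' := fun φ ψ => rfl
        map_smul' := fun r φ => rfl
        left_inv := fun φ => rfl
        right_inv := fun φ => rfl }
  · exact
      { toFun := fun Φ => MulOpposite.op ((Module.evalEquiv K A).symm Φ)
        invFun := fun a => Module.evalEquiv K A a.unop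
        map_add' := fun Φ Ψ => congrArg MulOpposite.op ((Module.evalEquiv K A).symm.map_add Φ Ψ)
        map_smul' := fun r Φ => congrArg MulOpposite.op (DualAux.eval_mul r Φ)
        left_inv := fun Φ => (Module.evalEquiv K A).apply_symm_apply Φ
        right_inv := fun a => congrArg MulOpposite.op
          ((Module.evalEquiv K A).symm_apply_apply a.unop) }

theorem two_sided {m n : ℕ} (h : ∀ (A : Type) [Ring A] [Algebra K A] [FiniteDimensional K A],
    Module.finrank K A = m → ExtUpTo A n (DL K A) A → Module.Injective Aᵐᵒᵖ A)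
    (hA : Module.finrank K A = m) (h1 : ExtUpTo A n (DL K A) A) :
    Module.Injective A A ∧ Module.Injective Aᵐᵒᵖ A := by
  refine ⟨?_, h A hA h1⟩
  apply left_injective_of_projective (K := K)
  refine projective_of_right_injective (h Aᵐᵒᵖ ?_ h1.op)
  rw [← hA]
  exact ((MulOpposite.opLinearEquiv K : A ≃ₗ[K] _).finrank_eq).symm

theorem two_sided' {m : ℕ} (h : ∀ (A : Type) [Ring A] [Algebra K A] [FiniteDimensional K A],
    Module.finrank K A = m → ExtZero A (DL K A) A → Module.Injective Aᵐᵒᵖ A)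
    (hA : Module.finrank K A = m) (h1 : ExtZero A (DL K A) A) :
    Module.Injective A A ∧ Module.Injective Aᵐᵒᵖ A := by
  refine ⟨?_, h A hA h1⟩
  apply left_injective_of_projective (K := K)
  refine projective_of_right_injective (h Aᵐᵒᵖ ?_ (extZero_op h1))
  rw [← hA]
  exact ((MulOpposite.opLinearEquiv K : A ≃ₗ[K] _).finrank_eq).symm

end Pool.Agent.Lib.P5dcF
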