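import Mathlib
import Pool.Agent.Lib.P5dcG.DerG
import Pool.Agent.Lib.P5dcG.ResG

/-!
# First extensions and derivations (MP_5dc868_al)
-/

namespace Pool.Agent.Lib.P5dcF

open CategoryTheory Abelian TensorProduct Pool.Agent.Lib.P5dcG

section inn
variable {K A M N : Type} [Field K] [Ring A] [Algebra K A] [AddCommGroup M] [Module K M]
  [Module A M] [IsScalarTower K A M] [AddCommGroup N] [Module K N] [Module A N]
  [IsScalarTower K A N]

/-- the inner derivation defined by `φ` -/
def inn (φ : M →ₗ[K] N) : A →ₗ[K] M →ₗ[K] N :=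
  LinearMap.mk₂ K (fun a v => a • φ v - φ (a • v))
    (fun a a' v => by
      rw [add_smul, add_smul, map_add]
      abel)
    (fun c a v => by rw [smul_assoc, smul_assoc, map_smul, smul_sub])
    (fun a v v' => by
      rw [smul_add, map_add, map_add, smul_add]
      abel)
    (fun c a v => by
      rw [map_smul, smul_comm a c v, map_smul, smul_comm a c (φ v), smul_sub])

omit [IsScalarTower K A N] in
theorem inn_apply [IsScalarTower K A N] (φ : M →ₗ[K] N) (a : A) (v : M) :
    inn φ a v = a • φ v - φ (a • v) := rfl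

/-- the derivation property -/
def IsDer (δ : A →ₗ[K] M →ₗ[K] N) : Prop :=
  ∀ a b v, δ (a * b) v = a • δ b v + δ a (b • v)

theorem inner' (h : Ext1Zero A M N) (δ : A →ₗ[K] M →ₗ[K] N) (hδ : IsDer δ) :
    ∃ φ : M →ₗ[K] N, δ = inn φ := by
  have h1 : ∀ v, δ 1 v = 0 := fun v => by
    have := hδ 1 1 v
    simpa using this
  let D : A ⊗[K] M →ₗ[K] N := TensorProduct.lift δ
  have hD : ∀ (c : A) (z : A ⊗[K] M), D (c • z) = c • D z + δ c (mulMap z) := by
    intro c z
    induction z using TensorProduct.induction_on with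
    | zero => simp
    | tmul a v => simpa [D, TensorProduct.smul_tmul'] using hδ c a v
    | add z w hz hw =>
      rw [smul_add, map_add, hz, hw, map_add, map_add, smul_add, map_add]
      abel
  let f : LinearMap.ker (mulMap : A ⊗[K] M →ₗ[A] M) →ₗ[A] N :=
    { toFun := fun z => D z
      map_add' := fun z w => by simp
      map_smul' := fun c z => by
        have h2 : mulMap (z : A ⊗[K] M) = 0 := z.2
        simp [hD, h2] }
  obtain ⟨g, hg⟩ := h _ mulMap mulMap_surjective f
  let φ : M →ₗ[K] N :=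
    { toFun := fun v => g (1 ⊗ₜ v)
      map_add' := fun v w => by rw [TensorProduct.tmul_add, map_add]
      map_smul' := fun c v => by
        rw [TensorProduct.tmul_smul, RingHom.id_apply]
        have h3 : c • ((1 : A) ⊗ₜ[K] v) = (algebraMap K A c) • ((1 : A) ⊗ₜ[K] v) := by
          rw [algebraMap_smul]
        rw [h3, map_smul, algebraMap_smul] }
  refine ⟨φ, LinearMap.ext fun a => LinearMap.ext fun v => ?_⟩
  rw [inn_apply]
  have h2 : mulMap (a ⊗ₜ[K] v - 1 ⊗ₜ[K] (a • v)) = 0 := by simp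
  have h3 := hg ⟨a ⊗ₜ[K] v - 1 ⊗ₜ[K] (a • v), h2⟩
  have h4 : g (a ⊗ₜ[K] v) = a • φ v := by
    have : a ⊗ₜ[K] v = a • ((1 : A) ⊗ₜ[K] v) := by simp [TensorProduct.smul_tmul']
    rw [this, map_smul]
    rfl
  have h5 : f ⟨a ⊗ₜ[K] v - 1 ⊗ₜ[K] (a • v), h2⟩ = δ a v := by
    simp [f, D, h1]
  rw [h5] at h3
  rw [← h3]
  show g (a ⊗ₜ[K] v - 1 ⊗ₜ[K] (a • v)) = _
  rw [map_sub, h4]
  rfl

/-- vanishing of `Ext^1` from a projective presentation -/
theorem ext1_of_extend {R P X Z : Type} [Ring R] [AddCommGroup P] [Module R P] [AddCommGroup X]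
    [Module R X] [AddCommGroup Z] [Module R Z] [Module.Projective R P] (π : P →ₗ[R] X)
    (hs : Function.Surjective π)
    (h : ∀ f : LinearMap.ker π →ₗ[R] Z, ∃ g : P →ₗ[R] Z, ∀ x : LinearMap.ker π, g x = f x) :
    Subsingleton (Ext (ModuleCat.of R X) (ModuleCat.of R Z) 1) := by
  have hS := LinearMap.shortExact_shortComplexKer hs
  refine subsingleton_of_forall_eq 0 fun x₃ => ?_
  obtain ⟨x₁, hx₁⟩ := Ext.contravariant_sequence_exact₃ hS (ModuleCat.of R Z) x₃
    (n₀ := 0) (Ext.eq_zero_of_projective _) (by omega)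
  obtain ⟨f, rfl⟩ := (Ext.mk₀_bijective _ _).2 x₁
  obtain ⟨g, hg⟩ := h f.hom
  have hfg : f = ModuleCat.ofHom (LinearMap.ker π).subtype ≫ ModuleCat.ofHom g := by
    ext x
    exact (hg x).symm
  rw [← hx₁, hfg, ← Ext.mk₀_comp_mk₀]
  exact hS.extClass_comp_assoc _

theorem ext1_of_inner (h : ∀ δ : A →ₗ[K] M →ₗ[K] N, IsDer δ → ∃ φ : M →ₗ[K] N, δ = inn φ) :
    Subsingleton (Ext (ModuleCat.of A M) (ModuleCat.of A N) 1) := by
  refine ext1_of_extend (mulMap : A ⊗[K] M →ₗ[A] M) mulMap_surjective fun f => ?_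
  let s : M →ₗ[K] A ⊗[K] M := TensorProduct.mk K A M 1
  have hs : ∀ v, (mulMap : A ⊗[K] M →ₗ[A] M) (s v) = v := fun v => by simp [s]
  have hk : ∀ (x : A) (v : M), x • s v - s (x • v) ∈ LinearMap.ker (mulMap : A ⊗[K] M →ₗ[A] M) := by
    intro x v
    rw [LinearMap.mem_ker, map_sub, map_smul, hs, hs, sub_self]
  have hf : ∀ (c : K) (z : LinearMap.ker (mulMap : A ⊗[K] M →ₗ[A] M)) , f (c • z) = c • f z := by
    intro c z
    rw [← algebraMap_smul A c z, map_smul, algebraMap_smul]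
  let δ : A →ₗ[K] M →ₗ[K] N := LinearMap.mk₂ K (fun x v => f ⟨_, hk x v⟩)
    (fun x x' v => by
      rw [← map_add]
      congr 1
      ext1
      show (x + x') • s v - s ((x + x') • v) = (x • s v - s (x • v)) + (x' • s v - s (x' • v))
      rw [add_smul, add_smul, map_add]
      abel)
    (fun c x v => by
      rw [← hf]
      congr 1
      ext1
      show (c • x) • s v - s ((c • x) • v) = c • (x • s v - s (x • v))
      rw [smul_assoc, smul_assoc, map_smul, smul_sub])
    (fun x v v' => by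
      rw [← map_add]
      congr 1
      ext1
      show x • s (v + v') - s (x • (v + v')) = (x • s v - s (x • v)) + (x • s v' - s (x • v'))
      rw [smul_add, map_add, map_add, smul_add]
      abel)
    (fun c x v => by
      rw [← hf]
      congr 1
      ext1
      show x • s (c • v) - s (x • (c • v)) = c • (x • s v - s (x • v))
      rw [map_smul, smul_comm x c v, map_smul, smul_comm x c (s v), smul_sub])
  have hδ : ∀ x v, δ x v = f ⟨_, hk x v⟩ := fun x v => rfl
  have hder : IsDer δ := by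
    intro x y v
    have h1 : (⟨_, hk (x * y) v⟩ : LinearMap.ker (mulMap : A ⊗[K] M →ₗ[A] M)) =
        x • ⟨_, hk y v⟩ + ⟨_, hk x (y • v)⟩ := by
      ext1
      show (x * y) • s v - s ((x * y) • v) =
        x • (y • s v - s (y • v)) + (x • s (y • v) - s (x • (y • v)))
      rw [mul_smul, mul_smul, smul_sub]
      abel
    rw [hδ, hδ, hδ, h1, map_add, map_smul]
  obtain ⟨φ, hφ⟩ := h δ hder
  have hφ' : ∀ x v, f ⟨_, hk x v⟩ = x • φ v - φ (x • v) := fun x v => by
    rw [← hδ, hφ, inn_apply]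
  have hk' : ∀ p : A ⊗[K] M, p - s (mulMap p) ∈ LinearMap.ker (mulMap : A ⊗[K] M →ₗ[A] M) := by
    intro p
    rw [LinearMap.mem_ker, map_sub, hs, sub_self]
  refine ⟨{ toFun := fun p => f ⟨_, hk' p⟩ + φ (mulMap p), map_add' := ?_, map_smul' := ?_ }, ?_⟩
  · intro p q
    have h1 : (⟨_, hk' (p + q)⟩ : LinearMap.ker (mulMap : A ⊗[K] M →ₗ[A] M)) =
        ⟨_, hk' p⟩ + ⟨_, hk' q⟩ := by
      ext1
      show p + q - s (mulMap (p + q)) = (p - s (mulMap p)) + (q - s (mulMap q))
      rw [map_add, map_add]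
      abel
    rw [h1, map_add, map_add, map_add]
    abel
  · intro x p
    have h1 : (⟨_, hk' (x • p)⟩ : LinearMap.ker (mulMap : A ⊗[K] M →ₗ[A] M)) =
        x • ⟨_, hk' p⟩ + ⟨_, hk x (mulMap p)⟩ := by
      ext1
      show x • p - s (mulMap (x • p)) =
        x • (p - s (mulMap p)) + (x • s (mulMap p) - s (x • mulMap p))
      rw [map_smul, smul_sub]
      abel
    have h2 : (mulMap : A ⊗[K] M →ₗ[A] M) (x • p) = x • mulMap p := map_smul _ _ _
    rw [h1, map_add, map_smul, hφ', RingHom.id_apply, smul_add, h2]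
    abel
  · intro p
    have hp : (mulMap : A ⊗[K] M →ₗ[A] M) p = 0 := p.2
    show f ⟨_, hk' p⟩ + φ (mulMap (p : A ⊗[K] M)) = f p
    have h1 : (⟨_, hk' p⟩ : LinearMap.ker (mulMap : A ⊗[K] M →ₗ[A] M)) = p := by
      ext1
      show (p : A ⊗[K] M) - s (mulMap (p : A ⊗[K] M)) = p
      rw [hp, map_zero, sub_zero]
    rw [h1, hp, map_zero, add_zero]

/-- `Ext^1(M, N) = 0` iff all derivations are inner -/
theorem ext1_iff :
    Subsingleton (Ext (ModuleCat.of A M) (ModuleCat.of A N) 1) ↔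
      ∀ δ : A →ₗ[K] M →ₗ[K] N, IsDer δ → ∃ φ : M →ₗ[K] N, δ = inn φ :=
  ⟨fun h δ hδ => inner' (Ext1Zero.of_ext h) δ hδ, ext1_of_inner⟩

/-- dimension shift, converse -/
theorem ext_shift' {R P Y X Z : Type} [Ring R] [AddCommGroup P] [Module R P] [AddCommGroup Y]
    [Module R Y] [AddCommGroup X] [Module R X] [AddCommGroup Z] [Module R Z]
    [Module.Projective R P] {ι : Y →ₗ[R] P} {π : P →ₗ[R] X}
    (hi : Function.Injective ι) (hs : Function.Surjective π)
    (hex : ∀ p, π p = 0 ↔ ∃ y, ι y = p) (j : ℕ)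
    (h : Subsingleton (Ext (ModuleCat.of R Y) (ModuleCat.of R Z) (j + 1))) :
    Subsingleton (Ext (ModuleCat.of R X) (ModuleCat.of R Z) (j + 2)) := by
  have hS := sc_exact hi hs hex
  have hproj : Projective (sc ι π hex).X₂ :=
    (IsProjective.iff_projective (R := R) P).1 inferInstance
  refine subsingleton_of_forall_eq 0 fun x₃ => ?_
  obtain ⟨x₁, hx₁⟩ := Ext.contravariant_sequence_exact₃ hS (ModuleCat.of R Z) x₃
    (n₀ := j + 1) (Ext.eq_zero_of_projective _) (by omega)
  have h1 : x₁ = 0 := @Subsingleton.elim _ h _ _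
  rw [← hx₁, h1, Ext.comp_zero]

end inn

end Pool.Agent.Lib.P5dcF
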