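import Mathlib
import Pool.Agent.Lib.P5dcF.Mat
import Pool.Agent.Lib.P5dcF.Inn

/-!
# Coordinates (MP_5dc868_al)
-/

namespace Pool.Agent.Lib.P5dcF

open Matrix Module CategoryTheory Abelian

section cert
variable {K : Type} [Field K] {X Y Z : Type} [Fintype X] [DecidableEq X] [Fintype Y]
  [DecidableEq Y] [Fintype Z] [DecidableEq Z]

theorem factor {V V' U : Type} [AddCommGroup V] [Module K V] [AddCommGroup V'] [Module K V']
    [AddCommGroup U] [Module K U] (q : V →ₗ[K] V') (g : V →ₗ[K] U)
    (h : ∀ v, q v = 0 → g v = 0) : ∃ h' : V' →ₗ[K] U, ∀ v, h' (q v) = g v := by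
  obtain ⟨r, hr⟩ := q.rangeRestrict.exists_rightInverse_of_surjective (by simp)
  obtain ⟨h', hh'⟩ := LinearMap.exists_extend (g ∘ₗ r)
  refine ⟨h', fun v => ?_⟩
  have h1 : h' (q v) = g (r (q.rangeRestrict v)) := LinearMap.congr_fun hh' (q.rangeRestrict v)
  have h2 : q.rangeRestrict (r (q.rangeRestrict v)) = q.rangeRestrict v :=
    LinearMap.congr_fun hr (q.rangeRestrict v)
  have h3 : q (r (q.rangeRestrict v)) = q v := congrArg Subtype.val h2
  have h4 := h (r (q.rangeRestrict v) - v) (by rw [map_sub, h3, sub_self])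
  rw [h1, ← sub_eq_zero, ← map_sub, h4]

theorem cert_iff (P : Matrix X Y K) (Q : Matrix Z X K) :
    (∃ (H : Matrix Y X K) (H' : Matrix X Z K), P * H + H' * Q = 1) ↔
      ∀ D, Q *ᵥ D = 0 → ∃ Φ, P *ᵥ Φ = D := by
  constructor
  · rintro ⟨H, H', h⟩ D hD
    refine ⟨H *ᵥ D, ?_⟩
    have h1 := congrArg (· *ᵥ D) h
    simp only [Matrix.add_mulVec, ← Matrix.mulVec_mulVec, hD, Matrix.mulVec_zero, add_zero,
      Matrix.one_mulVec] at h1
    exact h1
  · intro h
    let p := Matrix.toLin' P
    let q := Matrix.toLin' Q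
    obtain ⟨pr, hpr⟩ := (LinearMap.ker q).subtype.exists_leftInverse_of_injective (by simp)
    have hle : LinearMap.ker q ≤ LinearMap.range p := by
      intro D hD
      obtain ⟨Φ, hΦ⟩ := h D (by simpa [q] using hD)
      exact ⟨Φ, by simpa [p] using hΦ⟩
    obtain ⟨r, hr⟩ := p.rangeRestrict.exists_rightInverse_of_surjective (by simp)
    have hpr' : ∀ w : LinearMap.ker q, pr w = w := fun w => LinearMap.congr_fun hpr w
    have hr' : ∀ w : LinearMap.range p, p (r w) = w := fun w =>
      congrArg Subtype.val (LinearMap.congr_fun hr w)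
    let hh : (X → K) →ₗ[K] (Y → K) := r ∘ₗ Submodule.inclusion hle ∘ₗ pr
    have h1 : ∀ v, p (hh v) = pr v := fun v => hr' _
    obtain ⟨h', hh'⟩ := factor q (LinearMap.id - (LinearMap.ker q).subtype ∘ₗ pr) (by
      intro v hv
      have := hpr' ⟨v, hv⟩
      show v - (pr v : X → K) = 0
      rw [this, sub_self])
    refine ⟨LinearMap.toMatrix' hh, LinearMap.toMatrix' h', ?_⟩
    apply Matrix.toLin'.injective
    refine LinearMap.ext fun v => ?_
    have h3 : p (hh v) + h' (q v) = v := by
      rw [h1, hh']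
      show (pr v : X → K) + (v - (pr v : X → K)) = v
      abel
    rw [map_add, Matrix.toLin'_mul, Matrix.toLin'_mul, Matrix.toLin'_toMatrix',
      Matrix.toLin'_toMatrix', Matrix.toLin'_one]
    exact h3

end cert

variable {m : ℕ} {K A M N : Type} [Field K] [Ring A] [Algebra K A] [AddCommGroup M] [Module K M]
  [Module A M] [IsScalarTower K A M] [AddCommGroup N] [Module K N] [Module A N]
  [IsScalarTower K A N] {J J' : Type} [Fintype J] [DecidableEq J] [Fintype J'] [DecidableEq J']

/-- `c` are the structure constants of `A` with respect to the basis `a` -/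
def HasSC (a : Basis (Fin (m + 1)) K A) (c : SC m K) : Prop :=
  a 0 = 1 ∧ ∀ k l r, a.repr (a k * a l) r = c k l r

/-- `ρ k` is the matrix of `a k` on `M` with respect to the basis `b` -/
def HasMat (a : Basis (Fin (m + 1)) K A) (b : Basis J K M) (ρ : RP m J K) : Prop :=
  ∀ k i j, b.repr (a k • b j) i = ρ k i j

variable {a : Basis (Fin (m + 1)) K A} {c : SC m K} {b : Basis J K M} {ρ : RP m J K}
  {b' : Basis J' K N} {σ : RP m J' K}

theorem HasMat.smul (h : HasMat a b ρ) (k : Fin (m + 1)) (j : J) :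
    a k • b j = ∑ i, ρ k i j • b i := by
  conv_lhs => rw [← b.sum_repr (a k • b j)]
  exact Finset.sum_congr rfl fun i _ => by rw [h]

theorem HasMat.repr_smul (h : HasMat a b ρ) (k : Fin (m + 1)) (v : M) (i : J) :
    b.repr (a k • v) i = ∑ j, ρ k i j * b.repr v j := by
  conv_lhs => rw [← b.sum_repr v, Finset.smul_sum, map_sum, Finsupp.finset_sum_apply]
  refine Finset.sum_congr rfl fun j _ => ?_
  rw [smul_comm, map_smul, Finsupp.smul_apply, h, smul_eq_mul, mul_comm]

theorem HasSC.mul (h : HasSC a c) (k l : Fin (m + 1)) : a k * a l = ∑ r, c k l r • a r := by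
  conv_lhs => rw [← a.sum_repr (a k * a l)]
  exact Finset.sum_congr rfl fun i _ => by rw [h.2]

theorem HasSC.hasMat (h : HasSC a c) : HasMat a a (lam c) := fun k i j => by
  rw [smul_eq_mul, h.2]
  rfl

theorem HasSC.isAlg (h : HasSC a c) : IsAlg c := by
  refine ⟨fun l r => ?_, fun l r => ?_, fun i j k s => ?_⟩
  · rw [← h.2, h.1, one_mul, a.repr_self_apply]
  · rw [← h.2, h.1, mul_one, a.repr_self_apply]
  · have h1 : a.repr (a i * a j * a k) s = ∑ r, c i j r * c r k s := by
      rw [h.mul i j, Finset.sum_mul, map_sum, Finsupp.finset_sum_apply]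
      refine Finset.sum_congr rfl fun r _ => ?_
      rw [smul_mul_assoc, map_smul, Finsupp.smul_apply, h.2, smul_eq_mul]
    have h2 : a.repr (a i * (a j * a k)) s = ∑ r, c j k r * c i r s := by
      rw [h.mul j k, Finset.mul_sum, map_sum, Finsupp.finset_sum_apply]
      refine Finset.sum_congr rfl fun r _ => ?_
      rw [mul_smul_comm, map_smul, Finsupp.smul_apply, h.2, smul_eq_mul]
    rw [← h1, ← h2, mul_assoc]

theorem HasMat.isRep (hc : HasSC a c) (h : HasMat a b ρ) : IsRep c ρ := by
  refine ⟨?_, fun k l => ?_⟩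
  · ext i j
    rw [← h, hc.1, one_smul, b.repr_self_apply, Matrix.one_apply]
    simp [eq_comm]
  · ext i j
    have h1 : (ρ k * ρ l) i j = b.repr (a k • a l • b j) i := by
      rw [h.repr_smul, Matrix.mul_apply]
      exact Finset.sum_congr rfl fun t _ => by rw [h]
    rw [h1, ← mul_smul, hc.mul, Finset.sum_smul, map_sum, Finsupp.finset_sum_apply,
      Matrix.sum_apply]
    refine Finset.sum_congr rfl fun r _ => ?_
    rw [smul_assoc, map_smul, Finsupp.smul_apply, h]
    rfl

/-- coordinates of a linear map -/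
noncomputable def co1 (b : Basis J K M) (b' : Basis J' K N) (φ : M →ₗ[K] N) : J' × J → K :=
  fun y => b'.repr (φ (b y.2)) y.1

/-- coordinates of a bilinear map -/
noncomputable def co2 (a : Basis (Fin (m + 1)) K A) (b : Basis J K M) (b' : Basis J' K N)
    (δ : A →ₗ[K] M →ₗ[K] N) : Fin (m + 1) × J' × J → K :=
  fun x => b'.repr (δ (a x.1) (b x.2.2)) x.2.1

omit [Fintype J] [DecidableEq J] [DecidableEq J'] in
theorem co1_surjective (Φ : J' × J → K) : ∃ φ, co1 b b' φ = Φ := by
  refine ⟨b.constr K fun q => ∑ p, Φ (p, q) • b' p, ?_⟩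
  funext y
  rw [co1, Basis.constr_basis]
  exact congrFun (b'.repr_sum_self fun p => Φ (p, y.2)) y.1

omit [Fintype J] [DecidableEq J] [DecidableEq J'] in
theorem co2_surjective (D : Fin (m + 1) × J' × J → K) : ∃ δ, co2 a b b' δ = D := by
  refine ⟨a.constr K fun k => b.constr K fun q => ∑ p, D (k, p, q) • b' p, ?_⟩
  funext y
  rw [co2, Basis.constr_basis, Basis.constr_basis]
  exact congrFun (b'.repr_sum_self fun p => D (y.1, p, y.2.2)) y.2.1

omit [Fintype J] [DecidableEq J] [Fintype J'] [DecidableEq J'] in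
theorem co2_injective {δ δ' : A →ₗ[K] M →ₗ[K] N} (h : co2 a b b' δ = co2 a b b' δ') :
    δ = δ' :=
  a.ext fun k => b.ext fun q => b'.repr.injective (Finsupp.ext fun p => congrFun h (k, p, q))

theorem M1_co (hb : HasMat a b ρ) (hb' : HasMat a b' σ) (φ : M →ₗ[K] N) :
    M1 ρ σ *ᵥ co1 b b' φ = co2 a b b' (inn φ) := by
  funext ⟨k, p, q⟩
  have h1 : b'.repr (a k • φ (b q)) p = ∑ t, σ k p t * b'.repr (φ (b q)) t := hb'.repr_smul k _ p
  have h2 : b'.repr (φ (a k • b q)) p = ∑ t, ρ k t q * b'.repr (φ (b t)) p := by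
    rw [hb.smul, map_sum, map_sum, Finsupp.finset_sum_apply]
    refine Finset.sum_congr rfl fun t _ => ?_
    rw [map_smul, map_smul, Finsupp.smul_apply, smul_eq_mul]
  show ∑ y, M1 ρ σ (k, p, q) y * co1 b b' φ y = b'.repr (inn φ (a k) (b q)) p
  rw [inn_apply, map_sub, Finsupp.sub_apply, h1, h2, Fintype.sum_prod_type]
  simp only [M1, co1, Matrix.of_apply, sub_mul, ite_mul, zero_mul, Finset.sum_sub_distrib,
    Finset.sum_ite_eq, Finset.sum_ite_eq', Finset.mem_univ, if_true]
  congr 1
  rw [Finset.sum_comm]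
  simp

theorem M2_co (hc : HasSC a c) (hb : HasMat a b ρ) (hb' : HasMat a b' σ)
    (δ : A →ₗ[K] M →ₗ[K] N) (k l : Fin (m + 1)) (p : J') (q : J) :
    (M2 c ρ σ *ᵥ co2 a b b' δ) (k, l, p, q) =
      b'.repr (a k • δ (a l) (b q) + δ (a k) (a l • b q) - δ (a k * a l) (b q)) p := by
  have h1 : b'.repr (a k • δ (a l) (b q)) p = ∑ t, σ k p t * b'.repr (δ (a l) (b q)) t :=
    hb'.repr_smul k _ p
  have h2 : b'.repr (δ (a k) (a l • b q)) p = ∑ t, ρ l t q * b'.repr (δ (a k) (b t)) p := by
    rw [hb.smul, map_sum, map_sum, Finsupp.finset_sum_apply]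
    refine Finset.sum_congr rfl fun t _ => ?_
    rw [map_smul, map_smul, Finsupp.smul_apply, smul_eq_mul]
  have h3 : b'.repr (δ (a k * a l) (b q)) p = ∑ t, c k l t * b'.repr (δ (a t) (b q)) p := by
    rw [hc.mul, map_sum, LinearMap.sum_apply, map_sum, Finsupp.finset_sum_apply]
    refine Finset.sum_congr rfl fun t _ => ?_
    rw [map_smul, LinearMap.smul_apply, map_smul, Finsupp.smul_apply, smul_eq_mul]
  rw [map_sub, map_add, Finsupp.sub_apply, Finsupp.add_apply, h1, h2, h3]
  show ∑ y, M2 c ρ σ (k, l, p, q) y * co2 a b b' δ y = _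
  simp only [M2, co2, Matrix.of_apply, sub_mul, add_mul, ite_mul, zero_mul,
    Finset.sum_sub_distrib, Finset.sum_add_distrib]
  congr 1
  · congr 1
    · rw [Fintype.sum_prod_type, Finset.sum_eq_single l, Fintype.sum_prod_type]
      · refine Finset.sum_congr rfl fun t _ => ?_
        rw [Finset.sum_eq_single q] <;> simp +contextual
      · intro x _ hx
        simp [hx]
      · simp
    · rw [Fintype.sum_prod_type, Finset.sum_eq_single k, Fintype.sum_prod_type,
        Finset.sum_eq_single p]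
      · simp
      · intro x _ hx
        simp [hx]
      · simp
      · intro x _ hx
        simp [hx]
      · simp
  · rw [Fintype.sum_prod_type]
    refine Finset.sum_congr rfl fun t _ => ?_
    rw [Fintype.sum_prod_type, Finset.sum_eq_single p, Finset.sum_eq_single q]
    · simp
    · intro x _ hx
      simp [hx]
    · simp
    · intro x _ hx
      simp [hx]
    · simp

theorem isDer_iff (δ : A →ₗ[K] M →ₗ[K] N) :
    IsDer δ ↔ ∀ k l q, δ (a k * a l) (b q) = a k • δ (a l) (b q) + δ (a k) (a l • b q) := by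
  constructor
  · exact fun h k l q => h _ _ _
  · intro h
    have h1 : ∀ k l v, δ (a k * a l) v = a k • δ (a l) v + δ (a k) (a l • v) := by
      intro k l v
      refine Submodule.span_induction
        (p := fun v _ => δ (a k * a l) v = a k • δ (a l) v + δ (a k) (a l • v)) ?_ ?_ ?_ ?_
        (b.mem_span v)
      · rintro _ ⟨q, rfl⟩
        exact h k l q
      · simp
      · intro x y _ _ hx hy
        rw [map_add, hx, hy, map_add, smul_add, smul_add, map_add]
        abel
      · intro t x _ hx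
        rw [map_smul (δ (a k * a l)) t x, hx, smul_add, map_smul (δ (a l)) t x,
          smul_comm (a k) t, smul_comm (a l) t, map_smul (δ (a k)) t (a l • x)]
    have h2 : ∀ k y v, δ (a k * y) v = a k • δ y v + δ (a k) (y • v) := by
      intro k y v
      refine Submodule.span_induction
        (p := fun y _ => δ (a k * y) v = a k • δ y v + δ (a k) (y • v)) ?_ ?_ ?_ ?_
        (a.mem_span y)
      · rintro _ ⟨l, rfl⟩
        exact h1 k l v
      · simp
      · intro x y _ _ hx hy
        rw [mul_add, map_add, LinearMap.add_apply, hx, hy, map_add, LinearMap.add_apply, smul_add,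
          add_smul, map_add]
        abel
      · intro t x _ hx
        rw [mul_smul_comm, map_smul δ t (a k * x), LinearMap.smul_apply, hx, smul_add,
          map_smul δ t x, LinearMap.smul_apply, smul_comm (a k) t, smul_assoc t x v,
          map_smul (δ (a k)) t (x • v)]
    intro x y v
    refine Submodule.span_induction
      (p := fun x _ => δ (x * y) v = x • δ y v + δ x (y • v)) ?_ ?_ ?_ ?_ (a.mem_span x)
    · rintro _ ⟨k, rfl⟩
      exact h2 k y v
    · simp
    · intro x x' _ _ hx hx'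
      rw [add_mul, map_add, LinearMap.add_apply, hx, hx', map_add, LinearMap.add_apply, add_smul]
      abel
    · intro t x _ hx
      rw [smul_mul_assoc, map_smul δ t (x * y), LinearMap.smul_apply, hx, smul_add,
        map_smul δ t x, LinearMap.smul_apply, smul_assoc t x]

theorem M2_iff (hc : HasSC a c) (hb : HasMat a b ρ) (hb' : HasMat a b' σ)
    (δ : A →ₗ[K] M →ₗ[K] N) : M2 c ρ σ *ᵥ co2 a b b' δ = 0 ↔ IsDer δ := by
  rw [isDer_iff (a := a) (b := b)]
  constructor
  · intro h k l q
    have h1 : b'.repr (a k • δ (a l) (b q) + δ (a k) (a l • b q) - δ (a k * a l) (b q)) = 0 := by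
      ext p
      rw [← M2_co hc hb hb', h]
      rfl
    have h2 := b'.repr.map_eq_zero_iff.1 h1
    exact (sub_eq_zero.1 h2).symm
  · intro h
    funext ⟨k, l, p, q⟩
    rw [M2_co hc hb hb', h, sub_self, map_zero]
    rfl

/-- `Ext^1` in coordinates -/
theorem ext1_iff_Ex (hc : HasSC a c) (hb : HasMat a b ρ) (hb' : HasMat a b' σ) :
    Subsingleton (Ext (ModuleCat.of A M) (ModuleCat.of A N) 1) ↔ Ex c ρ σ := by
  rw [ext1_iff (K := K), Ex, cert_iff]
  constructor
  · intro h D hD
    obtain ⟨δ, rfl⟩ := co2_surjective (a := a) (b := b) (b' := b') D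
    obtain ⟨φ, rfl⟩ := h δ ((M2_iff hc hb hb' δ).1 hD)
    exact ⟨co1 b b' φ, M1_co hb hb' φ⟩
  · intro h δ hδ
    obtain ⟨Φ, hΦ⟩ := h _ ((M2_iff hc hb hb' δ).2 hδ)
    obtain ⟨φ, rfl⟩ := co1_surjective (b := b) (b' := b') Φ
    rw [M1_co hb hb' φ] at hΦ
    exact ⟨φ, (co2_injective hΦ).symm⟩

end Pool.Agent.Lib.P5dcF
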