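import Mathlib
import Pool.Agent.Lib.P5dcF.Co
import Pool.Agent.Lib.P5dc868.Defs

/-!
# Realization of structure constants and matrices (MP_5dc868_al)
-/

namespace Pool.Agent.Lib.P5dcF

open Matrix Module Pool.Agent.Lib.P5dc868

variable {m : ℕ} {K : Type} [Field K]

theorem IsAlg.lam_isRep {c : SC m K} (h : IsAlg c) : IsRep c (lam c) := by
  refine ⟨?_, fun k l => ?_⟩
  · ext r l
    show c 0 l r = _
    rw [h.1, Matrix.one_apply]
    exact if_congr eq_comm rfl rfl
  · ext s j
    rw [Matrix.mul_apply, Matrix.sum_apply]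
    show ∑ t, c k t s * c l j t = ∑ r, c k l r * c r j s
    rw [h.2.2 k l j s]
    exact Finset.sum_congr rfl fun t _ => mul_comm _ _

/-- an algebra with given structure constants -/
theorem exists_alg {c : SC m K} (h : IsAlg c) :
    ∃ (A : Type) (_ : Ring A) (_ : Algebra K A) (a : Basis (Fin (m + 1)) K A), HasSC a c := by
  have hrep := h.lam_isRep
  have hli : LinearIndependent K (lam c) := by
    let f : Matrix (Fin (m + 1)) (Fin (m + 1)) K →ₗ[K] (Fin (m + 1) → K) :=
      { toFun := fun X r => X r 0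
        map_add' := fun _ _ => rfl
        map_smul' := fun _ _ => rfl }
    refine LinearIndependent.of_comp f ?_
    have h1 : f ∘ lam c = Pi.basisFun K (Fin (m + 1)) := by
      funext k r
      show c k 0 r = _
      rw [h.2.1, Pi.basisFun_apply, Pi.single_apply]
      exact if_congr eq_comm rfl rfl
    rw [h1]
    exact (Pi.basisFun K (Fin (m + 1))).linearIndependent
  let W := Submodule.span K (Set.range (lam c))
  have hmem : ∀ k, lam c k ∈ W := fun k => Submodule.subset_span ⟨k, rfl⟩
  have hWW : W * W ≤ W := by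
    rw [Submodule.span_mul_span, Submodule.span_le]
    rintro _ ⟨_, ⟨k, rfl⟩, _, ⟨l, rfl⟩, rfl⟩
    show lam c k * lam c l ∈ W
    rw [hrep.2]
    exact Submodule.sum_mem _ fun r _ => Submodule.smul_mem _ _ (hmem r)
  let S : Subalgebra K (Matrix (Fin (m + 1)) (Fin (m + 1)) K) :=
    { carrier := W
      mul_mem' := fun {x y} hx hy => hWW (Submodule.mul_mem_mul hx hy)
      add_mem' := fun {x y} hx hy => W.add_mem hx hy
      algebraMap_mem' := fun t => by
        rw [Algebra.algebraMap_eq_smul_one]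
        refine W.smul_mem _ ?_
        rw [← hrep.1]
        exact hmem 0 }
  let e : W ≃ₗ[K] S :=
    { toFun := fun x => ⟨x.1, x.2⟩
      invFun := fun x => ⟨x.1, x.2⟩
      map_add' := fun _ _ => rfl
      map_smul' := fun _ _ => rfl
      left_inv := fun _ => rfl
      right_inv := fun _ => rfl }
  let a : Basis (Fin (m + 1)) K S := (Basis.span hli).map e
  have ha : ∀ k, (a k : Matrix (Fin (m + 1)) (Fin (m + 1)) K) = lam c k := fun k =>
    congrArg Subtype.val (Basis.span_apply hli k)
  refine ⟨S, inferInstance, inferInstance, a, ?_, fun k l r => ?_⟩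
  · ext1
    rw [ha]
    exact hrep.1
  · have h1 : a k * a l = ∑ r, c k l r • a r := by
      apply Subtype.ext
      have h2 : ((∑ r, c k l r • a r : S) : Matrix (Fin (m + 1)) (Fin (m + 1)) K) =
          ∑ r, c k l r • (a r : Matrix (Fin (m + 1)) (Fin (m + 1)) K) := by
        rw [AddSubmonoidClass.coe_finset_sum]
        rfl
      rw [h2]
      show (a k : Matrix (Fin (m + 1)) (Fin (m + 1)) K) * (a l : Matrix _ _ K) = _
      rw [ha, ha, hrep.2]
      exact Finset.sum_congr rfl fun r _ => by rw [ha]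
    rw [h1, a.repr_sum_self]

variable {A : Type} [Ring A] [Algebra K A] {J : Type} [Fintype J] [DecidableEq J]

/-- a module with given matrices -/
theorem exists_mod (a : Basis (Fin (m + 1)) K A) {c : SC m K} (hc : HasSC a c) {ρ : RP m J K}
    (h : IsRep c ρ) :
    ∃ (M : Type) (_ : AddCommGroup M) (_ : Module K M) (_ : Module A M) (_ : IsScalarTower K A M)
      (b : Basis J K M), HasMat a b ρ := by
  let Φ : A →ₗ[K] Matrix J J K := a.constr K ρ
  have hΦ : ∀ k, Φ (a k) = ρ k := fun k => a.constr_basis K ρ k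
  have h1 : Φ 1 = 1 := by rw [← hc.1, hΦ, h.1]
  have h2 : (LinearMap.mul K A).compr₂ Φ = (LinearMap.mul K (Matrix J J K)).compl₁₂ Φ Φ := by
    refine a.ext fun k => a.ext fun l => ?_
    show Φ (a k * a l) = Φ (a k) * Φ (a l)
    rw [hc.mul, map_sum, hΦ, hΦ, h.2]
    exact Finset.sum_congr rfl fun r _ => by rw [map_smul, hΦ]
  let Φ' : A →ₐ[K] Matrix J J K := AlgHom.ofLinearMap Φ h1
    (fun x y => LinearMap.congr_fun (LinearMap.congr_fun h2 x) y)
  let Ψ : A →ₐ[K] Module.End K (J → K) := (Matrix.toLinAlgEquiv' : _ ≃ₐ[K] _).toAlgHom.comp Φ'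
  letI : Module A (J → K) := Module.compHom (J → K) (Ψ : A →+* Module.End K (J → K))
  have hsm : ∀ (x : A) (v : J → K), x • v = Φ x *ᵥ v := fun x v => rfl
  refine ⟨J → K, inferInstance, inferInstance, inferInstance, ⟨fun t x v => ?_⟩,
    Pi.basisFun K J, fun k i j => ?_⟩
  · rw [hsm, hsm, map_smul, Matrix.smul_mulVec]
  · rw [hsm, hΦ, Pi.basisFun_repr, Pi.basisFun_apply, Matrix.mulVec_single_one]
    rfl

/-- the dual basis -/
noncomputable def dlb (a : Basis (Fin (m + 1)) K A) : Basis (Fin (m + 1)) K (DL K A) :=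
  (a.dualBasis : Basis (Fin (m + 1)) K (Dual K A))

theorem dlb_repr (a : Basis (Fin (m + 1)) K A) (φ : DL K A) (j : Fin (m + 1)) :
    (dlb a).repr φ j = φ (a j) := a.dualBasis_repr _ _

theorem dlb_apply (a : Basis (Fin (m + 1)) K A) (s : Fin (m + 1)) (x : A) :
    dlb a s x = a.repr x s := a.dualBasis_apply _ _

theorem hasMat_dua (a : Basis (Fin (m + 1)) K A) {c : SC m K} (hc : HasSC a c) :
    HasMat a (dlb a) (dua c) := by
  intro k j s
  rw [dlb_repr, DL.smul_apply, dlb_apply, hc.2]
  rfl

/-- a basis starting with `1` -/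
theorem exists_basis (h : Module.finrank K A = m + 1) :
    ∃ a : Basis (Fin (m + 1)) K A, a 0 = 1 := by
  have hfin : FiniteDimensional K A := FiniteDimensional.of_finrank_pos (by omega)
  have hnt : Nontrivial A := Module.nontrivial_of_finrank_pos (R := K) (by omega)
  obtain ⟨N, hN⟩ := Submodule.exists_isCompl (Submodule.span K {(1 : A)})
  have hN' : Module.finrank K N = m := by
    have h1 := Submodule.finrank_add_eq_of_isCompl hN
    rw [finrank_span_singleton one_ne_zero, h] at h1
    omega
  let b : Basis (Fin m) K N := Module.finBasisOfFinrankEq K N hN'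
  refine ⟨Basis.mkFinCons 1 b ?_ ?_, ?_⟩
  · intro t x hx h1
    have h2 : t • (1 : A) ∈ Submodule.span K {(1 : A)} ⊓ N := by
      refine ⟨Submodule.smul_mem _ _ (Submodule.mem_span_singleton_self _), ?_⟩
      rw [eq_neg_of_add_eq_zero_left h1]
      exact N.neg_mem hx
    rw [hN.inf_eq_bot, Submodule.mem_bot] at h2
    exact (smul_eq_zero.1 h2).resolve_right one_ne_zero
  · intro z
    have h1 : z ∈ Submodule.span K {(1 : A)} ⊔ N := by
      rw [hN.sup_eq_top]
      trivial
    obtain ⟨y, hy, x, hx, rfl⟩ := Submodule.mem_sup.1 h1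
    obtain ⟨t, rfl⟩ := Submodule.mem_span_singleton.1 hy
    refine ⟨-t, ?_⟩
    have h2 : t • (1 : A) + x + -t • (1 : A) = x := by
      rw [neg_smul]
      abel
    rw [h2]
    exact hx
  · rw [Basis.coe_mkFinCons]
    rfl

end Pool.Agent.Lib.P5dcF
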