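import Mathlib
import Pool.Agent.Lib.P5dcF.Co

/-!
# Syzygies in coordinates (MP_5dc868_al)
-/

namespace Pool.Agent.Lib.P5dcF

open Matrix Module CategoryTheory Abelian

variable {m : ℕ} {K A M : Type} [Field K] [Ring A] [Algebra K A] [AddCommGroup M] [Module K M]
  [Module A M] [IsScalarTower K A M] {J : Type} [Fintype J] [DecidableEq J]

section cov
variable (A) (b : Basis J K M)

/-- the free cover of `M` -/
noncomputable def cov : (J → A) →ₗ[A] M := Fintype.linearCombination A (fun j => b j)

/-- the canonical section -/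
noncomputable def sec : M →ₗ[K] (J → A) :=
  LinearMap.pi fun j => (Algebra.linearMap K A) ∘ₗ (b.coord j)

omit [DecidableEq J] in
theorem cov_apply (f : J → A) : cov A b f = ∑ j, f j • b j := by
  simp [cov, Fintype.linearCombination_apply]

omit [IsScalarTower K A M] [Module A M] [Fintype J] [DecidableEq J] in
theorem sec_apply (v : M) (j : J) : sec A b v j = algebraMap K A (b.repr v j) := rfl

omit [DecidableEq J] in
theorem cov_sec (v : M) : cov A b (sec A b v) = v := by
  rw [cov_apply]
  conv_rhs => rw [← b.sum_repr v]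
  exact Finset.sum_congr rfl fun j _ => by rw [sec_apply, algebraMap_smul]

omit [DecidableEq J] in
theorem cov_surjective : Function.Surjective (cov A b) := fun v => ⟨_, cov_sec A b v⟩

/-- the first syzygy -/
abbrev Om : Type := LinearMap.ker (cov A b)

/-- the canonical derivation -/
noncomputable def can : A →ₗ[K] M →ₗ[K] Om A b :=
  LinearMap.mk₂ K (fun x v => ⟨x • sec A b v - sec A b (x • v), by
      rw [LinearMap.mem_ker, map_sub, map_smul, cov_sec, cov_sec, sub_self]⟩)
    (fun x x' v => by
      ext1
      show (x + x') • sec A b v - sec A b ((x + x') • v) =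
        (x • sec A b v - sec A b (x • v)) + (x' • sec A b v - sec A b (x' • v))
      rw [add_smul, add_smul, map_add]
      abel)
    (fun c x v => by
      ext1
      show (c • x) • sec A b v - sec A b ((c • x) • v) = c • (x • sec A b v - sec A b (x • v))
      rw [smul_assoc, smul_assoc, map_smul, smul_sub])
    (fun x v v' => by
      ext1
      show x • sec A b (v + v') - sec A b (x • (v + v')) =
        (x • sec A b v - sec A b (x • v)) + (x • sec A b v' - sec A b (x • v'))
      rw [smul_add, map_add, map_add, smul_add]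
      abel)
    (fun c x v => by
      ext1
      show x • sec A b (c • v) - sec A b (x • (c • v)) = c • (x • sec A b v - sec A b (x • v))
      rw [map_smul, smul_comm x c v, map_smul, smul_comm x c (sec A b v), smul_sub])

omit [DecidableEq J] in
theorem can_apply (x : A) (v : M) :
    (can A b x v : J → A) = x • sec A b v - sec A b (x • v) := rfl

omit [DecidableEq J] in
theorem can_der : IsDer (can A b) := by
  intro x y v
  ext1
  show (x * y) • sec A b v - sec A b ((x * y) • v) =
    x • (y • sec A b v - sec A b (y • v)) + (x • sec A b (y • v) - sec A b (x • (y • v)))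
  rw [mul_smul, mul_smul, smul_sub]
  abel

omit [DecidableEq J] in
/-- projectivity and the canonical derivation -/
theorem projective_iff : Module.Projective A M ↔ ∃ φ : M →ₗ[K] Om A b, can A b = inn φ := by
  constructor
  · intro h
    obtain ⟨s, hs⟩ := Module.projective_lifting_property (cov A b) LinearMap.id
      (cov_surjective A b)
    have hs' : ∀ v, cov A b (s v) = v := fun v => LinearMap.congr_fun hs v
    let φ : M →ₗ[K] Om A b :=
      { toFun := fun v => ⟨sec A b v - s v, by
          rw [LinearMap.mem_ker, map_sub, cov_sec, hs', sub_self]⟩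
        map_add' := fun v w => by
          ext1
          show sec A b (v + w) - s (v + w) = (sec A b v - s v) + (sec A b w - s w)
          rw [map_add, map_add]
          abel
        map_smul' := fun c v => by
          ext1
          show sec A b (c • v) - s (c • v) = c • (sec A b v - s v)
          rw [map_smul, ← algebraMap_smul A c v, map_smul, algebraMap_smul, smul_sub] }
    refine ⟨φ, LinearMap.ext fun x => LinearMap.ext fun v => ?_⟩
    ext1
    show x • sec A b v - sec A b (x • v) =
      x • (sec A b v - s v) - (sec A b (x • v) - s (x • v))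
    rw [map_smul s, smul_sub]
    abel
  · rintro ⟨φ, hφ⟩
    have h1 : ∀ (x : A) (v : M), x • sec A b v - sec A b (x • v) =
        x • (φ v : J → A) - (φ (x • v) : J → A) := fun x v => by
      rw [← can_apply, hφ]
      rfl
    let s : M →ₗ[A] (J → A) :=
      { toFun := fun v => sec A b v - φ v
        map_add' := fun v w => by
          rw [map_add, map_add]
          show sec A b v + sec A b w - ((φ v : J → A) + (φ w : J → A)) = _
          abel
        map_smul' := fun x v => by
          have h2 := h1 x v
          rw [RingHom.id_apply, smul_sub]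
          have h3 : sec A b (x • v) = x • sec A b v - (x • (φ v : J → A) - (φ (x • v) : J → A)) := by
            rw [← h2]
            abel
          rw [h3]
          abel }
    refine Module.Projective.of_split s (cov A b) (LinearMap.ext fun v => ?_)
    show cov A b (sec A b v - φ v) = v
    have h2 : cov A b (φ v : J → A) = 0 := (φ v).2
    rw [map_sub, cov_sec, h2, sub_zero]

end cov

section basis
variable (a : Basis (Fin (m + 1)) K A) (h0 : a 0 = 1) (b : Basis J K M)

include h0 in
theorem repr_algebraMap (t : K) (l : Fin m) : a.repr (algebraMap K A t) l.succ = 0 := by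
  rw [Algebra.algebraMap_eq_smul_one, ← h0, map_smul, Finsupp.smul_apply, a.repr_self_apply,
    if_neg (Fin.succ_ne_zero l).symm, smul_zero]

/-- coordinates on the syzygy -/
noncomputable def omCo : Om A b →ₗ[K] (Fin m × J → K) :=
  LinearMap.pi fun x => (a.coord x.1.succ) ∘ₗ (LinearMap.proj x.2) ∘ₗ
    ((LinearMap.ker (cov A b)).subtype.restrictScalars K)

omit [DecidableEq J] in
theorem omCo_apply (z : Om A b) (x : Fin m × J) :
    omCo a b z x = a.repr ((z : J → A) x.2) x.1.succ := rfl

include h0 in
omit [DecidableEq J] in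
theorem omCo_bijective : Function.Bijective (omCo a b) := by
  constructor
  · rw [← LinearMap.ker_eq_bot, LinearMap.ker_eq_bot']
    intro z hz
    have h1 : ∀ j, (z : J → A) j = algebraMap K A (a.repr ((z : J → A) j) 0) := by
      intro j
      conv_lhs => rw [← a.sum_repr ((z : J → A) j), Fin.sum_univ_succ]
      have h2 : ∀ l : Fin m, a.repr ((z : J → A) j) l.succ = 0 := fun l => congrFun hz (l, j)
      simp only [h2, zero_smul, Finset.sum_const_zero, add_zero, h0,
        Algebra.algebraMap_eq_smul_one]
    have h3 : ∑ j, a.repr ((z : J → A) j) 0 • b j = 0 := by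
      have h4 : cov A b z = 0 := z.2
      rw [cov_apply] at h4
      rw [← h4]
      refine Finset.sum_congr rfl fun j _ => ?_
      conv_rhs => rw [h1 j, algebraMap_smul]
    have h5 := Fintype.linearIndependent_iff.1 b.linearIndependent _ h3
    ext1
    funext j
    rw [h1 j, h5 j, map_zero]
    rfl
  · intro t
    let y : J → A := fun j => ∑ l : Fin m, t (l, j) • a l.succ
    refine ⟨⟨y - sec A b (cov A b y), by
      rw [LinearMap.mem_ker, map_sub, cov_sec, sub_self]⟩, ?_⟩
    funext ⟨l, j⟩
    rw [omCo_apply]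
    show a.repr (y j - sec A b (cov A b y) j) l.succ = _
    rw [map_sub, Finsupp.sub_apply, sec_apply, repr_algebraMap a h0, sub_zero, map_sum,
      Finsupp.finset_sum_apply, Finset.sum_eq_single l]
    · simp
    · intro x _ hx
      rw [map_smul, Finsupp.smul_apply, a.repr_self_apply, if_neg (fun h => hx (Fin.succ_inj.1 h)),
        smul_zero]
    · simp

/-- basis of the syzygy -/
noncomputable def omBasis : Basis (Fin m × J) K (Om A b) :=
  Basis.ofEquivFun (LinearEquiv.ofBijective (omCo a b) (omCo_bijective a h0 b))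

omit [DecidableEq J] in
theorem omBasis_repr (z : Om A b) (x : Fin m × J) :
    (omBasis a h0 b).repr z x = a.repr ((z : J → A) x.2) x.1.succ := rfl

theorem repr_can (k : Fin (m + 1)) (j : J) (x : Fin m × J) :
    (omBasis a h0 b).repr (can A b (a k) (b j)) x = if k = x.1.succ ∧ x.2 = j then 1 else 0 := by
  rw [omBasis_repr, can_apply]
  show a.repr (a k * sec A b (b j) x.2 - sec A b (a k • b j) x.2) x.1.succ = _
  rw [map_sub, Finsupp.sub_apply, sec_apply, sec_apply, repr_algebraMap a h0, sub_zero,
    b.repr_self_apply]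
  by_cases h : j = x.2
  · subst h
    rw [if_pos rfl, map_one, mul_one, a.repr_self_apply]
    simp
  · rw [if_neg h, map_zero, mul_zero, map_zero]
    rw [if_neg (fun h' => h h'.2.symm)]
    rfl

theorem co2_can : co2 a b (omBasis a h0 b) (can A b) = del m J K := by
  funext ⟨k, x, j⟩
  exact repr_can a h0 b k j x

theorem omBasis_apply (l : Fin m) (j : J) : omBasis a h0 b (l, j) = can A b (a l.succ) (b j) := by
  apply (omBasis a h0 b).repr.injective
  ext x
  rw [repr_can, Basis.repr_self_apply]
  refine if_congr ?_ rfl rfl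
  constructor
  · rintro rfl
    exact ⟨rfl, rfl⟩
  · rintro ⟨h1, h2⟩
    exact Prod.ext (Fin.succ_inj.1 h1) h2.symm

theorem hasMat_om {c : SC m K} {ρ : RP m J K} (hc : HasSC a c) (hb : HasMat a b ρ) :
    HasMat a (omBasis a h0 b) (om c ρ) := by
  rintro k x ⟨l, j⟩
  have h1 : a k • can A b (a l.succ) (b j) =
      can A b (a k * a l.succ) (b j) - can A b (a k) (a l.succ • b j) := by
    rw [can_der A b]
    abel
  rw [omBasis_apply, h1, map_sub, Finsupp.sub_apply, hc.mul, map_sum, LinearMap.sum_apply, map_sum,
    Finsupp.finset_sum_apply, hb.smul, map_sum, map_sum, Finsupp.finset_sum_apply]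
  simp only [map_smul, LinearMap.smul_apply, Finsupp.smul_apply, repr_can, smul_eq_mul]
  show _ = (if x.2 = j then c k l.succ x.1.succ else 0) -
    (if k = x.1.succ then ρ l.succ x.2 j else 0)
  congr 1
  · rw [Finset.sum_eq_single x.1.succ]
    · simp
    · intro r _ hr
      simp [hr]
    · simp
  · rw [Finset.sum_eq_single x.2]
    · simp
    · intro r _ hr
      simp [hr.symm]
    · simp

/-- projectivity in coordinates -/
theorem projective_iff_NP {c : SC m K} {ρ : RP m J K} (hc : HasSC a c) (hb : HasMat a b ρ) :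
    Module.Projective A M ↔ ¬ NP c ρ := by
  have h0 := hc.1
  have hb' := hasMat_om a h0 b hc hb
  have h1 : (∃ φ : M →ₗ[K] Om A b, can A b = inn φ) ↔
      ∃ Φ, M1 ρ (om c ρ) *ᵥ Φ = del m J K := by
    rw [← co2_can a h0 b]
    constructor
    · rintro ⟨φ, hφ⟩
      exact ⟨co1 b (omBasis a h0 b) φ, by rw [M1_co hb hb', hφ]⟩
    · rintro ⟨Φ, hΦ⟩
      obtain ⟨φ, rfl⟩ := co1_surjective (b := b) (b' := omBasis a h0 b) Φ
      rw [M1_co hb hb'] at hΦ
      exact ⟨φ, (co2_injective hΦ).symm⟩
  rw [projective_iff A b, h1]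
  constructor
  · rintro ⟨Φ, hΦ⟩ ⟨ξ, h2, h3⟩
    rw [← hΦ, Matrix.dotProduct_mulVec, h2, zero_dotProduct] at h3
    exact zero_ne_one h3
  · intro h
    by_contra hcon
    apply h
    have h2 : del m J K ∉ LinearMap.range (Matrix.toLin' (M1 ρ (om c ρ))) := by
      rintro ⟨Φ, hΦ⟩
      exact hcon ⟨Φ, by simpa using hΦ⟩
    obtain ⟨f, hf1, hf2⟩ := Submodule.exists_dual_map_eq_bot_of_notMem h2 inferInstance
    obtain ⟨ξ, hξ⟩ : ∃ ξ : Fin (m + 1) × (Fin m × J) × J → K, ∀ v, f v = ξ ⬝ᵥ v := by
      refine ⟨fun x => f (Pi.single x 1), fun v => ?_⟩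
      conv_lhs => rw [← (Pi.basisFun K (Fin (m + 1) × (Fin m × J) × J)).sum_repr v, map_sum]
      refine Finset.sum_congr rfl fun x _ => ?_
      rw [map_smul, Pi.basisFun_repr, Pi.basisFun_apply, smul_eq_mul, mul_comm]
    have h3 : ∀ Φ, f (M1 ρ (om c ρ) *ᵥ Φ) = 0 := by
      intro Φ
      have h4 : f (M1 ρ (om c ρ) *ᵥ Φ) ∈
          Submodule.map f (LinearMap.range (Matrix.toLin' (M1 ρ (om c ρ)))) :=
        ⟨_, ⟨Φ, by simp⟩, rfl⟩
      rw [hf2] at h4
      simpa using h4
    refine ⟨(f (del m J K))⁻¹ • ξ, ?_, ?_⟩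
    · rw [Matrix.smul_vecMul]
      have h5 : ξ ᵥ* M1 ρ (om c ρ) = 0 := by
        funext y
        have h6 := h3 (Pi.single y 1)
        rw [hξ, Matrix.dotProduct_mulVec] at h6
        simpa using h6
      rw [h5, smul_zero]
    · rw [smul_dotProduct, ← hξ, smul_eq_mul, inv_mul_cancel₀ hf1]

end basis

theorem om_ext (b : Basis J K M) {N : Type} [AddCommGroup N] [Module A N] (j : ℕ) :
    Subsingleton (Ext (ModuleCat.of A M) (ModuleCat.of A N) (j + 2)) ↔
      Subsingleton (Ext (ModuleCat.of A (Om A b)) (ModuleCat.of A N) (j + 1)) := by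
  have hex : ∀ p, cov A b p = 0 ↔ ∃ y : Om A b, (LinearMap.ker (cov A b)).subtype y = p :=
    fun p => ⟨fun h => ⟨⟨p, h⟩, rfl⟩, fun ⟨y, hy⟩ => hy ▸ y.2⟩
  exact ⟨Pool.Agent.Lib.P5dcG.ext_shift Subtype.val_injective (cov_surjective A b) hex j,
    ext_shift' Subtype.val_injective (cov_surjective A b) hex j⟩

/-- iterated syzygies -/
theorem exists_syz (a : Basis (Fin (m + 1)) K A) {c : SC m K} (hc : HasSC a c) (b : Basis J K M)
    {ρ : RP m J K} (hb : HasMat a b ρ) (i : ℕ) :
    ∃ (Y : Type) (_ : AddCommGroup Y) (_ : Module K Y) (_ : Module A Y) (_ : IsScalarTower K A Y)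
      (b' : Basis (Jt m J i) K Y), HasMat a b' (omI c ρ i) ∧
      ∀ (N : Type) [AddCommGroup N] [Module A N] (j : ℕ),
        Subsingleton (Ext (ModuleCat.of A M) (ModuleCat.of A N) (i + j + 1)) ↔
          Subsingleton (Ext (ModuleCat.of A Y) (ModuleCat.of A N) (j + 1)) := by
  induction i with
  | zero =>
    refine ⟨M, inferInstance, inferInstance, inferInstance, inferInstance, b, hb,
      fun N _ _ j => ?_⟩
    rw [zero_add]
  | succ i ih =>
    obtain ⟨Y, _, _, _, _, b', hb', hY⟩ := ih
    refine ⟨Om A b', inferInstance, inferInstance, inferInstance, inferInstance,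
      omBasis a hc.1 b', hasMat_om a hc.1 b' hc hb', fun N _ _ j => ?_⟩
    rw [show i + 1 + j + 1 = i + (j + 1) + 1 by omega, hY N (j + 1)]
    exact om_ext b' j

/-- higher extensions in coordinates -/
theorem ext_iff_Ex {N : Type} [AddCommGroup N] [Module K N] [Module A N] [IsScalarTower K A N]
    {J' : Type} [Fintype J'] [DecidableEq J'] (a : Basis (Fin (m + 1)) K A) {c : SC m K}
    (hc : HasSC a c) (b : Basis J K M) {ρ : RP m J K} (hb : HasMat a b ρ) (b' : Basis J' K N)
    {σ : RP m J' K} (hb' : HasMat a b' σ) (i : ℕ) :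
    Subsingleton (Ext (ModuleCat.of A M) (ModuleCat.of A N) (i + 1)) ↔ Ex c (omI c ρ i) σ := by
  obtain ⟨Y, _, _, _, _, bY, hbY, hY⟩ := exists_syz a hc b hb i
  have h1 := hY N 0
  rw [add_zero, zero_add] at h1
  rw [h1]
  exact ext1_iff_Ex hc hbY hb'

end Pool.Agent.Lib.P5dcF
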