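import Mathlib
import Pool.Agent.Lib.P5dc868.DLm
import Pool.Agent.Lib.P5dc868.ExtA
import Pool.Agent.Lib.P5dcF.Stmt
import Pool.Agent.Lib.P5dcF.Tr
import Pool.Agent.Lib.P5dcF.Syz
import Pool.Agent.Lib.P5dcF.Real
import Pool.Agent.Lib.P5dcF.Proj
import Pool.Agent.Lib.P5dcF.Op
import Pool.Agent.Lib.P5dcF.Desc

/-!
# Limits and reduction to finite fields (MP_5dc868_al)
-/

namespace Pool.Agent.Lib.P5dcF

open Matrix Module CategoryTheory Abelian Pool.Agent.Lib.P5dc868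

/-- `S`, and the characteristics greater than `n` if `0` is in `S`. -/
def nb (S : Set ℕ) (n : ℕ) : Set ℕ := {q | q ∈ S ∨ (0 ∈ S ∧ n < q)}

/-- `TC`, right injectivity only -/
def TCr (m : ℕ) (K : Type) [Field K] : Prop :=
  ∀ (A : Type) [Ring A] [Algebra K A] [FiniteDimensional K A],
    Module.finrank K A = m → ExtZero A (DL K A) A → Module.Injective Aᵐᵒᵖ A

/-- `TCn`, right injectivity only -/
def TCnr (m n : ℕ) (K : Type) [Field K] : Prop :=
  ∀ (A : Type) [Ring A] [Algebra K A] [FiniteDimensional K A],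
    Module.finrank K A = m → ExtUpTo A n (DL K A) A → Module.Injective Aᵐᵒᵖ A

/-- `C`, and `0` if `C` is infinite. -/
def cl (C : Set ℕ) : Set ℕ := {r | r ∈ C ∨ (r = 0 ∧ C.Infinite)}

theorem mem_cl (C : Set ℕ) (r : ℕ) : r ∈ cl C ↔ ∀ N, ∃ q ∈ C, Near r N q := by
  constructor
  · rintro (h | ⟨h, hC⟩) N
    · exact ⟨r, h, Or.inl rfl⟩
    · obtain ⟨q, hq, hN⟩ := hC.exists_gt N
      exact ⟨q, hq, Or.inr ⟨h, hN⟩⟩
  · intro h
    by_cases hr : r ∈ C
    · exact Or.inl hr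
    · right
      have h1 : ∀ N, ∃ q ∈ C, r = 0 ∧ N < q := by
        intro N
        obtain ⟨q, hq, hn⟩ := h N
        refine ⟨q, hq, ?_⟩
        rcases hn with hn | hn
        · exact absurd (hn ▸ hq) hr
        · exact hn
      refine ⟨(h1 0).choose_spec.2.1, Set.infinite_of_forall_exists_gt fun N => ?_⟩
      obtain ⟨q, hq, _, hN⟩ := h1 N
      exact ⟨q, hq, hN⟩

section coord
variable {m d : ℕ} {K A M : Type} [Field K] [Ring A] [Algebra K A] [AddCommGroup M]
    [Module K M] [Module A M] [IsScalarTower K A M]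

/-- the coordinates of a counterexample -/
def Bad (K : Type) [Field K] (m : ℕ) (J : Type) [Fintype J] [DecidableEq J] (n : ℕ)
    (c : SC m K) (ρ : RP m J K) : Prop :=
  IsAlg c ∧ IsRep c ρ ∧ (∀ i, i < n → Ex c (omI c ρ i) ρ) ∧
    (∀ i, i < n → Ex c (omI c ρ i) (lam c)) ∧ NP c ρ

theorem exists_bad [FiniteDimensional K A] [FiniteDimensional K M] (hA : finrank K A = m + 1)
    (hM : finrank K M = d) (n : ℕ) (h1 : ExtUpTo A n M M) (h2 : ExtUpTo A n M A)
    (h3 : ¬ Module.Projective A M) : ∃ (c : SC m K) (ρ : RP m (Fin d) K), Bad K m (Fin d) n c ρ := by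
  obtain ⟨a, h0⟩ := exists_basis (K := K) hA
  let c : SC m K := fun k l r => a.repr (a k * a l) r
  have hc : HasSC a c := ⟨h0, fun _ _ _ => rfl⟩
  let b : Basis (Fin d) K M := Module.finBasisOfFinrankEq K M hM
  let ρ : RP m (Fin d) K := fun k => Matrix.of fun i j => b.repr (a k • b j) i
  have hb : HasMat a b ρ := fun _ _ _ => rfl
  refine ⟨c, ρ, hc.isAlg, hb.isRep hc, fun i hi => ?_, fun i hi => ?_, ?_⟩
  · exact (ext_iff_Ex a hc b hb b hb i).1 (h1 (i + 1) (by omega) (by omega))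
  · exact (ext_iff_Ex a hc b hb a hc.hasMat i).1 (h2 (i + 1) (by omega) (by omega))
  · by_contra h
    exact h3 ((projective_iff_NP a b hc hb).2 h)

theorem exists_bad_dual [FiniteDimensional K A] (hA : finrank K A = m + 1) (n : ℕ)
    (h2 : ExtUpTo A n (DL K A) A) (h3 : ¬ Module.Injective Aᵐᵒᵖ A) :
    ∃ (c : SC m K), Bad K m (Fin (m + 1)) n c (dua c) := by
  obtain ⟨a, h0⟩ := exists_basis (K := K) hA
  let c : SC m K := fun k l r => a.repr (a k * a l) r
  have hc : HasSC a c := ⟨h0, fun _ _ _ => rfl⟩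
  have hb := hasMat_dua a hc
  have h1 : ExtZero A (DL K A) (DL K A) := extZero_of_injective DL.injective
  refine ⟨c, hc.isAlg, hb.isRep hc, fun i hi => ?_, fun i hi => ?_, ?_⟩
  · exact (ext_iff_Ex a hc (dlb a) hb (dlb a) hb i).1 (h1 (i + 1) (by omega))
  · exact (ext_iff_Ex a hc (dlb a) hb a hc.hasMat i).1 (h2 (i + 1) (by omega) (by omega))
  · by_contra h
    exact h3 (right_injective_of_projective (K := K) ((projective_iff_NP a (dlb a) hc hb).2 h))

/-- the algebra and the module of a pair -/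
theorem exists_real {J : Type} [Fintype J] [DecidableEq J] {c : SC m K} {ρ : RP m J K}
    (h1 : IsAlg c) (h2 : IsRep c ρ) :
    ∃ (A M : Type) (_ : Ring A) (_ : Algebra K A) (_ : FiniteDimensional K A)
      (_ : AddCommGroup M) (_ : Module K M) (_ : Module A M) (_ : IsScalarTower K A M)
      (_ : FiniteDimensional K M), finrank K A = m + 1 ∧ finrank K M = Fintype.card J ∧
      (∀ n, (∀ i, i < n → Ex c (omI c ρ i) ρ) → ExtUpTo A n M M) ∧
      (∀ n, (∀ i, i < n → Ex c (omI c ρ i) (lam c)) → ExtUpTo A n M A) ∧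
      (NP c ρ → ¬ Module.Projective A M) := by
  obtain ⟨A, _, _, a, hc⟩ := exists_alg h1
  obtain ⟨M, _, _, _, _, b, hb⟩ := exists_mod a hc h2
  have hfA : FiniteDimensional K A := Module.Finite.of_basis a
  have hfM : FiniteDimensional K M := Module.Finite.of_basis b
  refine ⟨A, M, inferInstance, inferInstance, hfA, inferInstance, inferInstance, inferInstance,
    inferInstance, hfM, ?_, ?_, fun n h3 i hi hin => ?_, fun n h4 i hi hin => ?_,
    fun h5 hp => ?_⟩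
  · rw [Module.finrank_eq_card_basis a, Fintype.card_fin]
  · rw [Module.finrank_eq_card_basis b]
  · obtain ⟨j, rfl⟩ : ∃ j, i = j + 1 := ⟨i - 1, by omega⟩
    exact (ext_iff_Ex a hc b hb b hb j).2 (h3 j (by omega))
  · obtain ⟨j, rfl⟩ : ∃ j, i = j + 1 := ⟨i - 1, by omega⟩
    exact (ext_iff_Ex a hc b hb a hc.hasMat j).2 (h4 j (by omega))
  · exact (projective_iff_NP a b hc hb).1 hp h5

/-- the algebra of structure constants -/
theorem exists_realD {c : SC m K} (h1 : IsAlg c) :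
    ∃ (A : Type) (_ : Ring A) (_ : Algebra K A) (_ : FiniteDimensional K A),
      finrank K A = m + 1 ∧
      (∀ n, (∀ i, i < n → Ex c (omI c (dua c) i) (lam c)) → ExtUpTo A n (DL K A) A) ∧
      (NP c (dua c) → ¬ Module.Injective Aᵐᵒᵖ A) := by
  obtain ⟨A, _, _, a, hc⟩ := exists_alg h1
  have hb := hasMat_dua a hc
  have hfA : FiniteDimensional K A := Module.Finite.of_basis a
  refine ⟨A, inferInstance, inferInstance, hfA, ?_, fun n h4 i hi hin => ?_, fun h5 hp => ?_⟩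
  · rw [Module.finrank_eq_card_basis a, Fintype.card_fin]
  · obtain ⟨j, rfl⟩ : ∃ j, i = j + 1 := ⟨i - 1, by omega⟩
    exact (ext_iff_Ex a hc (dlb a) hb a hc.hasMat j).2 (h4 j (by omega))
  · exact (projective_iff_NP a (dlb a) hc hb).1 (projective_of_right_injective hp) h5

end coord

/-- limits of bad pairs -/
theorem bad_limit {m : ℕ} {J : Type} [Fintype J] [DecidableEq J] (K : ℕ → Type)
    [∀ n, Field (K n)] (c : ∀ n, SC m (K n)) (ρ : ∀ n, RP m J (K n))
    (h : ∀ n, Bad (K n) m J n (c n) (ρ n)) :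
    ∃ (L : Type) (_ : Field L) (c' : SC m L) (ρ' : RP m J L),
      (∀ N, ∃ n, N < n ∧ Near (ringChar L) N (ringChar (K n))) ∧
      (∀ n, Bad L m J n c' ρ') ∧
      ∀ (g : ∀ (S : Type) [CommRing S], SC m S → RP m J S), Natural g →
        (∀ n, ρ n = g (K n) (c n)) → ρ' = g L c' := by
  obtain ⟨L, _, φ, hφ⟩ := exists_limit K
  obtain ⟨c', ρ', h1, h2, h3, h4, h5, h6⟩ := limit K φ hφ c ρ (fun n => (h n).1)
    (fun n => (h n).2.1) (fun n => (h n).2.2.1) (fun n => (h n).2.2.2.1)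
    (fun n => (h n).2.2.2.2)
  have hch : ∀ n, CharP (K n) (ringChar (K n)) := fun n => inferInstance
  exact ⟨L, inferInstance, c', ρ', near_limit (fun n => ringChar (K n)) (ringChar L) φ hφ,
    fun n => ⟨h1, h2, fun i _ => h3 i, fun i _ => h4 i, h5⟩, h6⟩

/-- the set of limits of a sequence of sets of characteristics -/
def limC (P : ℕ → Set ℕ) : Set ℕ := {r | ∀ N, ∃ n, N < n ∧ ∃ q ∈ P n, Near r N q}

theorem subsingleton_of_zero {K A : Type} [Field K] [Ring A] [Algebra K A]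
    [FiniteDimensional K A] (h : finrank K A = 0) : Subsingleton A :=
  Module.finrank_zero_iff.1 h

theorem projective_of_zero {K A M : Type} [Field K] [Ring A] [Algebra K A]
    [FiniteDimensional K A] [AddCommGroup M] [Module A M] (h : finrank K A = 0) :
    Module.Projective A M := by
  have := subsingleton_of_zero h
  have hM : Subsingleton M := Module.subsingleton A M
  infer_instance

theorem injective_of_zero {K A : Type} [Field K] [Ring A] [Algebra K A]
    [FiniteDimensional K A] (h : finrank K A = 0) : Module.Injective Aᵐᵒᵖ A := by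
  have := subsingleton_of_zero h
  exact ⟨fun X Y _ _ _ _ f hf g => ⟨0, fun x => Subsingleton.elim _ _⟩⟩

theorem arc_zero (d n : ℕ) (K : Type) [Field K] : ARCn 0 d n K :=
  fun _ _ _ _ _ _ _ _ _ _ hA _ _ _ => projective_of_zero hA

theorem tc_zero (n : ℕ) (K : Type) [Field K] : TCnr 0 n K :=
  fun _ _ _ _ hA _ => injective_of_zero hA

/-- a field over which the conjecture fails at level `n` gives a bad pair -/
theorem bad_of_arc {m d n : ℕ} {K : Type} [Field K] (h : ¬ ARCn (m + 1) d n K) :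
    ∃ (c : SC m K) (ρ : RP m (Fin d) K), Bad K m (Fin d) n c ρ := by
  by_contra hn
  refine h fun A M _ _ _ _ _ _ _ _ hA hM h1 h2 => ?_
  by_contra h3
  obtain ⟨c, ρ, hb⟩ := exists_bad hA hM n h1 h2 h3
  exact hn ⟨c, ρ, hb⟩

theorem bad_of_tc {m n : ℕ} {K : Type} [Field K] (h : ¬ TCnr (m + 1) n K) :
    ∃ (c : SC m K), Bad K m (Fin (m + 1)) n c (dua c) := by
  by_contra hn
  refine h fun A _ _ _ hA h1 => ?_
  by_contra h3
  obtain ⟨c, hb⟩ := exists_bad_dual hA n h1 h3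
  exact hn ⟨c, hb⟩

/-- bad pairs contradict the conjecture -/
theorem arcn_bad {m d n : ℕ} {K : Type} [Field K] (h : ARCn (m + 1) d n K) {c : SC m K}
    {ρ : RP m (Fin d) K} (hb : Bad K m (Fin d) n c ρ) : False := by
  obtain ⟨A, M, _, _, _, _, _, _, _, _, hA, hM, h3, h4, h5⟩ := exists_real hb.1 hb.2.1
  exact h5 hb.2.2.2.2 (h A M hA (by rw [hM, Fintype.card_fin]) (h3 n hb.2.2.1)
    (h4 n hb.2.2.2.1))

theorem arc_bad {m d : ℕ} {K : Type} [Field K] (h : ARC (m + 1) d K) {c : SC m K}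
    {ρ : RP m (Fin d) K} (hb : ∀ n, Bad K m (Fin d) n c ρ) : False := by
  obtain ⟨A, M, _, _, _, _, _, _, _, _, hA, hM, h3, h4, h5⟩ := exists_real (hb 0).1 (hb 0).2.1
  exact h5 (hb 0).2.2.2.2 (h A M hA (by rw [hM, Fintype.card_fin])
    (fun i hi => h3 i (hb i).2.2.1 i hi le_rfl) (fun i hi => h4 i (hb i).2.2.2.1 i hi le_rfl))

theorem tcn_bad {m n : ℕ} {K : Type} [Field K] (h : TCnr (m + 1) n K) {c : SC m K}
    (hb : Bad K m (Fin (m + 1)) n c (dua c)) : False := by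
  obtain ⟨A, _, _, _, hA, h4, h5⟩ := exists_realD hb.1
  exact h5 hb.2.2.2.2 (h A hA (h4 n hb.2.2.2.1))

theorem tc_bad {m : ℕ} {K : Type} [Field K] (h : TCr (m + 1) K) {c : SC m K}
    (hb : ∀ n, Bad K m (Fin (m + 1)) n c (dua c)) : False := by
  obtain ⟨A, _, _, _, hA, h4, h5⟩ := exists_realD (hb 0).1
  exact h5 (hb 0).2.2.2.2 (h A hA (fun i hi => h4 i (hb i).2.2.2.1 i hi le_rfl))

/-- a field over which the conjecture fails gives a pair which is bad at all levels -/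
theorem bad_of_arc' {m d : ℕ} {K : Type} [Field K] (h : ¬ ARC (m + 1) d K) :
    ∃ (c : SC m K) (ρ : RP m (Fin d) K), ∀ n, Bad K m (Fin d) n c ρ := by
  by_contra hn
  refine h fun A M _ _ _ _ _ _ _ _ hA hM h1 h2 => ?_
  by_contra h3
  obtain ⟨a, h0⟩ := exists_basis (K := K) hA
  let c : SC m K := fun k l r => a.repr (a k * a l) r
  have hc : HasSC a c := ⟨h0, fun _ _ _ => rfl⟩
  let b : Basis (Fin d) K M := Module.finBasisOfFinrankEq K M hM
  let ρ : RP m (Fin d) K := fun k => Matrix.of fun i j => b.repr (a k • b j) i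
  have hb : HasMat a b ρ := fun _ _ _ => rfl
  refine hn ⟨c, ρ, fun n => ⟨hc.isAlg, hb.isRep hc, fun i hi => ?_, fun i hi => ?_, ?_⟩⟩
  · exact (ext_iff_Ex a hc b hb b hb i).1 (h1 (i + 1) (by omega))
  · exact (ext_iff_Ex a hc b hb a hc.hasMat i).1 (h2 (i + 1) (by omega))
  · by_contra h
    exact h3 ((projective_iff_NP a b hc hb).2 h)

theorem bad_of_tc' {m : ℕ} {K : Type} [Field K] (h : ¬ TCr (m + 1) K) :
    ∃ (c : SC m K), ∀ n, Bad K m (Fin (m + 1)) n c (dua c) := by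
  by_contra hn
  refine h fun A _ _ _ hA h2 => ?_
  by_contra h3
  obtain ⟨a, h0⟩ := exists_basis (K := K) hA
  let c : SC m K := fun k l r => a.repr (a k * a l) r
  have hc : HasSC a c := ⟨h0, fun _ _ _ => rfl⟩
  have hb := hasMat_dua a hc
  have h1 : ExtZero A (DL K A) (DL K A) := extZero_of_injective DL.injective
  refine hn ⟨c, fun n => ⟨hc.isAlg, hb.isRep hc, fun i hi => ?_, fun i hi => ?_, ?_⟩⟩
  · exact (ext_iff_Ex a hc (dlb a) hb (dlb a) hb i).1 (h1 (i + 1) (by omega))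
  · exact (ext_iff_Ex a hc (dlb a) hb a hc.hasMat i).1 (h2 (i + 1) (by omega))
  · by_contra h
    exact h3 (right_injective_of_projective (K := K) ((projective_iff_NP a (dlb a) hc hb).2 h))

theorem natural_dua (m : ℕ) : Natural (fun (S : Type) [CommRing S] (c : SC m S) => dua c) :=
  fun _ _ _ _ φ c => dua_map φ c

theorem arc_limit (P : ℕ → Set ℕ) (m d : ℕ) (h : Over (limC P) (@ARC m d)) :
    ∃ n, Over (P n) (@ARCn m d n) := by
  rcases Nat.eq_zero_or_pos m with rfl | hm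
  · exact ⟨0, fun K _ _ => arc_zero d 0 K⟩
  obtain ⟨m, rfl⟩ : ∃ m', m = m' + 1 := ⟨m - 1, by omega⟩
  by_contra hcon
  have h1 : ∀ n, ∃ (K : Type) (_ : Field K) (c : SC m K) (ρ : RP m (Fin d) K),
      ringChar K ∈ P n ∧ Bad K m (Fin d) n c ρ := by
    intro n
    by_contra hn
    refine hcon ⟨n, fun K _ hK => ?_⟩
    by_contra h3
    obtain ⟨c, ρ, hb⟩ := bad_of_arc h3
    exact hn ⟨K, inferInstance, c, ρ, hK, hb⟩
  choose K iK c ρ hK hb using h1
  obtain ⟨L, _, c', ρ', hL, hb', -⟩ := bad_limit K c ρ hb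
  refine arc_bad (h L fun N => ?_) hb'
  obtain ⟨n, hn, hnear⟩ := hL N
  exact ⟨n, hn, _, hK n, hnear⟩

theorem tc_limit (P : ℕ → Set ℕ) (m : ℕ) (h : Over (limC P) (@TCr m)) :
    ∃ n, Over (P n) (@TCnr m n) := by
  rcases Nat.eq_zero_or_pos m with rfl | hm
  · exact ⟨0, fun K _ _ => tc_zero 0 K⟩
  obtain ⟨m, rfl⟩ : ∃ m', m = m' + 1 := ⟨m - 1, by omega⟩
  by_contra hcon
  have h1 : ∀ n, ∃ (K : Type) (_ : Field K) (c : SC m K),
      ringChar K ∈ P n ∧ Bad K m (Fin (m + 1)) n c (dua c) := by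
    intro n
    by_contra hn
    refine hcon ⟨n, fun K _ hK => ?_⟩
    by_contra h3
    obtain ⟨c, hb⟩ := bad_of_tc h3
    exact hn ⟨K, inferInstance, c, hK, hb⟩
  choose K iK c hK hb using h1
  obtain ⟨L, _, c', ρ', hL, hb', hg⟩ := bad_limit K c (fun n => dua (c n)) hb
  have hρ' : ρ' = dua c' := hg (fun S _ c => dua c) (natural_dua m) fun n => rfl
  subst hρ'
  refine tc_bad (h L fun N => ?_) hb'
  obtain ⟨n, hn, hnear⟩ := hL N
  exact ⟨n, hn, _, hK n, hnear⟩

theorem arc_spread (C : Set ℕ) (hC : ∀ q ∈ C, q.Prime) (m d n : ℕ)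
    (h : ∀ (K : Type) [Field K] [Finite K], ringChar K ∈ C → ARCn m d n K) :
    Over (cl C) (@ARC m d) := by
  intro K _ hK
  rcases Nat.eq_zero_or_pos m with rfl | hm
  · exact fun A M _ _ _ _ _ _ _ _ hA _ _ _ => projective_of_zero hA
  obtain ⟨m, rfl⟩ : ∃ m', m = m' + 1 := ⟨m - 1, by omega⟩
  by_contra h3
  obtain ⟨c, ρ, hb'⟩ := bad_of_arc' h3
  have hb := hb' n
  obtain ⟨N', hN'⟩ := spread (ringChar K) c ρ hb.1 hb.2.1 n hb.2.2.1 hb.2.2.2.1 hb.2.2.2.2
  obtain ⟨q, hq, hnear⟩ := (mem_cl C _).1 hK N'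
  obtain ⟨F, _, _, hFq, c', ρ', h4, h5, h6, h7, h8, -⟩ := hN' q (hC q hq) hnear
  have hch : ringChar F = q := ringChar.eq F q
  exact arcn_bad (h F (by rwa [hch])) ⟨h4, h5, h6, h7, h8⟩

theorem tc_spread (C : Set ℕ) (hC : ∀ q ∈ C, q.Prime) (m n : ℕ)
    (h : ∀ (K : Type) [Field K] [Finite K], ringChar K ∈ C → TCnr m n K) :
    Over (cl C) (@TCr m) := by
  intro K _ hK
  rcases Nat.eq_zero_or_pos m with rfl | hm
  · exact fun A _ _ _ hA _ => injective_of_zero hA
  obtain ⟨m, rfl⟩ : ∃ m', m = m' + 1 := ⟨m - 1, by omega⟩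
  by_contra h3
  obtain ⟨c, hb'⟩ := bad_of_tc' h3
  have hb := hb' n
  obtain ⟨N', hN'⟩ := spread (ringChar K) c (dua c) hb.1 hb.2.1 n hb.2.2.1 hb.2.2.2.1 hb.2.2.2.2
  obtain ⟨q, hq, hnear⟩ := (mem_cl C _).1 hK N'
  obtain ⟨F, _, _, hFq, c', ρ', h4, h5, h6, h7, h8, hg⟩ := hN' q (hC q hq) hnear
  have hρ' : ρ' = dua c' := hg (fun S _ c => dua c) (natural_dua m) rfl
  subst hρ'
  have hch : ringChar F = q := ringChar.eq F q
  exact tcn_bad (h F (by rwa [hch])) ⟨h4, h5, h6, h7, h8⟩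

theorem arc_spread_prime {m d n : ℕ}
    (h : ∀ (p : ℕ) [Fact p.Prime], n < p → ARCn m d n (ZMod p)) (K : Type) [Field K]
    (hK : ringChar K = 0) : ARC m d K := by
  rcases Nat.eq_zero_or_pos m with rfl | hm
  · exact fun A M _ _ _ _ _ _ _ _ hA _ _ _ => projective_of_zero hA
  obtain ⟨m, rfl⟩ : ∃ m', m = m' + 1 := ⟨m - 1, by omega⟩
  by_contra h3
  have h0 : CharP K 0 := by
    have := ringChar.charP K
    rwa [hK] at this
  have hcz : CharZero K := CharP.charP_to_charZero K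
  obtain ⟨c, ρ, hb'⟩ := bad_of_arc' h3
  have hb := hb' n
  obtain ⟨q, _, hq, c', ρ', h4, h5, h6, h7, h8, -⟩ :=
    spread_prime c ρ hb.1 hb.2.1 n hb.2.2.1 hb.2.2.2.1 hb.2.2.2.2 n
  exact arcn_bad (h q hq) ⟨h4, h5, h6, h7, h8⟩

theorem tc_spread_prime {m n : ℕ}
    (h : ∀ (p : ℕ) [Fact p.Prime], n < p → TCnr m n (ZMod p)) (K : Type) [Field K]
    (hK : ringChar K = 0) : TCr m K := by
  rcases Nat.eq_zero_or_pos m with rfl | hm
  · exact fun A _ _ _ hA _ => injective_of_zero hA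
  obtain ⟨m, rfl⟩ : ∃ m', m = m' + 1 := ⟨m - 1, by omega⟩
  by_contra h3
  have h0 : CharP K 0 := by
    have := ringChar.charP K
    rwa [hK] at this
  have hcz : CharZero K := CharP.charP_to_charZero K
  obtain ⟨c, hb'⟩ := bad_of_tc' h3
  have hb := hb' n
  obtain ⟨q, _, hq, c', ρ', h4, h5, h6, h7, h8, hg⟩ :=
    spread_prime c (dua c) hb.1 hb.2.1 n hb.2.2.1 hb.2.2.2.1 hb.2.2.2.2 n
  have hρ' : ρ' = dua c' := hg (fun S _ c => dua c) (natural_dua m) rfl
  subst hρ'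
  exact tcn_bad (h q hq) ⟨h4, h5, h6, h7, h8⟩

/-- one universal field suffices -/
theorem arc_one {m d : ℕ} (Ω : Type) [Field Ω] (hΩ : Univ Ω)
    (h : ARC m d Ω) (K : Type) [Field K] (hK : ringChar K = ringChar Ω) : ARC m d K := by
  rcases Nat.eq_zero_or_pos m with rfl | hm
  · exact fun A M _ _ _ _ _ _ _ _ hA _ _ _ => projective_of_zero hA
  obtain ⟨m, rfl⟩ : ∃ m', m = m' + 1 := ⟨m - 1, by omega⟩
  by_contra h3
  obtain ⟨c, ρ, hb⟩ := bad_of_arc' h3
  obtain ⟨c', ρ', h4, h5, h6, h7, h8, -⟩ := embed c ρ (hb 0).1 (hb 0).2.1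
    (fun i => (hb (i + 1)).2.2.1 i (by omega)) (fun i => (hb (i + 1)).2.2.2.1 i (by omega))
    (hb 0).2.2.2.2 Ω hΩ hK
  exact arc_bad h fun n => ⟨h4, h5, fun i _ => h6 i, fun i _ => h7 i, h8⟩

theorem tc_one {m : ℕ} (Ω : Type) [Field Ω] (hΩ : Univ Ω)
    (h : TCr m Ω) (K : Type) [Field K] (hK : ringChar K = ringChar Ω) : TCr m K := by
  rcases Nat.eq_zero_or_pos m with rfl | hm
  · exact fun A _ _ _ hA _ => injective_of_zero hA
  obtain ⟨m, rfl⟩ : ∃ m', m = m' + 1 := ⟨m - 1, by omega⟩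
  by_contra h3
  obtain ⟨c, hb⟩ := bad_of_tc' h3
  obtain ⟨c', ρ', h4, h5, h6, h7, h8, hg⟩ := embed c (dua c) (hb 0).1 (hb 0).2.1
    (fun i => (hb (i + 1)).2.2.1 i (by omega)) (fun i => (hb (i + 1)).2.2.2.1 i (by omega))
    (hb 0).2.2.2.2 Ω hΩ hK
  have hρ' : ρ' = dua c' := hg (fun S _ c => dua c) (natural_dua m) rfl
  subst hρ'
  exact tc_bad h fun n => ⟨h4, h5, fun i _ => h6 i, fun i _ => h7 i, h8⟩

theorem limC_nb {S : Set ℕ} (hS : IsCl S) : limC (nb S) ⊆ S := by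
  intro r hr
  by_contra hrS
  rcases Nat.eq_zero_or_pos r with rfl | hpos
  · have h1 : ∀ N, ∃ q ∈ S, N < q := by
      intro N
      obtain ⟨n, _, q, hq, hn⟩ := hr N
      rcases hq with hq | hq
      · rcases hn with rfl | hn
        · exact absurd hq hrS
        · exact ⟨q, hq, hn.2⟩
      · exact absurd hq.1 hrS
    exact hrS (hS.2 (Set.infinite_of_forall_exists_gt h1))
  · obtain ⟨n, hn, q, hq, hnear⟩ := hr r
    rcases hnear with rfl | h
    · rcases hq with hq | hq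
      · exact hrS hq
      · omega
    · omega

/-- from all fields to finite fields -/
theorem uniformFin_of_uniform {S : Set ℕ} (hS : IsCl S)
    {P : ℕ → ∀ (K : Type) [Field K], Prop} (h : Uniform S P) : UniformFin S P := by
  obtain ⟨n, h⟩ := h
  refine ⟨n, {q | q.Prime ∧ q ∈ nb S n}, fun q hq => hq.1, fun q hq => ?_,
    fun K _ _ hK => h K hK.2⟩
  rcases hS.1 q hq with rfl | hp
  · right
    refine ⟨rfl, Set.infinite_of_forall_exists_gt fun N => ?_⟩
    obtain ⟨p, hp, hpp⟩ := Nat.exists_infinite_primes (max N n + 1)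
    exact ⟨p, ⟨hpp, Or.inr ⟨hq, by omega⟩⟩, by omega⟩
  · exact Or.inl ⟨hp, Or.inl hq⟩

/-- the field with characteristic `r` -/
theorem uniformPrime_of_uniform {S : Set ℕ} {P : ℕ → ∀ (K : Type) [Field K], Prop}
    (h : Uniform S P) : UniformPrime S P := by
  obtain ⟨n, hn⟩ := h
  refine ⟨n, fun K _ _ hK => hn K (Or.inl hK), fun h0 p _ hp => hn (ZMod p) (Or.inr ⟨h0, ?_⟩)⟩
  rwa [ringChar.eq (ZMod p) p]

/-- the fields of positive characteristic in `S` -/
theorem over_of_prime {S : Set ℕ} (hS : IsCl S) {P Q : ∀ (K : Type) [Field K], Prop}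
    (h : ∀ (K : Type) [Field K] [Finite K], ringChar K ∈ S → P K)
    (h1 : ∀ C : Set ℕ, (∀ q ∈ C, q.Prime) →
      (∀ (K : Type) [Field K] [Finite K], ringChar K ∈ C → P K) → Over (cl C) @Q)
    (h0 : 0 ∈ S → ∀ (K : Type) [Field K], ringChar K = 0 → Q K) : Over S @Q := by
  intro K _ hK
  rcases hS.1 _ hK with h2 | h2
  · exact h0 (h2 ▸ hK) K h2
  · exact h1 {q | q ∈ S ∧ q.Prime} (fun q hq => hq.2) (fun F _ _ hF => h F hF.1) K
      (Or.inl ⟨hK, h2⟩)

theorem overOne_of_over {S : Set ℕ} (hS : IsCl S) {P : ∀ (K : Type) [Field K], Prop}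
    (h : Over S P) : OverOneCl S P := by
  intro r hr
  obtain ⟨K, _, h1, h2, h3⟩ := exists_univ r (hS.1 r hr)
  exact ⟨K, inferInstance, h1, not_finTrdeg K, h3, h K (by rwa [h3])⟩

theorem univ_of_infTr {Ω : Type} [Field Ω] (h1 : IsAlgClosed Ω) (h2 : InfTr Ω) : Univ Ω :=
  univ_alg (F := Ω) h2

theorem tc_of_right {m : ℕ} {K : Type} [Field K] (h : TCr m K) : TC m K :=
  fun _ _ _ _ hA h1 => two_sided' (fun A _ _ _ => h A) hA h1

theorem tcn_of_right {m n : ℕ} {K : Type} [Field K] (h : TCnr m n K) : TCn m n K :=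
  fun _ _ _ _ hA h1 => two_sided (fun A _ _ _ => h A) hA h1

theorem TC.right {m : ℕ} {K : Type} [Field K] (h : TC m K) : TCr m K :=
  fun A _ _ _ hA h1 => (h A hA h1).2

theorem TCn.right {m n : ℕ} {K : Type} [Field K] (h : TCn m n K) : TCnr m n K :=
  fun A _ _ _ hA h1 => (h A hA h1).2

theorem tc_tfae {S : Set ℕ} (hS : IsCl S) (m : ℕ) :
    List.TFAE [Over S (@TC m), OverOneCl S (@TC m), Uniform S (fun n => @TCn m n),
      UniformFin S (fun n => @TCn m n), UniformPrime S (fun n => @TCn m n)] := by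
  tfae_have 1 → 2 := overOne_of_over hS
  tfae_have 2 → 1 := by
    intro h K _ hK
    obtain ⟨Ω, _, h1, h2, h3, h4⟩ := h _ hK
    exact tc_of_right (tc_one Ω (univ_of_infTr h1 h2) h4.right K h3.symm)
  tfae_have 1 → 3 := by
    intro h
    obtain ⟨n, hn⟩ := tc_limit (nb S) m fun K _ hK => (h K (limC_nb hS hK)).right
    exact ⟨n, fun K _ hK => tcn_of_right (hn K hK)⟩
  tfae_have 3 → 4 := uniformFin_of_uniform hS
  tfae_have 4 → 1 := by
    rintro ⟨n, C, hC, hCS, h⟩ K _ hK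
    exact tc_of_right (tc_spread C hC m n (fun K _ _ hK => (h K hK).right) K (hCS _ hK))
  tfae_have 3 → 5 := uniformPrime_of_uniform
  tfae_have 5 → 1 := by
    rintro ⟨n, h, h'⟩
    exact over_of_prime hS (P := @TCn m n) h
      (fun C hC h2 K _ hK => tc_of_right
        (tc_spread C hC m n (fun K _ _ hK => (h2 K hK).right) K hK))
      fun h0 K _ hK => tc_of_right (tc_spread_prime (fun p _ hp => (h' h0 p hp).right) K hK)
  tfae_finish

theorem arc_tfae {S : Set ℕ} (hS : IsCl S) (m d : ℕ) :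
    List.TFAE [Over S (@ARC m d), OverOneCl S (@ARC m d), Uniform S (fun n => @ARCn m d n),
      UniformFin S (fun n => @ARCn m d n), UniformPrime S (fun n => @ARCn m d n)] := by
  tfae_have 1 → 2 := overOne_of_over hS
  tfae_have 2 → 1 := by
    intro h K _ hK
    obtain ⟨Ω, _, h1, h2, h3, h4⟩ := h _ hK
    exact arc_one Ω (univ_of_infTr h1 h2) h4 K h3.symm
  tfae_have 1 → 3 := fun h => arc_limit (nb S) m d fun K _ hK => h K (limC_nb hS hK)
  tfae_have 3 → 4 := uniformFin_of_uniform hS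
  tfae_have 4 → 1 := by
    rintro ⟨n, C, hC, hCS, h⟩ K _ hK
    exact arc_spread C hC m d n h K (hCS _ hK)
  tfae_have 3 → 5 := uniformPrime_of_uniform
  tfae_have 5 → 1 := by
    rintro ⟨n, h, h'⟩
    exact over_of_prime hS (P := @ARCn m d n) h (fun C hC h2 => arc_spread C hC m d n h2)
      fun h0 K _ hK => arc_spread_prime (h' h0) K hK
  tfae_finish

end Pool.Agent.Lib.P5dcF
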