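import Mathlib
import Pool.Agent.Lib.P5dc868.Defs
import Pool.Agent.Lib.P5dc868.ExtA
import Pool.Agent.Lib.P5dc868.DLm
import Pool.Agent.Lib.P5dc868.Dual
import Pool.Agent.Lib.P5dc868.FrobR
import Pool.Agent.Lib.P5dc868.T1
import Pool.Agent.Lib.P5dc868.T2
import Pool.Agent.Lib.P5dc868.CycRes
import Pool.Agent.Lib.P5dcF.Stmt
import Pool.Agent.Lib.P5dcF.Op

/-!
# Q1 and the conjectures of Tachikawa and Auslander–Reiten (MP_5dc868_al)
-/

namespace Pool.Agent.Lib.P5dcF

open Pool.Agent.Lib.P5dc868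

variable {K B : Type} [Field K] [Ring B] [Algebra K B] [FiniteDimensional K B]

theorem arc_of_q1 (h : Q1 K) (M : Type) [AddCommGroup M] [Module B M] [Module.Finite B M]
    (hM : ExtZero B M M) (hB : ExtZero B M B) : Module.Projective B M := by
  have hfin : Module.Finite (Cyc K B) (Ind K B M) := Ind.finite'
  have hfinK : FiniteDimensional K (Ind K B M) := Module.Finite.trans (Cyc K B) _
  have hE : FiniteDimensional K (Module.End (Cyc K B) (Cyc K B × Ind K B M)) := by
    refine Module.Finite.of_injective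
      (LinearMap.restrictScalarsₗ K (Cyc K B) (Cyc K B × Ind K B M) (Cyc K B × Ind K B M) K) ?_
    exact LinearMap.restrictScalars_injective K
  obtain ⟨k, ε, d, hε, h0, hd, h1, h2⟩ := exists_cycRes (K := K) M hM hB
  have hP : ∀ n, Module.Finite (Cyc K B) (Ind K B (Fin (k n) → B)) ∧
      Module.Projective (Cyc K B) (Ind K B (Fin (k n) → B)) :=
    fun n => ⟨Ind.finite (k n), Ind.projective (k n)⟩
  apply Ind.projective_of_ind (K := K)
  rcases h (Module.End (Cyc K B) (Cyc K B × Ind K B M)) with h | h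
  · exact (Cyc.frob (K := K) (B := B)).projective_of_injective
      (h ((Cyc.frob (K := K) (B := B)).domDim (fun n => Ind K B (Fin (k n) → B)) hP ε d hε h0
        hd h1)).2
  · exact (Cyc.frob (K := K) (B := B)).projective_of_injective
      (h ((Cyc.frob (K := K) (B := B)).extZero (fun n => Ind K B (Fin (k n) → B)) hP ε d hε h0
        hd h1 h2)).2

theorem Q1.arc {K : Type} [Field K] (h : Q1 K) (m d : ℕ) : ARC m d K := by
  intro A M _ _ _ _ _ _ _ _ _ _ h1 h2
  have hfin : Module.Finite A M := Module.Finite.of_restrictScalars_finite K A M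
  exact arc_of_q1 (K := K) h M h1 h2

theorem ARC.tc {K : Type} [Field K] {m : ℕ} (h : ARC m m K) : TC m K := by
  intro A _ _ _ hA h1
  refine two_sided' (fun A _ _ _ hA h1 => ?_) hA h1
  refine right_injective_of_projective (K := K) (h A (DL K A) hA ?_
    (extZero_of_injective DL.injective) h1)
  rw [← hA]
  exact Subspace.dual_finrank_eq

theorem q1_of_tc {K : Type} [Field K] (h : ∀ m, TC m K) : Q1 K :=
  fun A _ _ _ => Or.inr fun hA => h _ A rfl hA

theorem q1_iff_tc {K : Type} [Field K] : Q1 K ↔ ∀ m, TC m K :=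
  ⟨fun h m => (h.arc m m).tc, q1_of_tc⟩

theorem q1_iff_arc {K : Type} [Field K] : Q1 K ↔ ∀ m d, ARC m d K :=
  ⟨fun h m d => h.arc m d, fun h => q1_of_tc fun m => (h m m).tc⟩

end Pool.Agent.Lib.P5dcF
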