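import Mathlib
import Pool.Agent.Lib.P5dcF.Main
import Pool.Agent.Lib.P5dcF.QOne

/-!
# Algebraic extensions (MP_5dc868_al)
-/

namespace Pool.Agent.Lib.P5dcF

open Pool.Agent.Lib.P5dc868

/-- finitely many elements of an algebraic extension lie in a finite extension -/
theorem exists_finite_ext (K Ω : Type) [Field K] [Field Ω] [Algebra K Ω]
    [Algebra.IsAlgebraic K Ω] (S : Set Ω) (hS : S.Finite) :
    ∃ (L : Type) (_ : Field L) (_ : Algebra K L) (_ : FiniteDimensional K L) (φ : L →+* Ω),
      ∀ s ∈ S, ∃ r, φ r = s := by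
  have : Finite S := hS
  have hfin : FiniteDimensional K (IntermediateField.adjoin K S) :=
    IntermediateField.finiteDimensional_adjoin fun x _ => Algebra.IsIntegral.isIntegral x
  exact ⟨IntermediateField.adjoin K S, inferInstance, inferInstance, hfin,
    algebraMap (IntermediateField.adjoin K S) Ω,
    fun s hs => ⟨⟨s, IntermediateField.subset_adjoin K S hs⟩, rfl⟩⟩

/-- the Auslander–Reiten conjecture passes to finite extensions -/
theorem ARC.finite_ext {K L : Type} [Field K] [Field L] [Algebra K L] [FiniteDimensional K L]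
    (h : ∀ m d, ARC m d K) (m d : ℕ) : ARC m d L := by
  intro A M _ _ _ _ _ _ _ _ hA hM h1 h2
  letI : Algebra K A := Algebra.compHom A (algebraMap K L)
  haveI : IsScalarTower K L A := ⟨fun c x a => by
    rw [Algebra.smul_def (A := L) c x, mul_smul]
    rfl⟩
  haveI : FiniteDimensional K A := Module.Finite.trans L A
  letI : Module K M := Module.compHom M (algebraMap K A)
  haveI : IsScalarTower K A M := ⟨fun c a x => by
    show (c • a) • x = algebraMap K A c • (a • x)
    rw [Algebra.smul_def, mul_smul]⟩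
  haveI : Module.Finite A M := Module.Finite.of_restrictScalars_finite L A M
  haveI : FiniteDimensional K M := Module.Finite.trans A M
  exact h _ _ A M rfl rfl h1 h2

/-- the Auslander–Reiten conjecture passes to algebraic extensions -/
theorem ARC.algebraic {K Ω : Type} [Field K] [Field Ω] [Algebra K Ω]
    [Algebra.IsAlgebraic K Ω] (h : ∀ m d, ARC m d K) (m d : ℕ) : ARC m d Ω := by
  classical
  rcases Nat.eq_zero_or_pos m with rfl | hm
  · exact fun A M _ _ _ _ _ _ _ _ hA _ _ _ => projective_of_zero hA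
  obtain ⟨m, rfl⟩ : ∃ m', m = m' + 1 := ⟨m - 1, by omega⟩
  by_contra h3
  obtain ⟨c, ρ, hb⟩ := bad_of_arc' h3
  let S : Set Ω :=
    Set.range (fun x : Fin (m + 1) × Fin (m + 1) × Fin (m + 1) => c x.1 x.2.1 x.2.2) ∪
    Set.range (fun x : Fin (m + 1) × Fin d × Fin d => ρ x.1 x.2.1 x.2.2)
  have hS : S.Finite := (Set.finite_range _).union (Set.finite_range _)
  obtain ⟨L, _, _, _, φ, hr⟩ := exists_finite_ext K Ω S hS
  have hφ : Function.Injective φ := φ.injective
  have hc : ∀ k l r, ∃ x, φ x = c k l r := fun k l r => hr _ (Or.inl ⟨(k, l, r), rfl⟩)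
  choose cR hcR using hc
  have hcR' : mapC φ cR = c := by
    funext k l r
    exact hcR k l r
  subst hcR'
  have hρ : ∀ k, ∃ G : Matrix (Fin d) (Fin d) L, G.map φ = ρ k := fun k =>
    exists_mat (φ := φ) (ρ k) fun x y => hr _ (Or.inr ⟨(k, x, y), rfl⟩)
  choose ρR hρR using hρ
  have hρR' : mapR φ ρR = ρ := funext hρR
  subst hρR'
  have hL : ARC (m + 1) d L := ARC.finite_ext (K := K) h (m + 1) d
  refine arc_bad hL (c := cR) (ρ := ρR) fun n => ⟨IsAlg.of_map φ hφ (hb 0).1,
    IsRep.of_map φ hφ (hb 0).2.1, fun i hi => Ex.descend φ ?_, fun i hi => Ex.descend φ ?_,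
    NP.descend φ (hb 0).2.2.2.2⟩
  · rw [← omI_map]
    exact (hb n).2.2.1 i hi
  · rw [← omI_map]
    exact (hb n).2.2.2.1 i hi

/-- Q1 passes to algebraic extensions. -/
theorem Q1.algebraic {K Ω : Type} [Field K] [Field Ω] [Algebra K Ω] [Algebra.IsAlgebraic K Ω]
    (h : Q1 K) : Q1 Ω :=
  q1_iff_arc.2 fun m d => ARC.algebraic (K := K) (q1_iff_arc.1 h) m d

/-- one field of infinite transcendence degree suffices for Q1 -/
theorem q1_one {F : Type} [Field F] (hF : InfTr F) (h : Q1 F) (K : Type) [Field K]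
    (hK : ringChar K = ringChar F) : Q1 K := by
  have hinj := (algebraMap F (AlgebraicClosure F)).injective
  have h2 : ringChar (AlgebraicClosure F) = ringChar F := by
    have := charP_of_injective_ringHom hinj (ringChar F)
    exact ringChar.eq (AlgebraicClosure F) (ringChar F)
  have h3 : Q1 (AlgebraicClosure F) := h.algebraic
  exact q1_iff_arc.2 fun m d =>
    arc_one (AlgebraicClosure F) (univ_alg (F := F) hF) (q1_iff_arc.1 h3 m d) K (hK.trans h2.symm)

end Pool.Agent.Lib.P5dcF
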