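import Mathlib
import Pool.Agent.Lib.P5dc868.T1
import Pool.Agent.Lib.P5dc868.T2
import Pool.Agent.Lib.P5dcF.ResT

/-!
# The dominant dimension of `End_S(S × N)`, finite level (MP_5dc868_al)
-/

namespace Pool.Agent.Lib.P5dcF

open Pool.Agent.Lib.P5dc868 T1Aux

section lift
variable {R : Type} [Ring R] {P : ℕ → Type} [∀ n, AddCommGroup (P n)] [∀ n, Module R (P n)]
  {X : Type} [AddCommGroup X] [Module R X]

theorem lift_auxT {d : ∀ n, P (n + 1) →ₗ[R] P n} (n : ℕ)
    (h1 : ∀ (f : P (n + 1) →ₗ[R] X), (∀ y, f (d (n + 1) y) = 0) →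
      ∃ g : P n →ₗ[R] X, ∀ x, g (d n x) = f x)
    (f : (R × P (n + 1)) →ₗ[R] X) (hf : ∀ y, f (dQ d (n + 1) y) = 0) :
    ∃ g : (R × P n) →ₗ[R] X, ∀ x, g (dQ d n x) = f x := by
  obtain ⟨g, hg⟩ := h1 (f.comp (LinearMap.inr R R (P (n + 1)))) (by
    intro y
    have := hf (0, y)
    rw [dQ_apply, map_zero] at this
    exact this)
  have hfx : ∀ x : R × P (n + 1), f x = f (x.1, 0) + f (0, x.2) := by
    intro x
    rw [← map_add]
    congr 1
    exact Prod.ext (add_zero _).symm (zero_add _).symm
  by_cases h : Even n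
  · have h' : ¬ Even (n + 1) := by
      rw [Nat.even_add_one]
      exact not_not.mpr h
    have hfs : ∀ s : R, f (s, 0) = 0 := by
      intro s
      have := hf (s, 0)
      rw [dQ_apply, map_zero, sp_odd h'] at this
      exact this
    refine ⟨g.comp (LinearMap.snd R R (P n)), fun x => ?_⟩
    rw [hfx x, hfs, zero_add]
    exact hg x.2
  · refine ⟨(f.comp (LinearMap.inl R R (P (n + 1)))).comp (LinearMap.fst R R (P n)) +
      g.comp (LinearMap.snd R R (P n)), fun x => ?_⟩
    rw [hfx x, dQ_apply, sp_odd h, LinearMap.add_apply]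
    have e1 : (g.comp (LinearMap.snd R R (P n))) (x.1, d n x.2) = f (0, x.2) := hg x.2
    rw [e1]
    rfl

theorem dQ_dQ {d : ∀ n, P (n + 1) →ₗ[R] P n} (hd : ∀ n x, d n (d (n + 1) x) = 0) (n : ℕ)
    (z : R × P (n + 1 + 1)) : dQ d n (dQ d (n + 1) z) = 0 := by
  rw [dQ_apply, dQ_apply]
  apply Prod.ext
  · show sp R n (sp R (n + 1) z.1) = 0
    by_cases h : Even n
    · rw [sp_even h]
    · rw [sp_even (Nat.even_add_one.mpr h), map_zero]
  · exact hd n z.2

end lift

variable {K S : Type} [Field K] [Ring S] [Algebra K S] [FiniteDimensional K S]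
  {lam : S →ₗ[K] K} {σ : S →+* S}
  {N : Type} [AddCommGroup N] [Module K N] [Module S N] [IsScalarTower K S N]
  [FiniteDimensional K N]

/-- The dominant dimension of `A = End_S(S × N)`, finite level. -/
theorem domDimT (hF : Frob K S lam σ) (P : ℕ → Type) [∀ n, AddCommGroup (P n)]
    [∀ n, Module S (P n)] (hP : ∀ n, Module.Finite S (P n) ∧ Module.Projective S (P n))
    (ε : P 0 →ₗ[S] N) (d : ∀ n, P (n + 1) →ₗ[S] P n) (hε : Function.Surjective ε)
    (h0 : ∀ x : P 0, ε x = 0 ↔ ∃ y, d 0 y = x)
    (hd : ∀ n x, d n (d (n + 1) x) = 0) (L : ℕ)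
    (h1 : ∀ n, n < L → ∀ (f : P (n + 1) →ₗ[S] S × N), (∀ y, f (d (n + 1) y) = 0) →
      ∃ g : P n →ₗ[S] S × N, ∀ x, g (d n x) = f x) :
    DomDimGE (Module.End S (S × N)) (L + 2) := by
  have hp : ∀ s, LinearMap.fst S S N (LinearMap.inl S S N s) = s := fun _ => rfl
  refine ⟨fun n => (S × P n) →ₗ[S] S × N, fun _ => inferInstance, fun _ => inferInstance,
    pre0 (eQ ε), fun n => pre (dQ d n), fun n _ => ?_, fun _ => pre0_inj (eQ_surj hε), ?_, ?_⟩
  · have := (hP n).1
    have := (hP n).2
    exact ⟨hom_finite hp, hom_projective hp, hom_injective hF hp⟩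
  · intro _ x
    exact factor (eQ_surj hε) (eQ_exact h0) x
  · intro n hn x
    constructor
    · intro hx
      obtain ⟨g, hg⟩ := lift_auxT n (h1 n (by omega)) x (fun y => LinearMap.congr_fun hx y)
      exact ⟨g, LinearMap.ext hg⟩
    · rintro ⟨y, rfl⟩
      apply LinearMap.ext
      intro z
      change y (dQ d n (dQ d (n + 1) z)) = 0
      rw [dQ_dQ hd, map_zero]

section bound
variable {K B : Type} [Field K] [Ring B] [Algebra K B] [FiniteDimensional K B]

theorem finrank_cyc : Module.finrank K (Cyc K B) ≤ 6 * Module.finrank K B := by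
  have h1 := LinearMap.finrank_le_finrank_of_injective
    (f := (Cyc.linProd : Cyc K B →ₗ[K] _)) Cyc.toProd_injective
  have h2 : Module.finrank K ((Fin 3 → B) × (Fin 3 → (B →ₗ[K] K))) = 6 * Module.finrank K B := by
    rw [Module.finrank_prod, Module.finrank_pi_fintype, Module.finrank_pi_fintype]
    have h3 : Module.finrank K (B →ₗ[K] K) = Module.finrank K B := Subspace.dual_finrank_eq
    simp only [h3, Finset.sum_const, Finset.card_univ, Fintype.card_fin, smul_eq_mul]
    ring
  omega

variable (M : Type) [AddCommGroup M] [Module K M] [Module B M] [IsScalarTower K B M]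
  [FiniteDimensional K M]

theorem finrank_hom : Module.finrank K (M →ₗ[B] B) ≤ Module.finrank K M * Module.finrank K B := by
  rw [← Module.finrank_linearMap K K M B]
  exact LinearMap.finrank_le_finrank_of_injective
    (f := (LinearMap.restrictScalarsₗ K B M B K)) (LinearMap.restrictScalars_injective K)

/-- `Ind M` as a vector space -/
def indLin : Ind K B M →ₗ[K] M × ((M →ₗ[B] B) →ₗ[K] K) where
  toFun := Ind.toProd
  map_add' _ _ := rfl
  map_smul' c x := by
    have hb : ∀ j, (algebraMap K (Cyc K B) c).b j = algebraMap K B c := fun j => by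
      rw [Algebra.algebraMap_eq_smul_one, Cyc.smul_b, Pi.smul_apply, Cyc.one_b, Pi.one_apply,
        Algebra.algebraMap_eq_smul_one]
    have hq : ∀ j, (algebraMap K (Cyc K B) c).q j = 0 := fun j => by
      rw [Algebra.algebraMap_eq_smul_one, Cyc.smul_q, Pi.smul_apply, Cyc.one_q, Pi.zero_apply,
        smul_zero]
    apply Prod.ext
    · show (c • x).fst = c • x.fst
      rw [Ind.ksmul_def, Ind.smul_fst, hb, algebraMap_smul]
    · show (c • x).snd = c • x.snd
      apply LinearMap.ext
      intro f
      have h1 : f.smulRight (algebraMap K B c) = c • f := by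
        ext y
        show f y • algebraMap K B c = c • f y
        rw [Algebra.algebraMap_eq_smul_one, smul_eq_mul, mul_smul_comm, mul_one]
      rw [Ind.ksmul_def, Ind.smul_snd_apply, hb, hq, h1, map_smul, LinearMap.zero_apply, add_zero,
        LinearMap.smul_apply]

theorem finrank_ind : Module.finrank K (Ind K B M) ≤
    Module.finrank K M + Module.finrank K M * Module.finrank K B := by
  have hfin : FiniteDimensional K (M →ₗ[B] B) :=
    Module.Finite.of_injective (LinearMap.restrictScalarsₗ K B M B K)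
      (LinearMap.restrictScalars_injective K)
  have h1 := LinearMap.finrank_le_finrank_of_injective
    (f := (indLin M : Ind K B M →ₗ[K] _)) Ind.toProd_injective
  have h2 : Module.finrank K ((M →ₗ[B] B) →ₗ[K] K) = Module.finrank K (M →ₗ[B] B) :=
    Subspace.dual_finrank_eq
  rw [Module.finrank_prod, h2] at h1
  have h3 := finrank_hom (K := K) (B := B) M
  omega

end bound

/-- a bound for the dimension of the endomorphism algebra -/
def bnd (m d : ℕ) : ℕ := (6 * m + (d + d * m)) ^ 2

/-- Main step, finite level: the counterexample to the Nakayama conjecture. -/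
theorem arcU_of_nc {K B : Type} [Field K] [Ring B] [Algebra K B] [FiniteDimensional K B]
    (M : Type) [AddCommGroup M] [Module K M] [Module B M] [IsScalarTower K B M]
    [FiniteDimensional K M] (L : ℕ) (hM : ExtUpTo B L M M) (hB : ExtUpTo B L M B)
    (h : ∀ (A : Type) [Ring A] [Algebra K A] [FiniteDimensional K A],
      Module.finrank K A ≤ bnd (Module.finrank K B) (Module.finrank K M) →
      DomDimGE A (L + 2) → Module.Injective Aᵐᵒᵖ A) : Module.Projective B M := by
  have hMf : Module.Finite B M := Module.Finite.of_restrictScalars_finite K B M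
  have hfin : Module.Finite (Cyc K B) (Ind K B M) := Ind.finite'
  have hfinK : FiniteDimensional K (Ind K B M) := Module.Finite.trans (Cyc K B) _
  have hinj := LinearMap.restrictScalars_injective K (S := Cyc K B)
    (M := Cyc K B × Ind K B M) (M₂ := Cyc K B × Ind K B M)
  have hE : FiniteDimensional K (Module.End (Cyc K B) (Cyc K B × Ind K B M)) :=
    Module.Finite.of_injective
      (LinearMap.restrictScalarsₗ K (Cyc K B) (Cyc K B × Ind K B M) (Cyc K B × Ind K B M) K) hinj
  obtain ⟨k, ε, d, hε, h0, hd, h1⟩ := exists_cycResT (K := K) M L hM hB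
  have hP : ∀ n, Module.Finite (Cyc K B) (Ind K B (Fin (k n) → B)) ∧
      Module.Projective (Cyc K B) (Ind K B (Fin (k n) → B)) :=
    fun n => ⟨Ind.finite (k n), Ind.projective (k n)⟩
  apply Ind.projective_of_ind (K := K)
  refine (Cyc.frob (K := K) (B := B)).projective_of_injective (h _ ?_
    (domDimT (Cyc.frob (K := K) (B := B)) (fun n => Ind K B (Fin (k n) → B)) hP ε d hε h0 hd L
      h1))
  have h2 := LinearMap.finrank_le_finrank_of_injective
    (f := (LinearMap.restrictScalarsₗ K (Cyc K B) (Cyc K B × Ind K B M) (Cyc K B × Ind K B M) K))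
    hinj
  refine h2.trans ?_
  rw [Module.finrank_linearMap, Module.finrank_prod, bnd, sq]
  have h3 := finrank_cyc (K := K) (B := B)
  have h4 := finrank_ind (K := K) (B := B) M
  exact Nat.mul_le_mul (by omega) (by omega)

end Pool.Agent.Lib.P5dcF
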