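import Mathlib
import Pool.Agent.Lib.P5dc868.DualM
import Pool.Agent.Lib.P5dc868.T1
import Pool.Agent.Lib.P5dc868.T2
import Pool.Agent.Lib.P5dcF.DomT

/-!
# Finite levels: both conditions (MP_5dc868_al)
-/

namespace Pool.Agent.Lib.P5dcF

open CategoryTheory Abelian Pool.Agent.Lib.P5dc868

section cores
variable {R : Type} [Ring R]

open ExtBAux in
/-- `Ext^(i+1)(W, A) = 0` from a partial injective coresolution of `A` -/
theorem ext_of_coresT {W : Type} [AddCommGroup W] [Module R W] : ∀ i : ℕ, ∀ (A : Type)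
    (_ : AddCommGroup A) (_ : Module R A)
    (J : ℕ → Type) (_ : ∀ n, AddCommGroup (J n)) (_ : ∀ n, Module R (J n))
    (_ : ∀ n, Module.Injective R (J n)) (ε : A →ₗ[R] J 0) (d : ∀ n, J n →ₗ[R] J (n + 1))
    (_ : Function.Injective ε) (_ : ∀ x : J 0, d 0 x = 0 ↔ ∃ a, ε a = x)
    (_ : ∀ n, n ≤ i → ∀ (x : J (n + 1)), d (n + 1) x = 0 ↔ ∃ y, d n y = x)
    (_ : ∀ (G : W →ₗ[R] J (i + 1)), (∀ w, d (i + 1) (G w) = 0) →
      ∃ G' : W →ₗ[R] J i, ∀ w, d i (G' w) = G w),
    Subsingleton (Ext (ModuleCat.of R W) (ModuleCat.of R A) (i + 1)) := by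
  intro i
  induction i with
  | zero =>
    intro A _ _ J _ _ hJ ε d hε h0 hd hW
    let π : J 0 →ₗ[R] LinearMap.ker (d 1) :=
      (d 0).codRestrict (LinearMap.ker (d 1)) fun x => (hd 0 le_rfl (d 0 x)).2 ⟨x, rfl⟩
    have hπ : Function.Surjective π := by
      rintro ⟨x, hx⟩
      obtain ⟨y, hy⟩ := (hd 0 le_rfl x).1 hx
      exact ⟨y, Subtype.ext hy⟩
    refine step1 (hJ 0) ε π hε hπ (fun x => ?_) fun G => ?_
    · rw [← h0]
      exact Subtype.ext_iff
    · obtain ⟨G', hG'⟩ := hW ((LinearMap.ker (d 1)).subtype ∘ₗ G) fun w => (G w).2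
      exact ⟨G', fun w => Subtype.ext (hG' w)⟩
  | succ i ih =>
    intro A _ _ J _ _ hJ ε d hε h0 hd hW
    let π : J 0 →ₗ[R] LinearMap.ker (d 1) :=
      (d 0).codRestrict (LinearMap.ker (d 1)) fun x => (hd 0 (by omega) (d 0 x)).2 ⟨x, rfl⟩
    have hπ : Function.Surjective π := by
      rintro ⟨x, hx⟩
      obtain ⟨y, hy⟩ := (hd 0 (by omega) x).1 hx
      exact ⟨y, Subtype.ext hy⟩
    refine step (hJ 0) ε π hε hπ (fun x => ?_) i ?_
    · rw [← h0]
      exact Subtype.ext_iff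
    · refine ih (LinearMap.ker (d 1)) _ _ (fun n => J (n + 1)) _ _ (fun n => hJ (n + 1))
        (LinearMap.ker (d 1)).subtype (fun n => d (n + 1)) Subtype.val_injective ?_
        (fun n hn => hd (n + 1) (by omega)) hW
      intro x
      exact ⟨fun hx => ⟨⟨x, hx⟩, rfl⟩, fun ⟨a, ha⟩ => ha ▸ a.2⟩

end cores

open CycResAux in
/-- the resolution of the induced module, finite level, with the semilinear part -/
theorem exists_cycResS {K B : Type} [Field K] [Ring B] [Algebra K B] [FiniteDimensional K B]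
    (M : Type) [AddCommGroup M] [Module B M] [Module.Finite B M] (N : ℕ)
    (hM : ExtUpTo B N M M) (hB : ExtUpTo B N M B) :
    ∃ (k : ℕ → ℕ) (ε : Ind K B (Fin (k 0) → B) →ₗ[Cyc K B] Ind K B M)
      (d : ∀ n, Ind K B (Fin (k (n + 1)) → B) →ₗ[Cyc K B] Ind K B (Fin (k n) → B)),
      Function.Surjective ε ∧ (∀ x, ε x = 0 ↔ ∃ y, d 0 y = x) ∧
      (∀ n x, d n (d (n + 1) x) = 0) ∧
      (∀ n, n < N → ∀ (f : Ind K B (Fin (k (n + 1)) → B) →ₗ[Cyc K B] Cyc K B × Ind K B M),
        (∀ y, f (d (n + 1) y) = 0) →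
        ∃ g : Ind K B (Fin (k n) → B) →ₗ[Cyc K B] Cyc K B × Ind K B M,
          ∀ x, g (d n x) = f x) ∧
      (∀ n, n < N → ∀ (f : Ind K B (Fin (k (n + 1)) → B) →ₛₗ[Cyc.shift (K := K) (B := B)]
          Cyc K B × Ind K B M),
        (∀ y, f (d (n + 1) y) = 0) →
        ∃ g : Ind K B (Fin (k n) → B) →ₛₗ[Cyc.shift (K := K) (B := B)] Cyc K B × Ind K B M,
          ∀ x, g (d n x) = f x) := by
  obtain ⟨k, ε, d, hε, h0, hd, hY⟩ := exists_resT K (B := B) M
  have hYM : ∀ n, n < N → _ := fun n hn => hY M n (hM (n + 1) (by omega) (by omega))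
  have hYB : ∀ n, n < N → _ := fun n hn => hY B n (hB (n + 1) (by omega) (by omega))
  have hinj : Module.Injective (Cyc K B) (Cyc K B) := (Cyc.frob (K := K) (B := B)).left_injective
  refine ⟨k, Ind.map ε, fun n => Ind.map (d n), Ind.map_surjective ε hε, ?_, ?_, ?_, ?_⟩
  · intro x
    apply Ind.map_exact (d 0) ε h0
    intro f hf
    exact factor ε hε f (fun x hx => by
      obtain ⟨y, rfl⟩ := (h0 x).mp hx
      exact hf y)
  · intro n x
    rw [Ind.map_comp]
    have h1 : d n ∘ₗ d (n + 1) = 0 := by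
      ext1
      apply LinearMap.ext
      intro z
      exact (hd n _).2 ⟨_, rfl⟩
    rw [h1]
    refine Ind.ext' rfl (fun f => ?_)
    rw [Ind.map_snd_apply, LinearMap.comp_zero, map_zero]
    rfl
  · intro n hn f hf
    -- the component in `S`
    obtain ⟨gS, hgS⟩ := ext_inj hinj (Ind.map (K := K) (d n))
      ((LinearMap.fst (Cyc K B) (Cyc K B) (Ind K B M)) ∘ₗ f) (fun x hx => by
        obtain ⟨y, rfl⟩ := (Ind.map_exact (K := K) (d (n + 1)) (d n) (hd n)
          (fun f hf => hYB n hn f hf) x).mp hx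
        rw [LinearMap.comp_apply, hf y, map_zero])
    -- the component in `N`
    have hfM := Ind.eq_map ((LinearMap.snd (Cyc K B) (Cyc K B) (Ind K B M)) ∘ₗ f)
    set φ := Ind.res0 ((LinearMap.snd (Cyc K B) (Cyc K B) (Ind K B M)) ∘ₗ f) with hφ
    have hφ0 : ∀ y, φ (d (n + 1) y) = 0 := by
      intro y
      have h1 : (Ind.map (K := K) (d (n + 1))) ⟨y, 0⟩ = ⟨d (n + 1) y, 0⟩ :=
        Ind.ext' rfl (fun f => rfl)
      have h2 := hf ⟨y, 0⟩
      rw [h1] at h2
      show (((LinearMap.snd (Cyc K B) (Cyc K B) (Ind K B M)) ∘ₗ f) ⟨d (n + 1) y, 0⟩).fst = 0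
      rw [LinearMap.comp_apply, h2, map_zero]
      rfl
    obtain ⟨g0, hg0⟩ := hYM n hn φ hφ0
    refine ⟨gS.prod (Ind.map g0), fun x => ?_⟩
    have h3 : g0 ∘ₗ d n = φ := LinearMap.ext hg0
    apply Prod.ext
    · exact hgS x
    · show Ind.map g0 (Ind.map (d n) x) = (f x).2
      rw [Ind.map_comp, h3, ← hfM]
      rfl
  · intro n hn f hf
    -- the linear map `ρ ∘ f_S`
    let fL : Ind K B (Fin (k (n + 1)) → B) →ₗ[Cyc K B] Cyc K B :=
      { toFun := fun x => Cyc.shift (Cyc.shift (f x).1)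
        map_add' := fun x y => by
          rw [map_add, Prod.fst_add, map_add, map_add]
        map_smul' := fun s x => by
          rw [LinearMap.map_smulₛₗ, Prod.smul_fst, smul_eq_mul, map_mul, map_mul,
            Cyc.shift_cube, RingHom.id_apply, smul_eq_mul] }
    obtain ⟨gL, hgL⟩ := ext_inj hinj (Ind.map (K := K) (d n)) fL (fun x hx => by
        obtain ⟨y, rfl⟩ := (Ind.map_exact (K := K) (d (n + 1)) (d n) (hd n)
          (fun f hf => hYB n hn f hf) x).mp hx
        show Cyc.shift (Cyc.shift (f _).1) = 0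
        rw [hf y, Prod.fst_zero, map_zero, map_zero])
    let fM : Ind K B (Fin (k (n + 1)) → B) →ₛₗ[Cyc.shift (K := K) (B := B)] Ind K B M :=
      { toFun := fun x => (f x).2
        map_add' := fun x y => by rw [map_add, Prod.snd_add]
        map_smul' := fun s x => by rw [LinearMap.map_smulₛₗ, Prod.smul_snd] }
    have hfM : fM = 0 := Ind.semilinear_zero fM
    let g : Ind K B (Fin (k n) → B) →ₛₗ[Cyc.shift (K := K) (B := B)] Cyc K B × Ind K B M :=
      { toFun := fun x => (Cyc.shift (gL x), 0)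
        map_add' := fun x y => by
          rw [map_add, map_add, Prod.mk_add_mk, add_zero]
        map_smul' := fun s x => by
          rw [LinearMap.map_smul, smul_eq_mul, map_mul, Prod.smul_mk, smul_zero, smul_eq_mul] }
    refine ⟨g, fun x => ?_⟩
    apply Prod.ext
    · show Cyc.shift (gL (Ind.map (d n) x)) = (f x).1
      rw [hgL x]
      exact Cyc.shift_cube _
    · show (0 : Ind K B M) = fM x
      rw [hfM]
      rfl

section lift
open T1Aux
variable {R : Type} [Ring R] {P : ℕ → Type} [∀ n, AddCommGroup (P n)] [∀ n, Module R (P n)]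
  {X : Type} [AddCommGroup X] [Module R X]

theorem lift_auxS {σ : R →+* R} {d : ∀ n, P (n + 1) →ₗ[R] P n} (n : ℕ)
    (h1 : ∀ (f : P (n + 1) →ₛₗ[σ] X), (∀ y, f (d (n + 1) y) = 0) →
      ∃ g : P n →ₛₗ[σ] X, ∀ x, g (d n x) = f x)
    (f : (R × P (n + 1)) →ₛₗ[σ] X) (hf : ∀ y, f (dQ d (n + 1) y) = 0) :
    ∃ g : (R × P n) →ₛₗ[σ] X, ∀ x, g (dQ d n x) = f x := by
  obtain ⟨g, hg⟩ := h1 (f.comp (LinearMap.inr R R (P (n + 1)))) (by
    intro y
    have := hf (0, y)
    rw [dQ_apply, map_zero] at this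
    exact this)
  have hfx : ∀ x : R × P (n + 1), f x = f (x.1, 0) + f (0, x.2) := by
    intro x
    rw [← map_add]
    congr 1
    exact Prod.ext (add_zero _).symm (zero_add _).symm
  by_cases h : Even n
  · have h' : ¬ Even (n + 1) := by
      rw [Nat.even_add_one]
      exact not_not.mpr h
    have hfs : ∀ s : R, f (s, 0) = 0 := by
      intro s
      have := hf (s, 0)
      rw [dQ_apply, map_zero, sp_odd h'] at this
      exact this
    refine ⟨g.comp (LinearMap.snd R R (P n)), fun x => ?_⟩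
    rw [hfx x, hfs, zero_add]
    exact hg x.2
  · refine ⟨(f.comp (LinearMap.inl R R (P (n + 1)))).comp (LinearMap.fst R R (P n)) +
      g.comp (LinearMap.snd R R (P n)), fun x => ?_⟩
    rw [hfx x, dQ_apply, sp_odd h, LinearMap.add_apply]
    have e1 : (g.comp (LinearMap.snd R R (P n))) (x.1, d n x.2) = f (0, x.2) := hg x.2
    rw [e1]
    rfl

end lift

open T1Aux in
/-- `Ext^i_A(D A, A) = 0` for `1 ≤ i ≤ L`, `A = End_S(S × N)`. -/
theorem extT {K S : Type} [Field K] [Ring S] [Algebra K S] [FiniteDimensional K S]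
    {lam : S →ₗ[K] K} {σ : S →+* S}
    {N : Type} [AddCommGroup N] [Module K N] [Module S N] [IsScalarTower K S N]
    [FiniteDimensional K N] (hF : Frob K S lam σ) (P : ℕ → Type) [∀ n, AddCommGroup (P n)]
    [∀ n, Module S (P n)] (hP : ∀ n, Module.Finite S (P n) ∧ Module.Projective S (P n))
    (ε : P 0 →ₗ[S] N) (d : ∀ n, P (n + 1) →ₗ[S] P n) (hε : Function.Surjective ε)
    (h0 : ∀ x : P 0, ε x = 0 ↔ ∃ y, d 0 y = x)
    (hd : ∀ n x, d n (d (n + 1) x) = 0) (L : ℕ)
    (h1 : ∀ n, n < L → ∀ (f : P (n + 1) →ₗ[S] S × N), (∀ y, f (d (n + 1) y) = 0) →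
      ∃ g : P n →ₗ[S] S × N, ∀ x, g (d n x) = f x)
    (h2 : ∀ n, n < L → ∀ (f : P (n + 1) →ₛₗ[σ] S × N), (∀ y, f (d (n + 1) y) = 0) →
      ∃ g : P n →ₛₗ[σ] S × N, ∀ x, g (d n x) = f x) :
    ExtUpTo (Module.End S (S × N)) L (DL K (Module.End S (S × N))) (Module.End S (S × N)) := by
  have hp : ∀ s, LinearMap.fst S S N (LinearMap.inl S S N s) = s := fun _ => rfl
  intro i hi hiL
  obtain ⟨j, rfl⟩ : ∃ j, i = j + 1 := ⟨i - 1, by omega⟩
  refine ext_of_coresT (R := Module.End S (S × N)) j (Module.End S (S × N)) _ _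
    (fun n => (S × P n) →ₗ[S] S × N) _ _
    (fun n => ?_) (pre0 (eQ ε)) (fun n => pre (dQ d n)) (pre0_inj (eQ_surj hε)) ?_ ?_ ?_
  · have := (hP n).1
    have := (hP n).2
    exact hom_injective hF hp
  · intro x
    exact factor (eQ_surj hε) (eQ_exact h0) x
  · intro n hn x
    constructor
    · intro hx
      obtain ⟨g, hg⟩ := lift_auxT n (h1 n (by omega)) x (fun y => LinearMap.congr_fun hx y)
      exact ⟨g, LinearMap.ext hg⟩
    · rintro ⟨y, rfl⟩
      apply LinearMap.ext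
      intro z
      change y (dQ d n (dQ d (n + 1) z)) = 0
      rw [dQ_dQ hd, map_zero]
  · intro G hG
    obtain ⟨G', hG'⟩ := Frob.lift_dual hF hp (dQ d j) (dQ d (j + 1))
      (fun g hg => lift_auxS j (h2 j (by omega)) g hg) G
      (fun φ y => LinearMap.congr_fun (hG φ) y)
    exact ⟨G', fun w => LinearMap.ext (hG' w)⟩

/-- Main step, finite level: the counterexample to Q1. -/
theorem arcU_of_q1 {K B : Type} [Field K] [Ring B] [Algebra K B] [FiniteDimensional K B]
    (M : Type) [AddCommGroup M] [Module K M] [Module B M] [IsScalarTower K B M]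
    [FiniteDimensional K M] (L : ℕ) (hM : ExtUpTo B L M M) (hB : ExtUpTo B L M B)
    (h : ∀ (A : Type) [Ring A] [Algebra K A] [FiniteDimensional K A],
      Module.finrank K A ≤ bnd (Module.finrank K B) (Module.finrank K M) →
      DomDimGE A (L + 2) → ExtUpTo A L (DL K A) A → Module.Injective Aᵐᵒᵖ A) :
    Module.Projective B M := by
  have hMf : Module.Finite B M := Module.Finite.of_restrictScalars_finite K B M
  have hfin : Module.Finite (Cyc K B) (Ind K B M) := Ind.finite'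
  have hfinK : FiniteDimensional K (Ind K B M) := Module.Finite.trans (Cyc K B) _
  have hinj := LinearMap.restrictScalars_injective K (S := Cyc K B)
    (M := Cyc K B × Ind K B M) (M₂ := Cyc K B × Ind K B M)
  have hE : FiniteDimensional K (Module.End (Cyc K B) (Cyc K B × Ind K B M)) :=
    Module.Finite.of_injective
      (LinearMap.restrictScalarsₗ K (Cyc K B) (Cyc K B × Ind K B M) (Cyc K B × Ind K B M) K) hinj
  obtain ⟨k, ε, d, hε, h0, hd, h1, h2⟩ := exists_cycResS (K := K) M L hM hB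
  have hP : ∀ n, Module.Finite (Cyc K B) (Ind K B (Fin (k n) → B)) ∧
      Module.Projective (Cyc K B) (Ind K B (Fin (k n) → B)) :=
    fun n => ⟨Ind.finite (k n), Ind.projective (k n)⟩
  apply Ind.projective_of_ind (K := K)
  refine (Cyc.frob (K := K) (B := B)).projective_of_injective (h _ ?_
    (domDimT (Cyc.frob (K := K) (B := B)) (fun n => Ind K B (Fin (k n) → B)) hP ε d hε h0 hd L
      h1)
    (extT (Cyc.frob (K := K) (B := B)) (fun n => Ind K B (Fin (k n) → B)) hP ε d hε h0 hd L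
      h1 h2))
  have h3 := LinearMap.finrank_le_finrank_of_injective
    (f := (LinearMap.restrictScalarsₗ K (Cyc K B) (Cyc K B × Ind K B M) (Cyc K B × Ind K B M) K))
    hinj
  refine h3.trans ?_
  rw [Module.finrank_linearMap, Module.finrank_prod, bnd, sq]
  have h4 := finrank_cyc (K := K) (B := B)
  have h5 := finrank_ind (K := K) (B := B) M
  exact Nat.mul_le_mul (by omega) (by omega)

end Pool.Agent.Lib.P5dcF
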