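import Mathlib
import Pool.Agent.Lib.P5dc868.NCb
import Pool.Agent.Lib.P5dcF.Mul

/-!
# The Nakayama conjecture, finite level (MP_5dc868_al)
-/

namespace Pool.Agent.Lib.P5dcF

open Pool.Agent.Lib.P5dc868 NCbAux

/-- `End_A(Q)` is a retract of a power of `Q` -/
theorem end_retract {A Q : Type} [Ring A] [AddCommGroup Q] [Module A Q]
    (hfin : Module.Finite A Q) (hproj : Module.Projective A Q) :
    ∃ (m : ℕ) (i : Module.End A Q →ₗ[Module.End A Q] (Fin m → Q))
      (r : (Fin m → Q) →ₗ[Module.End A Q] Module.End A Q), ∀ z, r (i z) = z := by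
  obtain ⟨m, p, i, _, _, hpi⟩ := Module.Finite.exists_comp_eq_id_of_projective A Q
  have hsum : ∀ x : Q, ∑ j, i x j • p (Pi.single j 1) = x := by
    intro x
    have h1 := congrArg (fun f : Q →ₗ[A] Q => f x) hpi
    simp only [LinearMap.comp_apply, LinearMap.id_apply] at h1
    have h2 : i x = ∑ j, i x j • (Pi.single j (1 : A) : Fin m → A) := by
      funext l
      simp [Finset.sum_apply, Pi.single_apply]
    rw [h2, map_sum] at h1
    simp only [map_smul] at h1
    exact h1
  let i' : Module.End A Q →ₗ[Module.End A Q] (Fin m → Q) :=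
    { toFun := fun f j => f (p (Pi.single j 1))
      map_add' := fun f g => rfl
      map_smul' := fun b f => rfl }
  let r' : (Fin m → Q) →ₗ[Module.End A Q] Module.End A Q :=
    { toFun := fun y =>
        { toFun := fun x => ∑ j, i x j • y j
          map_add' := fun x x' => by
            rw [← Finset.sum_add_distrib]
            refine Finset.sum_congr rfl fun j _ => ?_
            rw [map_add, Pi.add_apply, add_smul]
          map_smul' := fun a x => by
            rw [RingHom.id_apply, Finset.smul_sum]
            refine Finset.sum_congr rfl fun j _ => ?_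
            rw [map_smul, Pi.smul_apply, smul_eq_mul, mul_smul] }
      map_add' := fun y y' => by
        ext x
        show ∑ j, i x j • (y j + y' j) = ∑ j, i x j • y j + ∑ j, i x j • y' j
        rw [← Finset.sum_add_distrib]
        exact Finset.sum_congr rfl fun j _ => smul_add _ _ _
      map_smul' := fun b y => by
        ext x
        show ∑ j, i x j • b (y j) = b (∑ j, i x j • y j)
        rw [map_sum]
        exact Finset.sum_congr rfl fun j _ => (map_smul _ _ _).symm }
  refine ⟨m, i', r', fun f => ?_⟩
  ext x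
  show ∑ j, i x j • f (p (Pi.single j 1)) = f x
  have h3 : ∀ j, i x j • f (p (Pi.single j 1)) = f (i x j • p (Pi.single j 1)) := fun j =>
    (map_smul _ _ _).symm
  rw [Finset.sum_congr rfl fun j _ => h3 j, ← map_sum, hsum x]


section dual

variable {K A Q : Type} [Field K] [Ring A] [Algebra K A] [AddCommGroup Q] [Module K Q]
  [Module A Q] [IsScalarTower K A Q]

/-- `End_A(Q)ᵒᵖ` is a retract of a power of `D(Q)` -/
theorem end_op_retract [FiniteDimensional K Q] (hinj : Module.Injective A Q) :
    ∃ (m : ℕ) (i : (Module.End A Q)ᵐᵒᵖ →ₗ[(Module.End A Q)ᵐᵒᵖ] (Fin m → DR K Q))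
      (r : (Fin m → DR K Q) →ₗ[(Module.End A Q)ᵐᵒᵖ] (Module.End A Q)ᵐᵒᵖ), ∀ z, r (i z) = z := by
  let b := Module.finBasis K Q
  let φ : Fin (Module.finrank K Q) → DR K Q := fun j => (show Q →ₗ[K] K from b.coord j)
  have hφ : ∀ x : Q, (∀ j, φ j x = 0) → x = 0 := by
    intro x hx
    refine b.ext_elem fun j => ?_
    have h1 : b.repr x j = 0 := hx j
    rw [h1, map_zero]
    rfl
  let J : Q →ₗ[A] (Fin (Module.finrank K Q) → DL K A) := LinearMap.pi fun j => toDL (φ j)
  have hJ : Function.Injective J := by
    rw [injective_iff_map_eq_zero]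
    intro x hx
    refine hφ x fun j => ?_
    have h1 : (toDL (A := A) (φ j) x) 1 = 0 := by
      have h2 := congrFun hx j
      have h3 : toDL (A := A) (φ j) x = 0 := h2
      rw [h3]
      rfl
    rw [toDL_apply, one_smul] at h1
    exact h1
  obtain ⟨r, hr⟩ := hinj.out J hJ LinearMap.id
  let i' : (Module.End A Q)ᵐᵒᵖ →ₗ[(Module.End A Q)ᵐᵒᵖ] (Fin (Module.finrank K Q) → DR K Q) :=
    { toFun := fun f j => (show Q →ₗ[K] K from
        (show Q →ₗ[K] K from φ j) ∘ₗ (f.unop : Q →ₗ[A] Q).restrictScalars K)
      map_add' := fun f g => by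
        funext j
        apply DR.ext
        intro x
        show φ j (f.unop x + g.unop x) = φ j (f.unop x) + φ j (g.unop x)
        exact DR.map_add _ _ _
      map_smul' := fun f g => by
        funext j
        apply DR.ext
        intro x
        rfl }
  let r' : (Fin (Module.finrank K Q) → DR K Q) →ₗ[(Module.End A Q)ᵐᵒᵖ] (Module.End A Q)ᵐᵒᵖ :=
    { toFun := fun ψ => MulOpposite.op (r ∘ₗ LinearMap.pi fun j => toDL (ψ j))
      map_add' := fun ψ ψ' => by
        rw [← MulOpposite.op_add]
        congr 1
        refine LinearMap.ext fun x => ?_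
        show r (fun j => toDL (ψ j + ψ' j) x) =
          r (fun j => toDL (ψ j) x) + r (fun j => toDL (ψ' j) x)
        rw [← map_add]
        congr 1
      map_smul' := fun f ψ => by
        rw [RingHom.id_apply, smul_eq_mul]
        apply MulOpposite.unop_injective
        rw [MulOpposite.unop_mul]
        refine LinearMap.ext fun x => ?_
        show r (fun j => toDL (f • ψ j) x) = r (fun j => toDL (ψ j) (f.unop x))
        congr 1
        funext j
        apply DL.ext
        intro a
        rw [toDL_apply, toDL_apply, DR.smul_apply]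
        congr 1
        exact map_smul (f.unop : Q →ₗ[A] Q) a x }
  refine ⟨_, i', r', fun f => ?_⟩
  apply MulOpposite.unop_injective
  refine LinearMap.ext fun x => ?_
  refine Eq.trans ?_ (hr (f.unop x))
  show r (fun j => toDL (i' f j) x) = r (fun j => toDL (φ j) (f.unop x))
  congr 1
  funext j
  apply DL.ext
  intro a
  rw [toDL_apply, toDL_apply]
  exact congrArg (φ j) (map_smul (f.unop : Q →ₗ[A] Q) a x)


end dual

/-- a faithful projective and injective module of bounded dimension -/
theorem exists_small {K A : Type} [Field K] [Ring A] [Algebra K A] [FiniteDimensional K A]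
    {Q₀ : Type} [AddCommGroup Q₀] [Module A Q₀] (h1 : Module.Finite A Q₀)
    (h2 : Module.Projective A Q₀) (h3 : Module.Injective A Q₀) (ε₀ : A →ₗ[A] Q₀)
    (hε₀ : Function.Injective ε₀) :
    ∃ (Q : Type) (_ : AddCommGroup Q) (_ : Module A Q) (_ : Module K Q)
      (_ : IsScalarTower K A Q), Module.Finite A Q ∧ Module.Projective A Q ∧
      Module.Injective A Q ∧ (∃ ε : A →ₗ[A] Q, Function.Injective ε) ∧
      Module.finrank K Q ≤ Module.finrank K A * Module.finrank K A := by
  classical
  let Pn : ℕ → Prop := fun n => ∃ (Q : Type) (_ : AddCommGroup Q) (_ : Module A Q)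
    (_ : Module K Q) (_ : IsScalarTower K A Q), Module.Finite A Q ∧ Module.Projective A Q ∧
      Module.Injective A Q ∧ (∃ ε : A →ₗ[A] Q, Function.Injective ε) ∧ Module.finrank K Q = n
  have hex : ∃ n, Pn n := by
    let _ : Module K Q₀ := Module.compHom Q₀ (algebraMap K A)
    have hst : IsScalarTower K A Q₀ := ⟨fun c a x => by
      show (c • a) • x = algebraMap K A c • (a • x)
      rw [Algebra.smul_def, mul_smul]⟩
    exact ⟨_, Q₀, inferInstance, inferInstance, inferInstance, hst, h1, h2, h3, ⟨ε₀, hε₀⟩, rfl⟩
  obtain ⟨Q, _, _, _, _, hfin, hproj, hinj, ⟨ε, hε⟩, hn⟩ := Nat.find_spec hex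
  have hmin : ∀ n, Pn n → Module.finrank K Q ≤ n := fun n h => by
    rw [hn]
    exact Nat.find_min' hex h
  have hfd : FiniteDimensional K Q := Module.Finite.trans A Q
  refine ⟨Q, inferInstance, inferInstance, inferInstance, inferInstance, hfin, hproj, hinj,
    ⟨ε, hε⟩, ?_⟩
  let b := Module.finBasis K A
  let j : A →ₗ[A] (Fin (Module.finrank K A) → DL K A) :=
    LinearMap.pi fun i => toDL (show DR K A from b.coord i)
  have hj : Function.Injective j := by
    rw [injective_iff_map_eq_zero]
    intro x hx
    refine b.ext_elem fun i => ?_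
    have h2 := congrFun hx i
    have h3 : toDL (A := A) (show DR K A from b.coord i) x = 0 := h2
    have h4 : (toDL (A := A) (show DR K A from b.coord i) x) 1 = 0 := by
      rw [h3]
      rfl
    rw [toDL_apply, one_smul] at h4
    rw [map_zero]
    exact h4
  have hEinj : Module.Injective A (Fin (Module.finrank K A) → DL K A) := inj_pow DL.injective _
  obtain ⟨f, hf⟩ := hEinj.out ε hε j
  obtain ⟨g, hg⟩ := hinj.out j hj ε
  let h : Module.End A Q := g ∘ₗ f
  have hh : ∀ a, h (ε a) = ε a := fun a => by
    show g (f (ε a)) = ε a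
    rw [hf, hg]
  have hpow : ∀ n a, (h ^ n) (ε a) = ε a := by
    intro n a
    induction n with
    | zero => rfl
    | succ n ih => rw [pow_succ, Module.End.mul_apply, hh, ih]
  have hN : IsNoetherian A Q := isNoetherian_of_tower K (inferInstance : IsNoetherian K Q)
  have hA : IsArtinian A Q := isArtinian_of_tower K (inferInstance : IsArtinian K Q)
  obtain ⟨n, hn1, hn2⟩ := ((h.eventually_isCompl_ker_pow_range_pow).and
    (Filter.eventually_ge_atTop 1)).exists
  let Q' : Submodule A Q := LinearMap.range (h ^ n)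
  let π : Q →ₗ[A] Q' := Submodule.linearProjOfIsCompl Q' (LinearMap.ker (h ^ n)) hn1.symm
  have hπ : ∀ x : Q', π (Q'.subtype x) = x := fun x =>
    Submodule.linearProjOfIsCompl_apply_left hn1.symm x
  have hle : Module.finrank K Q ≤ Module.finrank K Q' := by
    refine hmin _ ⟨Q', inferInstance, inferInstance, inferInstance, inferInstance, inferInstance,
      Module.Projective.of_split Q'.subtype π (LinearMap.ext hπ),
      inj_retract hinj Q'.subtype π hπ,
      ⟨ε.codRestrict Q' fun a => ⟨ε a, hpow n a⟩, fun a b hab => hε ?_⟩, rfl⟩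
    exact congrArg Subtype.val hab
  have htop : (Q'.restrictScalars K) = ⊤ := by
    apply Submodule.eq_top_of_finrank_eq
    exact le_antisymm (Submodule.finrank_le _) hle
  have hker : ∀ x, (h ^ n) x = 0 → x = 0 := by
    intro x hx
    have h4 : x ∈ LinearMap.ker (h ^ n) ⊓ Q' := by
      refine ⟨hx, ?_⟩
      have h5 : x ∈ Q'.restrictScalars K := by
        rw [htop]
        trivial
      exact h5
    rw [hn1.inf_eq_bot] at h4
    exact h4
  have hfinj : Function.Injective f := by
    rw [injective_iff_map_eq_zero]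
    intro x hx
    apply hker
    obtain ⟨k, rfl⟩ : ∃ k, n = k + 1 := ⟨n - 1, by omega⟩
    rw [pow_succ, Module.End.mul_apply]
    have h4 : h x = 0 := by
      show g (f x) = 0
      rw [hx, map_zero]
    rw [h4, map_zero]
  have h5 := LinearMap.finrank_le_finrank_of_injective (R := K)
    (f := f.restrictScalars K) hfinj
  have h6 : Module.finrank K (Fin (Module.finrank K A) → DL K A) =
      Module.finrank K A * Module.finrank K A := by
    rw [Module.finrank_pi_fintype]
    have h7 : Module.finrank K (DL K A) = Module.finrank K A := Subspace.dual_finrank_eq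
    simp only [h7, Finset.sum_const, Finset.card_univ, Fintype.card_fin, smul_eq_mul]
  rw [h6] at h5
  exact h5

/-- The Auslander–Reiten conjecture implies the Nakayama conjecture, finite level. -/
theorem nc_of_arcU {K : Type} [Field K] (N : ℕ) {A : Type} [Ring A] [Algebra K A]
    [FiniteDimensional K A]
    (hARC : ∀ (B M : Type) [Ring B] [Algebra K B] [FiniteDimensional K B]
      [AddCommGroup M] [Module K M] [Module B M] [IsScalarTower K B M] [FiniteDimensional K M],
      Module.finrank K B ≤ Module.finrank K A ^ 4 → Module.finrank K M ≤ Module.finrank K A ^ 2 →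
      ExtUpTo B N M M → ExtUpTo B N M B → Module.Projective B M)
    (hA : DomDimGE A (N + 2)) :
    Module.Injective A A ∧ Module.Injective Aᵐᵒᵖ A := by
  obtain ⟨Q, _, _, _, _, hfin, hproj, hinj, ⟨ε, hε⟩, hdim⟩ : ∃ (Q : Type) (_ : AddCommGroup Q)
      (_ : Module A Q) (_ : Module K Q)
      (_ : IsScalarTower K A Q), Module.Finite A Q ∧ Module.Projective A Q ∧
      Module.Injective A Q ∧ (∃ ε : A →ₗ[A] Q, Function.Injective ε) ∧
      Module.finrank K Q ≤ Module.finrank K A * Module.finrank K A := by
    obtain ⟨J, iJ, mJ, ε, d, hJ, hε, -, -⟩ := hA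
    exact exists_small (hJ 0 (by omega)).1 (hJ 0 (by omega)).2.1 (hJ 0 (by omega)).2.2 ε
      (hε (by omega))
  obtain ⟨hExt, hend⟩ := muller hinj ε hε hA
  have hfd : FiniteDimensional K Q := Module.Finite.trans A Q
  let resK : (Module.End A Q) →ₗ[K] (Q →ₗ[K] Q) :=
    { toFun := fun f => f.restrictScalars K
      map_add' := fun f g => rfl
      map_smul' := fun c f => rfl }
  have hres : Function.Injective resK := by
    intro f g h
    refine LinearMap.ext fun x => ?_
    exact congrArg (fun f : Q →ₗ[K] Q => f x) h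
  have hfB : FiniteDimensional K (Module.End A Q) := FiniteDimensional.of_injective resK hres
  have hdim2 : Module.finrank K Q ≤ Module.finrank K A ^ 2 := by
    rw [sq]
    exact hdim
  have hdim4 : Module.finrank K (Module.End A Q) ≤ Module.finrank K A ^ 4 := by
    have h1 := LinearMap.finrank_le_finrank_of_injective (f := resK) hres
    rw [Module.finrank_linearMap K K Q Q] at h1
    refine h1.trans ((Nat.mul_le_mul hdim2 hdim2).trans ?_)
    rw [← pow_add]
  have hfaith : ∀ a : A, (∀ x : Q, a • x = 0) → a = 0 := by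
    intro a h
    apply hε
    have h1 : ε a = a • ε 1 := by rw [← map_smul, smul_eq_mul, mul_one]
    rw [h1, h, map_zero]
  have hcomm : ∀ (a : A) (b : Module.End A Q) (x : Q), a • b • x = b • a • x := fun a b x =>
    (map_smul b a x).symm
  have hfin' : Module.Finite (Module.End A Q) Q :=
    Module.Finite.of_restrictScalars_finite K (Module.End A Q) Q
  obtain ⟨n1, i1, r1, hr1⟩ := end_retract hfin hproj
  have hpB : Module.Projective (Module.End A Q) Q :=
    hARC (Module.End A Q) Q hdim4 hdim2 hExt (hExt.retract i1 r1 hr1)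
  constructor
  · obtain ⟨n, α, β, hαβ⟩ := retract_of_projective hcomm hfaith hend hfin' hpB
    exact NCbAux.inj_retract (NCbAux.inj_pow hinj n) α β hαβ
  · have hD : ExtUpTo (Module.End A Q)ᵐᵒᵖ N (DR K Q) (DR K Q) := hExt.dual
    have hfin2 : Module.Finite (Module.End A Q)ᵐᵒᵖ (DR K Q) :=
      Module.Finite.of_restrictScalars_finite K (Module.End A Q)ᵐᵒᵖ (DR K Q)
    have hd1 : Module.finrank K (Module.End A Q)ᵐᵒᵖ ≤ Module.finrank K A ^ 4 := by
      rw [← (MulOpposite.opLinearEquiv K : Module.End A Q ≃ₗ[K] _).finrank_eq]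
      exact hdim4
    have hd2 : Module.finrank K (DR K Q) ≤ Module.finrank K A ^ 2 := by
      have h7 : Module.finrank K (DR K Q) = Module.finrank K Q := Subspace.dual_finrank_eq
      rw [h7]
      exact hdim2
    obtain ⟨n2, i2, r2, hr2⟩ := end_op_retract (K := K) hinj
    have hp2 : Module.Projective (Module.End A Q)ᵐᵒᵖ (DR K Q) :=
      hARC (Module.End A Q)ᵐᵒᵖ (DR K Q) hd1 hd2 hD (hD.retract i2 r2 hr2)
    have hinjD : Module.Injective Aᵐᵒᵖ (DR K Q) := DR.injective_of_projective hproj
    obtain ⟨n, α, β, hαβ⟩ := retract_of_projective (A := Aᵐᵒᵖ) (B := (Module.End A Q)ᵐᵒᵖ)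
      (Q := DR K Q)
      (fun a b φ => DR.ext fun x => by
        rw [DR.smul_apply, DR.smul_apply, DR.smul_apply, DR.smul_apply]
        exact congrArg φ (hcomm a.unop b.unop x).symm)
      (fun a h => by
        apply MulOpposite.unop_injective
        refine hfaith _ fun x => ?_
        apply (Module.evalEquiv K Q).injective
        apply LinearMap.ext
        intro φ
        have h1 := congrArg (fun f : DR K Q => f x) (h (show DR K Q from φ))
        exact h1.trans (LinearMap.map_zero (show Q →ₗ[K] K from φ)).symm)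
      (NCbAux.end_dual hend) hfin2 hp2
    have h1 : Module.Injective Aᵐᵒᵖ Aᵐᵒᵖ := NCbAux.inj_retract (NCbAux.inj_pow hinjD n) α β hαβ
    refine NCbAux.inj_retract h1
      ({ toFun := fun a => MulOpposite.op a
         map_add' := fun a b => rfl
         map_smul' := fun a b => rfl } : A →ₗ[Aᵐᵒᵖ] Aᵐᵒᵖ)
      ({ toFun := fun a => MulOpposite.unop a
         map_add' := fun a b => rfl
         map_smul' := fun a b => rfl } : Aᵐᵒᵖ →ₗ[Aᵐᵒᵖ] A) (fun a => rfl)

end Pool.Agent.Lib.P5dcF
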