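import Mathlib
import Pool.Agent.Lib.P5dcF.Main
import Pool.Agent.Lib.P5dcF.QOne
import Pool.Agent.Lib.P5dcF.Alg
import Pool.Agent.Lib.P5dcF.NcU
import Pool.Agent.Lib.P5dcF.DomT
import Pool.Agent.Lib.P5dcF.Lev

/-!
# The equivalences (MP_5dc868_al)
-/

namespace Pool.Agent.Lib.P5dcF

open Pool.Agent.Lib.P5dc868

theorem DomDimGE.mono {A : Type} [Ring A] {n n' : ℕ} (h : n ≤ n') (hA : DomDimGE A n') :
    DomDimGE A n := by
  obtain ⟨J, i1, i2, ε, d, h1, h2, h3, h4⟩ := hA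
  exact ⟨J, i1, i2, ε, d, fun i hi => h1 i (by omega), fun hn => h2 (by omega),
    fun hn => h3 (by omega), fun i hi => h4 i (by omega)⟩

theorem arcn_of_q1n {K : Type} [Field K] {m d n : ℕ} (h : Q1n (bnd m d) n K) : ARCn m d n K := by
  intro B M _ _ _ _ _ _ _ _ hB hM h1 h2
  refine arcU_of_q1 (K := K) M n h1 h2 fun A _ _ _ hA hdd hE => ?_
  rw [hB, hM] at hA
  exact (h A hA (hdd.mono (by omega)) hE).2

theorem q1n_of_ncn {K : Type} [Field K] {m n : ℕ} (h : NCn m n K) : Q1n m n K :=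
  fun A _ _ _ hA hdd _ => h A hA hdd

theorem nc_uniform {S : Set ℕ} (h : ∀ m d, Uniform S (fun n => @ARCn m d n)) (m : ℕ) :
    Uniform S (fun n => @NCn m n) := by
  classical
  choose n hn using h
  let N := (Finset.range (m ^ 4 + 1)).sup fun i => (Finset.range (m ^ 2 + 1)).sup fun j => n i j
  have hN : ∀ i j, i ≤ m ^ 4 → j ≤ m ^ 2 → n i j ≤ N := by
    intro i j hi hj
    have h1 : n i j ≤ (Finset.range (m ^ 2 + 1)).sup fun j => n i j :=
      Finset.le_sup (f := fun j => n i j) (Finset.mem_range.2 (by omega))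
    have h2 : ((Finset.range (m ^ 2 + 1)).sup fun j => n i j) ≤ N :=
      Finset.le_sup (f := fun i => (Finset.range (m ^ 2 + 1)).sup fun j => n i j)
        (Finset.mem_range.2 (by omega))
    exact h1.trans h2
  refine ⟨N + 2, fun K _ hK A _ _ _ hA hdd => ?_⟩
  refine nc_of_arcU (K := K) N (fun B M _ _ _ _ _ _ _ _ hB hM h1 h2 => ?_) hdd
  have hB' := hB.trans (Nat.pow_le_pow_left hA 4)
  have hM' := hM.trans (Nat.pow_le_pow_left hA 2)
  have hle := hN _ _ hB' hM'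
  have hK' : ringChar K ∈ S ∨ (0 ∈ S ∧ n (Module.finrank K B) (Module.finrank K M) <
      ringChar K) := hK.imp id fun h => ⟨h.1, by omega⟩
  exact hn _ _ K hK' B M rfl rfl (fun i hi hin => h1 i hi (by omega))
    (fun i hi hin => h2 i hi (by omega))

theorem over_q1_iff_tc (S : Set ℕ) : Over S @Q1 ↔ ∀ m, Over S (@TC m) :=
  ⟨fun h m K _ hK => q1_iff_tc.1 (h K hK) m, fun h K _ hK => q1_iff_tc.2 fun m => h m K hK⟩

theorem over_q1_iff_arc (S : Set ℕ) : Over S @Q1 ↔ ∀ m d, Over S (@ARC m d) :=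
  ⟨fun h m d K _ hK => q1_iff_arc.1 (h K hK) m d,
    fun h K _ hK => q1_iff_arc.2 fun m d => h m d K hK⟩

theorem q1_tfae {S : Set ℕ} (hS : IsCl S) :
    List.TFAE [Over S @Q1, OverOne S @Q1,
      ∀ m, Uniform S (fun n => @Q1n m n), ∀ m, UniformFin S (fun n => @Q1n m n),
      ∀ m, UniformPrime S (fun n => @Q1n m n),
      ∀ m, Uniform S (fun n => @NCn m n), ∀ m, UniformFin S (fun n => @NCn m n),
      ∀ m, UniformPrime S (fun n => @NCn m n),
      ∀ m, Uniform S (fun n => @TCn m n), ∀ m, UniformFin S (fun n => @TCn m n),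
      ∀ m, UniformPrime S (fun n => @TCn m n),
      ∀ m d, Uniform S (fun n => @ARCn m d n), ∀ m d, UniformFin S (fun n => @ARCn m d n),
      ∀ m d, UniformPrime S (fun n => @ARCn m d n)] := by
  tfae_have 1 → 2 := by
    intro h r hr
    obtain ⟨K, _, -, h2, h3, h4⟩ := overOne_of_over hS h r hr
    exact ⟨K, inferInstance, h2, h3, h4⟩
  tfae_have 2 → 1 := by
    intro h K _ hK
    obtain ⟨F, _, h2, h3, h4⟩ := h _ hK
    exact q1_one h2 h4 K h3.symm
  tfae_have 1 ↔ 9 := by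
    rw [over_q1_iff_tc]
    exact forall_congr' fun m => (tc_tfae hS m).out 0 2
  tfae_have 1 ↔ 10 := by
    rw [over_q1_iff_tc]
    exact forall_congr' fun m => (tc_tfae hS m).out 0 3
  tfae_have 1 ↔ 11 := by
    rw [over_q1_iff_tc]
    exact forall_congr' fun m => (tc_tfae hS m).out 0 4
  tfae_have 1 ↔ 12 := by
    rw [over_q1_iff_arc]
    exact forall_congr' fun m => forall_congr' fun d => (arc_tfae hS m d).out 0 2
  tfae_have 1 ↔ 13 := by
    rw [over_q1_iff_arc]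
    exact forall_congr' fun m => forall_congr' fun d => (arc_tfae hS m d).out 0 3
  tfae_have 1 ↔ 14 := by
    rw [over_q1_iff_arc]
    exact forall_congr' fun m => forall_congr' fun d => (arc_tfae hS m d).out 0 4
  tfae_have 12 → 6 := fun h m => nc_uniform h m
  tfae_have 6 → 7 := fun h m => uniformFin_of_uniform hS (h m)
  tfae_have 6 → 8 := fun h m => uniformPrime_of_uniform (h m)
  tfae_have 6 → 3 := by
    intro h m
    obtain ⟨n, hn⟩ := h m
    exact ⟨n, fun K _ hK => q1n_of_ncn (hn K hK)⟩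
  tfae_have 3 → 4 := fun h m => uniformFin_of_uniform hS (h m)
  tfae_have 7 → 4 := by
    intro h m
    obtain ⟨n, C, hC, hCS, hn⟩ := h m
    exact ⟨n, C, hC, hCS, fun K _ _ hK => q1n_of_ncn (hn K hK)⟩
  tfae_have 8 → 5 := by
    intro h m
    obtain ⟨n, hn, hn'⟩ := h m
    exact ⟨n, fun K _ _ hK => q1n_of_ncn (hn K hK), fun h0 p _ hp => q1n_of_ncn (hn' h0 p hp)⟩
  tfae_have 4 → 13 := by
    intro h m d
    obtain ⟨n, C, hC, hCS, hn⟩ := h (bnd m d)
    exact ⟨n, C, hC, hCS, fun K _ _ hK => arcn_of_q1n (hn K hK)⟩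
  tfae_have 5 → 14 := by
    intro h m d
    obtain ⟨n, hn, hn'⟩ := h (bnd m d)
    exact ⟨n, fun K _ _ hK => arcn_of_q1n (hn K hK), fun h0 p _ hp => arcn_of_q1n (hn' h0 p hp)⟩
  tfae_finish

end Pool.Agent.Lib.P5dcF
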