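import Mathlib
import Pool.Agent.Lib.P5dc868.T2L
import Pool.Agent.Lib.P5dcF.NcU
import Pool.Agent.Lib.P5dcF.Lev
import Pool.Agent.Lib.P5dcF.Fin

/-!
# Pointwise transfer of counterexamples (MP_5dc868_al)
-/

namespace Pool.Agent.Lib.P5dcF

open Pool.Agent.Lib.P5dc868

/-- from a pair to an algebra -/
theorem exists_algebra (K : Type) [Field K] (B M : Type) [Ring B] [Algebra K B]
    [FiniteDimensional K B] [AddCommGroup M] [Module K M] [Module B M] [IsScalarTower K B M]
    [FiniteDimensional K M] :
    ∃ (E : Type) (_ : Ring E) (_ : Algebra K E) (_ : FiniteDimensional K E),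
      Module.finrank K E ≤ bnd (Module.finrank K B) (Module.finrank K M) ∧
      (∀ n, ExtUpTo B n M M → ExtUpTo B n M B → DomDimGE E (n + 2) ∧ ExtUpTo E n (DL K E) E) ∧
      (Module.Injective E E ∨ Module.Injective Eᵐᵒᵖ E → Module.Projective B M) := by
  have hMf : Module.Finite B M := Module.Finite.of_restrictScalars_finite K B M
  have hfin : Module.Finite (Cyc K B) (Ind K B M) := Ind.finite'
  have hfinK : FiniteDimensional K (Ind K B M) := Module.Finite.trans (Cyc K B) _
  have hinj := LinearMap.restrictScalars_injective K (S := Cyc K B)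
    (M := Cyc K B × Ind K B M) (M₂ := Cyc K B × Ind K B M)
  have hE : FiniteDimensional K (Module.End (Cyc K B) (Cyc K B × Ind K B M)) :=
    Module.Finite.of_injective
      (LinearMap.restrictScalarsₗ K (Cyc K B) (Cyc K B × Ind K B M) (Cyc K B × Ind K B M) K) hinj
  refine ⟨Module.End (Cyc K B) (Cyc K B × Ind K B M), inferInstance, inferInstance, hE, ?_,
    fun L hM hB => ?_, fun h => ?_⟩
  · have h3 := LinearMap.finrank_le_finrank_of_injective
      (f := (LinearMap.restrictScalarsₗ K (Cyc K B) (Cyc K B × Ind K B M)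
        (Cyc K B × Ind K B M) K)) hinj
    refine h3.trans ?_
    rw [Module.finrank_linearMap, Module.finrank_prod, bnd, sq]
    have h4 := finrank_cyc (K := K) (B := B)
    have h5 := finrank_ind (K := K) (B := B) M
    exact Nat.mul_le_mul (by omega) (by omega)
  · obtain ⟨k, ε, d, hε, h0, hd, h1, h2⟩ := exists_cycResS (K := K) M L hM hB
    have hP : ∀ n, Module.Finite (Cyc K B) (Ind K B (Fin (k n) → B)) ∧
        Module.Projective (Cyc K B) (Ind K B (Fin (k n) → B)) :=
      fun n => ⟨Ind.finite (k n), Ind.projective (k n)⟩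
    exact ⟨domDimT (Cyc.frob (K := K) (B := B)) (fun n => Ind K B (Fin (k n) → B)) hP ε d hε h0
      hd L h1, extT (Cyc.frob (K := K) (B := B)) (fun n => Ind K B (Fin (k n) → B)) hP ε d hε
      h0 hd L h1 h2⟩
  · apply Ind.projective_of_ind (K := K)
    rcases h with h | h
    · exact projective_of_left_injective h
    · exact (Cyc.frob (K := K) (B := B)).projective_of_injective h

/-- from an algebra to a pair -/
theorem exists_pair (K : Type) [Field K] {A : Type} [Ring A] [Algebra K A]
    [FiniteDimensional K A] (hA1 : DomDimGE A 1) :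
    (∃ (B M : Type) (_ : Ring B) (_ : Algebra K B) (_ : FiniteDimensional K B)
      (_ : AddCommGroup M) (_ : Module K M) (_ : Module B M) (_ : IsScalarTower K B M)
      (_ : FiniteDimensional K M),
      Module.finrank K B ≤ Module.finrank K A ^ 4 ∧ Module.finrank K M ≤ Module.finrank K A ^ 2 ∧
      (∀ n, DomDimGE A (n + 2) → ExtUpTo B n M M ∧ ExtUpTo B n M B) ∧
      (DomDimGE A 2 → Module.Projective B M → Module.Injective A A)) ∧
    ∃ (B M : Type) (_ : Ring B) (_ : Algebra K B) (_ : FiniteDimensional K B)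
      (_ : AddCommGroup M) (_ : Module K M) (_ : Module B M) (_ : IsScalarTower K B M)
      (_ : FiniteDimensional K M),
      Module.finrank K B ≤ Module.finrank K A ^ 4 ∧ Module.finrank K M ≤ Module.finrank K A ^ 2 ∧
      (∀ n, DomDimGE A (n + 2) → ExtUpTo B n M M ∧ ExtUpTo B n M B) ∧
      (DomDimGE A 2 → Module.Projective B M → Module.Injective Aᵐᵒᵖ A) := by
  obtain ⟨Q, _, _, _, _, hfin, hproj, hinj, ⟨ε, hε⟩, hdim⟩ : ∃ (Q : Type) (_ : AddCommGroup Q)
      (_ : Module A Q) (_ : Module K Q)
      (_ : IsScalarTower K A Q), Module.Finite A Q ∧ Module.Projective A Q ∧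
      Module.Injective A Q ∧ (∃ ε : A →ₗ[A] Q, Function.Injective ε) ∧
      Module.finrank K Q ≤ Module.finrank K A * Module.finrank K A := by
    obtain ⟨J, iJ, mJ, ε, d, hJ, hε, -, -⟩ := hA1
    exact exists_small (hJ 0 (by omega)).1 (hJ 0 (by omega)).2.1 (hJ 0 (by omega)).2.2 ε
      (hε (by omega))
  have hfd : FiniteDimensional K Q := Module.Finite.trans A Q
  let resK : (Module.End A Q) →ₗ[K] (Q →ₗ[K] Q) :=
    { toFun := fun f => f.restrictScalars K
      map_add' := fun f g => rfl
      map_smul' := fun c f => rfl }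
  have hres : Function.Injective resK := by
    intro f g h
    refine LinearMap.ext fun x => ?_
    exact congrArg (fun f : Q →ₗ[K] Q => f x) h
  have hfB : FiniteDimensional K (Module.End A Q) := FiniteDimensional.of_injective resK hres
  have hdim2 : Module.finrank K Q ≤ Module.finrank K A ^ 2 := by
    rw [sq]
    exact hdim
  have hdim4 : Module.finrank K (Module.End A Q) ≤ Module.finrank K A ^ 4 := by
    have h1 := LinearMap.finrank_le_finrank_of_injective (f := resK) hres
    rw [Module.finrank_linearMap K K Q Q] at h1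
    refine h1.trans ((Nat.mul_le_mul hdim2 hdim2).trans ?_)
    rw [← pow_add]
  have hfaith : ∀ a : A, (∀ x : Q, a • x = 0) → a = 0 := by
    intro a h
    apply hε
    have h1 : ε a = a • ε 1 := by rw [← map_smul, smul_eq_mul, mul_one]
    rw [h1, h, map_zero]
  have hcomm : ∀ (a : A) (b : Module.End A Q) (x : Q), a • b • x = b • a • x := fun a b x =>
    (map_smul b a x).symm
  have hfin' : Module.Finite (Module.End A Q) Q :=
    Module.Finite.of_restrictScalars_finite K (Module.End A Q) Q
  obtain ⟨n1, i1, r1, hr1⟩ := end_retract hfin hproj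
  refine ⟨⟨Module.End A Q, Q, inferInstance, inferInstance, hfB, inferInstance, inferInstance,
    inferInstance, inferInstance, hfd, hdim4, hdim2, fun N hN => ?_, fun h2 hpB => ?_⟩, ?_⟩
  · obtain ⟨hExt, -⟩ := muller hinj ε hε hN
    exact ⟨hExt, hExt.retract i1 r1 hr1⟩
  · obtain ⟨-, hend⟩ := muller (N := 0) hinj ε hε h2
    obtain ⟨n, α, β, hαβ⟩ := retract_of_projective hcomm hfaith hend hfin' hpB
    exact NCbAux.inj_retract (NCbAux.inj_pow hinj n) α β hαβ
  · have hfin2 : Module.Finite (Module.End A Q)ᵐᵒᵖ (DR K Q) :=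
      Module.Finite.of_restrictScalars_finite K (Module.End A Q)ᵐᵒᵖ (DR K Q)
    have hd1 : Module.finrank K (Module.End A Q)ᵐᵒᵖ ≤ Module.finrank K A ^ 4 := by
      rw [← (MulOpposite.opLinearEquiv K : Module.End A Q ≃ₗ[K] _).finrank_eq]
      exact hdim4
    have hd2 : Module.finrank K (DR K Q) ≤ Module.finrank K A ^ 2 := by
      have h7 : Module.finrank K (DR K Q) = Module.finrank K Q := Subspace.dual_finrank_eq
      rw [h7]
      exact hdim2
    obtain ⟨n2, i2, r2, hr2⟩ := end_op_retract (K := K) hinj
    refine ⟨(Module.End A Q)ᵐᵒᵖ, DR K Q, inferInstance, inferInstance, inferInstance,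
      inferInstance, inferInstance, inferInstance, inferInstance, inferInstance, hd1, hd2,
      fun N hN => ?_, fun h2 hp2 => ?_⟩
    · obtain ⟨hExt, -⟩ := muller hinj ε hε hN
      have hD : ExtUpTo (Module.End A Q)ᵐᵒᵖ N (DR K Q) (DR K Q) := hExt.dual
      exact ⟨hD, hD.retract i2 r2 hr2⟩
    · obtain ⟨-, hend⟩ := muller (N := 0) hinj ε hε h2
      have hinjD : Module.Injective Aᵐᵒᵖ (DR K Q) := DR.injective_of_projective hproj
      obtain ⟨n, α, β, hαβ⟩ := retract_of_projective (A := Aᵐᵒᵖ) (B := (Module.End A Q)ᵐᵒᵖ)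
        (Q := DR K Q)
        (fun a b φ => DR.ext fun x => by
          rw [DR.smul_apply, DR.smul_apply, DR.smul_apply, DR.smul_apply]
          exact congrArg φ (hcomm a.unop b.unop x).symm)
        (fun a h => by
          apply MulOpposite.unop_injective
          refine hfaith _ fun x => ?_
          apply (Module.evalEquiv K Q).injective
          apply LinearMap.ext
          intro φ
          have h1 := congrArg (fun f : DR K Q => f x) (h (show DR K Q from φ))
          exact h1.trans (LinearMap.map_zero (show Q →ₗ[K] K from φ)).symm)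
        (NCbAux.end_dual hend) hfin2 hp2
      have h1 : Module.Injective Aᵐᵒᵖ Aᵐᵒᵖ := NCbAux.inj_retract (NCbAux.inj_pow hinjD n) α β hαβ
      refine NCbAux.inj_retract h1
        ({ toFun := fun a => MulOpposite.op a
           map_add' := fun a b => rfl
           map_smul' := fun a b => rfl } : A →ₗ[Aᵐᵒᵖ] Aᵐᵒᵖ)
        ({ toFun := fun a => MulOpposite.unop a
           map_add' := fun a b => rfl
           map_smul' := fun a b => rfl } : Aᵐᵒᵖ →ₗ[Aᵐᵒᵖ] A) (fun a => rfl)

end Pool.Agent.Lib.P5dcF
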