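import Mathlib
import Pool.Agent.Lib.P5dc868.Defs
import Pool.Agent.Lib.P5dcF.Stmt

/-!
# Definitions for MP_5dc868_al: transfer between modules and algebras
-/

namespace Pool.Agent.Lib.P5dcF

open Pool.Agent.Lib.P5dc868 Module

/-- There is a `K`-algebra `E`, of dimension at most `(6 b + m + m b)²` for `b = dim B` and
`m = dim M`, such that for every level `n`, finite or infinite, the vanishing of `Ext^i(M, M)` and
`Ext^i(M, B)` for `1 ≤ i ≤ n` implies that `domdim E ≥ n + 2` and that `Ext^i(D(E), E) = 0` for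
`1 ≤ i ≤ n`, and such that `M` is projective if `E` is injective as a left or as a right
module. -/
def HasAlgebra (K B M : Type) [Field K] [Ring B] [Algebra K B] [AddCommGroup M] [Module K M]
    [Module B M] : Prop :=
  ∃ (E : Type) (_ : Ring E) (_ : Algebra K E) (_ : FiniteDimensional K E),
    finrank K E ≤ (6 * finrank K B + finrank K M + finrank K M * finrank K B) ^ 2 ∧
    (∀ n, ExtUpTo B n M M → ExtUpTo B n M B → DomDimGE E (n + 2) ∧ ExtUpTo E n (DL K E) E) ∧
    (ExtZero B M M → ExtZero B M B → DomDimInf E ∧ ExtZero E (DL K E) E) ∧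
    (Module.Injective E E ∨ Module.Injective Eᵐᵒᵖ E → Module.Projective B M)

/-- There are a `K`-algebra `B` with `dim B ≤ (dim A)⁴` and a `B`-module `M` with
`dim M ≤ (dim A)²` such that for every level `n`, finite or infinite, `domdim A ≥ n + 2` implies
that `Ext^i(M, M) = 0 = Ext^i(M, B)` for `1 ≤ i ≤ n`, and such that `I` holds if `M` is
projective. -/
def HasPair (K A : Type) [Field K] [Ring A] [Algebra K A] (I : Prop) : Prop :=
  ∃ (B M : Type) (_ : Ring B) (_ : Algebra K B) (_ : FiniteDimensional K B) (_ : AddCommGroup M)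
    (_ : Module K M) (_ : Module B M) (_ : IsScalarTower K B M) (_ : FiniteDimensional K M),
    finrank K B ≤ finrank K A ^ 4 ∧ finrank K M ≤ finrank K A ^ 2 ∧
    (∀ n, DomDimGE A (n + 2) → ExtUpTo B n M M ∧ ExtUpTo B n M B) ∧
    (DomDimInf A → ExtZero B M M ∧ ExtZero B M B) ∧ (Module.Projective B M → I)

end Pool.Agent.Lib.P5dcF
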