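import Mathlib
import Pool.Agent.Lib.P5dc868.CycRes
import Pool.Agent.Lib.P5dcF.StmtT
import Pool.Agent.Lib.P5dcF.Pt

/-!
# Transfer between modules and algebras (MP_5dc868_al)
-/

namespace Pool.Agent.Lib.P5dcF

open Pool.Agent.Lib.P5dc868

theorem domDimGE_of_inf {A : Type} [Ring A] (h : DomDimInf A) (n : ℕ) : DomDimGE A n := by
  obtain ⟨J, i1, i2, ε, d, h1, h2, h3, h4⟩ := h
  exact ⟨J, i1, i2, ε, d, fun i _ => h1 i, fun _ => h2, fun _ => h3, fun i _ => h4 i⟩

/-- from a pair to an algebra -/
theorem hasAlgebra (K B M : Type) [Field K] [Ring B] [Algebra K B]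
    [FiniteDimensional K B] [AddCommGroup M] [Module K M] [Module B M] [IsScalarTower K B M]
    [FiniteDimensional K M] : HasAlgebra K B M := by
  have hMf : Module.Finite B M := Module.Finite.of_restrictScalars_finite K B M
  have hfin : Module.Finite (Cyc K B) (Ind K B M) := Ind.finite'
  have hfinK : FiniteDimensional K (Ind K B M) := Module.Finite.trans (Cyc K B) _
  have hinj := LinearMap.restrictScalars_injective K (S := Cyc K B)
    (M := Cyc K B × Ind K B M) (M₂ := Cyc K B × Ind K B M)
  have hE : FiniteDimensional K (Module.End (Cyc K B) (Cyc K B × Ind K B M)) :=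
    Module.Finite.of_injective
      (LinearMap.restrictScalarsₗ K (Cyc K B) (Cyc K B × Ind K B M) (Cyc K B × Ind K B M) K) hinj
  refine ⟨Module.End (Cyc K B) (Cyc K B × Ind K B M), inferInstance, inferInstance, hE, ?_,
    fun L hM hB => ?_, fun hM hB => ?_, fun h => ?_⟩
  · have h3 := LinearMap.finrank_le_finrank_of_injective
      (f := (LinearMap.restrictScalarsₗ K (Cyc K B) (Cyc K B × Ind K B M)
        (Cyc K B × Ind K B M) K)) hinj
    refine h3.trans ?_
    rw [Module.finrank_linearMap, Module.finrank_prod, sq]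
    have h4 := finrank_cyc (K := K) (B := B)
    have h5 := finrank_ind (K := K) (B := B) M
    exact Nat.mul_le_mul (by omega) (by omega)
  · obtain ⟨k, ε, d, hε, h0, hd, h1, h2⟩ := exists_cycResS (K := K) M L hM hB
    have hP : ∀ n, Module.Finite (Cyc K B) (Ind K B (Fin (k n) → B)) ∧
        Module.Projective (Cyc K B) (Ind K B (Fin (k n) → B)) :=
      fun n => ⟨Ind.finite (k n), Ind.projective (k n)⟩
    exact ⟨domDimT (Cyc.frob (K := K) (B := B)) (fun n => Ind K B (Fin (k n) → B)) hP ε d hε h0
      hd L h1, extT (Cyc.frob (K := K) (B := B)) (fun n => Ind K B (Fin (k n) → B)) hP ε d hε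
      h0 hd L h1 h2⟩
  · obtain ⟨k, ε, d, hε, h0, hd, h1, h2⟩ := exists_cycRes (K := K) M hM hB
    have hP : ∀ n, Module.Finite (Cyc K B) (Ind K B (Fin (k n) → B)) ∧
        Module.Projective (Cyc K B) (Ind K B (Fin (k n) → B)) :=
      fun n => ⟨Ind.finite (k n), Ind.projective (k n)⟩
    exact ⟨(Cyc.frob (K := K) (B := B)).domDim (fun n => Ind K B (Fin (k n) → B)) hP ε d hε h0
      hd h1, (Cyc.frob (K := K) (B := B)).extZero (fun n => Ind K B (Fin (k n) → B)) hP ε d hε h0
      hd h1 h2⟩
  · apply Ind.projective_of_ind (K := K)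
    rcases h with h | h
    · exact projective_of_left_injective h
    · exact (Cyc.frob (K := K) (B := B)).projective_of_injective h

/-- from an algebra to a pair -/
theorem hasPair (K : Type) [Field K] {A : Type} [Ring A] [Algebra K A]
    [FiniteDimensional K A] (hA : DomDimGE A 2) :
    HasPair K A (Module.Injective A A) ∧ HasPair K A (Module.Injective Aᵐᵒᵖ A) := by
  obtain ⟨⟨B, M, _, _, _, _, _, _, _, _, h1, h2, h3, h4⟩,
    ⟨B', M', _, _, _, _, _, _, _, _, h1', h2', h3', h4'⟩⟩ :=
    exists_pair K (hA.mono (by omega : 1 ≤ 2))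
  refine ⟨⟨B, M, inferInstance, inferInstance, inferInstance, inferInstance, inferInstance,
    inferInstance, inferInstance, inferInstance, h1, h2, h3, fun h => ⟨?_, ?_⟩, h4 hA⟩,
    ⟨B', M', inferInstance, inferInstance, inferInstance, inferInstance, inferInstance,
    inferInstance, inferInstance, inferInstance, h1', h2', h3', fun h => ⟨?_, ?_⟩, h4' hA⟩⟩
  · exact fun i hi => (h3 i (domDimGE_of_inf h _)).1 i hi le_rfl
  · exact fun i hi => (h3 i (domDimGE_of_inf h _)).2 i hi le_rfl
  · exact fun i hi => (h3' i (domDimGE_of_inf h _)).1 i hi le_rfl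
  · exact fun i hi => (h3' i (domDimGE_of_inf h _)).2 i hi le_rfl

end Pool.Agent.Lib.P5dcF
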